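import Pool.Agent.H60.BV.Coarea

set_option autoImplicit false
set_option linter.unusedSectionVars false

open MeasureTheory Metric Set Filter Topology
open scoped ENNReal NNReal

namespace Pool.Agent.H60.BV

variable {X : Type*} [MetricSpace X] [MeasurableSpace X] [BorelSpace X]

/-- layer cake for `∫ u lip_a g` -/
theorem layercake {m : Measure X} {V : Set X} {u : X → ℝ} {L : ℝ≥0} (h : Cut V u L)
    (g : X → ℝ) :
    ∫⁻ x in V, lipa g x * ENNReal.ofReal (u x) ∂m =
      ∫⁻ t in Ioi (0 : ℝ), ∫⁻ x in {x | t < u x}, lipa g x ∂m := by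
  have hm : Measurable (lipa g) := measurable_lipa g
  have hu : Measurable (fun x => ENNReal.ofReal (u x)) := h.cont.measurable.ennreal_ofReal
  have h1 := lintegral_eq_lintegral_meas_lt ((m.restrict V).withDensity (lipa g))
    (f := u) (Eventually.of_forall h.nonneg) h.cont.measurable.aemeasurable
  rw [lintegral_withDensity_eq_lintegral_mul _ hm hu] at h1
  simp only [Pi.mul_apply] at h1
  rw [h1]
  refine setLIntegral_congr_fun measurableSet_Ioi fun t ht => ?_
  have h2 : MeasurableSet {x | t < u x} := (h.isOpen_gt t).measurableSet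
  rw [withDensity_apply _ h2, Measure.restrict_restrict h2,
    inter_eq_self_of_subset_left (h.gt_sub (le_of_lt ht))]

theorem limsup_layer_le {m : Measure X} {V Ω : Set X} {u : X → ℝ} {L : ℝ≥0} (h : Cut V u L)
    (hV : IsOpen V) (hΩ : MeasurableSet Ω) {c e : ℝ≥0∞} (hc : c = tvOpen m (Ω.indicator 1) V + e)
    (hcfin : c ≠ ⊤) {g : ℕ → X → ℝ} (hg : ∀ n, ∀ x ∈ V, lipa (g n) x < ⊤)
    (hgc : ConvLoc m V g (Ω.indicator 1)) (hgi : ∀ n, ∫⁻ x in V, lipa (g n) x ∂m ≤ c)
    {t' t : ℝ} (ht' : 0 < t') (ht : t' < t) :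
    limsup (fun n => ∫⁻ x in {x | t < u x}, lipa (g n) x ∂m) atTop ≤ per m Ω u t' + e := by
  have hA : IsOpen (V ∩ {x | u x < t}) := hV.inter (h.isOpen_lt' t)
  set r : ℕ → ℝ≥0∞ := fun n => ∫⁻ x in V ∩ {x | u x < t}, lipa (g n) x ∂m with hr
  have hq : ∀ n, ∫⁻ x in {x | t < u x}, lipa (g n) x ∂m ≤ c - r n := by
    intro n
    have h1 : r n ≠ ⊤ := ((lintegral_mono_set inter_subset_left).trans (hgi n)).trans_lt
      hcfin.lt_top |>.ne
    refine ENNReal.le_sub_of_add_le_right h1 ?_
    refine le_trans (le_of_eq ?_) ((lintegral_mono_set ?_).trans (hgi n)) (b := ∫⁻ x in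
      {x | t < u x} ∪ (V ∩ {x | u x < t}), lipa (g n) x ∂m)
    · rw [lintegral_union hA.measurableSet]
      rw [Set.disjoint_left]
      intro x hx hx'
      have h2 : t < u x := hx
      have h3 : u x < t := hx'.2
      linarith
    · exact union_subset (h.gt_sub (ht'.trans ht).le) inter_subset_left
  have hl : tvOpen m (Ω.indicator 1) (V ∩ {x | u x < t}) ≤ liminf r atTop :=
    tvOpen_le_liminf (fun n => (locallyLipschitzOn_iff hA).2 fun x hx => hg n x hx.1)
      (hgc.mono inter_subset_left)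
  calc limsup (fun n => ∫⁻ x in {x | t < u x}, lipa (g n) x ∂m) atTop
      ≤ limsup (fun n => c - r n) atTop := limsup_le_limsup (Eventually.of_forall hq)
    _ = c - liminf r atTop := ENNReal.limsup_const_sub _ _ hcfin
    _ ≤ c - tvOpen m (Ω.indicator 1) (V ∩ {x | u x < t}) := tsub_le_tsub_left hl _
    _ ≤ per m Ω u t' + e := by
      rw [tsub_le_iff_left, hc]
      have h1 := glue (m := m) h hV hΩ ht' ht
      calc tvOpen m (Ω.indicator 1) V + e
          ≤ tvOpen m (Ω.indicator 1) (V ∩ {x | u x < t}) + tvOpen m (Ω.indicator 1) {x | t' < u x}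
            + e := by gcongr
        _ = _ := by rw [add_assoc]; rfl

theorem limsup_weighted_le {m : Measure X} {V Ω : Set X} {u : X → ℝ} {L : ℝ≥0} (h : Cut V u L)
    (hV : IsOpen V) (hΩ : MeasurableSet Ω) {c e : ℝ≥0∞} (hc : c = tvOpen m (Ω.indicator 1) V + e)
    (hcfin : c ≠ ⊤) {g : ℕ → X → ℝ} (hg : ∀ n, ∀ x ∈ V, lipa (g n) x < ⊤)
    (hgc : ConvLoc m V g (Ω.indicator 1)) (hgi : ∀ n, ∫⁻ x in V, lipa (g n) x ∂m ≤ c)
    {δ T : ℝ} (hδ : 0 < δ) (hT' : ∀ x, u x < T) :
    limsup (fun n => ∫⁻ x in V, lipa (g n) x * ENNReal.ofReal (u x) ∂m) atTop ≤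
      c * ENNReal.ofReal δ + (∫⁻ t in Ioi (0 : ℝ), per m Ω u t) + e * ENNReal.ofReal T := by
  have hqm : ∀ n, Measurable (fun t : ℝ => ∫⁻ x in {x | t < u x}, lipa (g n) x ∂m) := by
    intro n
    refine Antitone.measurable fun a b hab => lintegral_mono_set fun x hx => ?_
    have : b < u x := hx
    exact lt_of_le_of_lt hab this
  have hq0 : ∀ n, ∀ t : ℝ, T ≤ t → ∫⁻ x in {x | t < u x}, lipa (g n) x ∂m = 0 := by
    intro n t ht
    have : {x | t < u x} = ∅ := by
      rw [eq_empty_iff_forall_notMem]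
      intro x hx
      have h1 : t < u x := hx
      have h2 := hT' x
      linarith
    rw [this]
    simp
  have hqc : ∀ n, ∀ t : ℝ, 0 < t → ∫⁻ x in {x | t < u x}, lipa (g n) x ∂m ≤ c :=
    fun n t ht => (lintegral_mono_set (h.gt_sub ht.le)).trans (hgi n)
  have h1 : limsup (fun n => ∫⁻ x in V, lipa (g n) x * ENNReal.ofReal (u x) ∂m) atTop ≤
      ∫⁻ t in Ioi (0 : ℝ), limsup (fun n => ∫⁻ x in {x | t < u x}, lipa (g n) x ∂m) atTop := by
    simp only [layercake h]
    refine limsup_lintegral_le (fun t => (Iic T).indicator (fun _ => c) t) hqm (fun n => ?_) ?_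
    · filter_upwards [ae_restrict_mem measurableSet_Ioi] with t ht
      rcases le_or_gt t T with h1 | h1
      · rw [indicator_of_mem (show t ∈ Iic T from h1)]
        exact hqc n t ht
      · rw [hq0 n t h1.le]
        exact zero_le
    · rw [lintegral_indicator measurableSet_Iic, setLIntegral_const,
          Measure.restrict_apply measurableSet_Iic, inter_comm, Ioi_inter_Iic, Real.volume_Ioc]
      exact ENNReal.mul_ne_top hcfin ENNReal.ofReal_ne_top
  refine h1.trans ?_
  have hpm : Measurable (per m Ω u) := (per_antitone m Ω u).measurable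
  have hps : Measurable (fun t => per m Ω u (t - δ)) := hpm.comp (measurable_id.sub_const δ)
  have hshift : ∫⁻ t in Ioi δ, per m Ω u (t - δ) = ∫⁻ t in Ioi (0 : ℝ), per m Ω u t := by
    rw [← lintegral_indicator measurableSet_Ioi, ← lintegral_indicator measurableSet_Ioi,
      ← lintegral_sub_right_eq_self (μ := volume) ((Ioi (0 : ℝ)).indicator (per m Ω u)) δ]
    refine lintegral_congr fun t => ?_
    by_cases h1 : t ∈ Ioi δ
    · have h2 : t - δ ∈ Ioi (0 : ℝ) := by
        have : δ < t := h1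
        simp only [mem_Ioi]
        linarith
      rw [indicator_of_mem h1, indicator_of_mem h2]
    · have h2 : t - δ ∉ Ioi (0 : ℝ) := fun h2 => h1 (by
        simp only [mem_Ioi] at h2 ⊢
        linarith)
      rw [indicator_of_notMem h1, indicator_of_notMem h2]
  have hb : ∀ t ∈ Ioi (0 : ℝ), limsup (fun n => ∫⁻ x in {x | t < u x}, lipa (g n) x ∂m) atTop ≤
      (Iic δ).indicator (fun _ => c) t + (Ioi δ).indicator (fun t => per m Ω u (t - δ)) t +
      (Iic T).indicator (fun _ => e) t := by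
    intro t ht
    rcases le_or_gt t δ with h2 | h2
    · rw [indicator_of_mem (show t ∈ Iic δ from h2), add_assoc]
      refine le_trans ?_ le_self_add
      exact limsup_le_of_le (by isBoundedDefault) (Eventually.of_forall fun n => hqc n t ht)
    rcases le_or_gt T t with h3 | h3
    · refine le_trans (limsup_le_of_le (a := 0) (by isBoundedDefault)
        (Eventually.of_forall fun n => ?_)) zero_le
      rw [hq0 n t h3]
    · rw [indicator_of_mem (show t ∈ Ioi δ from h2), indicator_of_mem (show t ∈ Iic T from h3.le),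
        indicator_of_notMem (show t ∉ Iic δ from fun h4 => absurd h2 (not_lt.2 h4)), zero_add]
      exact limsup_layer_le h hV hΩ hc hcfin hg hgc hgi (by linarith) (by linarith)
  calc ∫⁻ t in Ioi (0 : ℝ), limsup (fun n => ∫⁻ x in {x | t < u x}, lipa (g n) x ∂m) atTop
      ≤ ∫⁻ t in Ioi (0 : ℝ), ((Iic δ).indicator (fun _ => c) t +
        (Ioi δ).indicator (fun t => per m Ω u (t - δ)) t +
        (Iic T).indicator (fun _ => e) t) := setLIntegral_mono' measurableSet_Ioi hb
    _ = (∫⁻ t in Ioi (0 : ℝ), (Iic δ).indicator (fun _ => c) t) +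
        (∫⁻ t in Ioi (0 : ℝ), (Ioi δ).indicator (fun t => per m Ω u (t - δ)) t) +
        ∫⁻ t in Ioi (0 : ℝ), (Iic T).indicator (fun _ => e) t := by
        rw [lintegral_add_right _ (measurable_const.indicator measurableSet_Iic),
          lintegral_add_left (measurable_const.indicator measurableSet_Iic)]
    _ ≤ _ := by
        refine add_le_add (add_le_add ?_ ?_) ?_
        · rw [lintegral_indicator measurableSet_Iic, setLIntegral_const,
            Measure.restrict_apply measurableSet_Iic, inter_comm, Ioi_inter_Iic, Real.volume_Ioc,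
            sub_zero]
        · rw [← hshift, lintegral_indicator measurableSet_Ioi]
          exact lintegral_mono' (Measure.restrict_mono_measure Measure.restrict_le_self _) le_rfl
        · rw [lintegral_indicator measurableSet_Iic, setLIntegral_const,
            Measure.restrict_apply measurableSet_Iic, inter_comm, Ioi_inter_Iic, Real.volume_Ioc,
            sub_zero]

/-- the approximants of `u χ_Ω` -/
theorem exists_approx {m : Measure X} [IsFiniteMeasureOnCompacts m] [SFinite m] {V Ω : Set X}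
    {u : X → ℝ} {L K : ℝ≥0} (h : Cut V u L) (hV : IsOpen V) (hΩ : MeasurableSet Ω)
    (hq : QuasiIn m K Ω V) (hfin : tvOpen m (Ω.indicator 1) V < ⊤) {η : ℝ≥0∞} (hη : 0 < η) :
    ∃ w : X → ℝ, (∀ x, lipa w x < ⊤) ∧ ∫⁻ x, ‖w x - Ω.indicator u x‖ₑ ∂m ≤ η ∧
      ∫⁻ x, lipa w x ∂m ≤ (K + 1) * ∫⁻ x in Ω, lipa u x ∂m + η := by
  obtain ⟨T, hT, hT'⟩ := h.exists_lt
  set P := tvOpen m (Ω.indicator 1) V with hP
  -- the choice of the parameters
  obtain ⟨e, he, hePT⟩ : ∃ e : ℝ≥0∞, 0 < e ∧ e ≠ ⊤ ∧ e * ENNReal.ofReal T < η / 4 := by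
    have h1 : Tendsto (fun e : ℝ≥0∞ => e * ENNReal.ofReal T) (𝓝 0) (𝓝 (0 * ENNReal.ofReal T)) :=
      ENNReal.Tendsto.mul_const tendsto_id (Or.inr ENNReal.ofReal_ne_top)
    rw [zero_mul] at h1
    have h2 : 0 < η / 4 := ENNReal.div_pos hη.ne' (by simp)
    have h3 := (h1.eventually_lt_const h2).and (Iio_mem_nhds (ENNReal.zero_lt_top))
    have h7 : ∃ᶠ δ : ℝ≥0∞ in 𝓝 0, 0 < δ := by
      have h8 : (𝓝[>] (0 : ℝ≥0∞)).NeBot := inferInstance
      exact (eventually_mem_nhdsWithin (a := (0 : ℝ≥0∞)) (s := Ioi 0)).frequently.filter_mono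
        nhdsWithin_le_nhds
    obtain ⟨e, h8, h9⟩ := (h7.and_eventually h3).exists
    exact ⟨e, h8, (show e < ⊤ from h9.2).ne, h9.1⟩
  obtain ⟨heT, heT'⟩ := hePT
  set c := P + e with hc
  have hcfin : c ≠ ⊤ := ENNReal.add_ne_top.2 ⟨hfin.ne, heT⟩
  obtain ⟨δ, hδ, hδ'⟩ : ∃ δ : ℝ, 0 < δ ∧ c * ENNReal.ofReal δ < η / 4 := by
    have h1 : Tendsto (fun n : ℕ => c * ENNReal.ofReal (1 / ((n : ℝ) + 1))) atTop
        (𝓝 (c * ENNReal.ofReal 0)) :=
      ENNReal.Tendsto.const_mul ((ENNReal.continuous_ofReal.tendsto 0).comp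
        tendsto_one_div_add_atTop_nhds_zero_nat) (Or.inr hcfin)
    rw [ENNReal.ofReal_zero, mul_zero] at h1
    have h2 : 0 < η / 4 := ENNReal.div_pos hη.ne' (by simp)
    obtain ⟨n, hn⟩ := (h1.eventually_lt_const h2).exists
    exact ⟨1 / ((n : ℝ) + 1), by positivity, hn⟩
  obtain ⟨g, hg, hgc, hg01, hgi⟩ := exists_seq01 (m := m) (Ω := Ω) hV (c := c)
    (ENNReal.lt_add_right hfin.ne he.ne')
  have hlim := limsup_weighted_le h hV hΩ hc hcfin hg hgc hgi hδ hT'
  have hco := coarea_le (m := m) h hΩ hq hfin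
  set J := ∫⁻ x in Ω, lipa u x ∂m with hJ
  rcases eq_or_ne η ⊤ with hηt | hηt
  · refine ⟨fun _ => 0, fun x => ?_, ?_, ?_⟩
    · rw [lipa_const_near (c := 0) (Eventually.of_forall fun _ => rfl)]
      exact ENNReal.zero_lt_top
    · rw [hηt]
      exact le_top
    · rw [hηt]
      simp
  have hJfin : J < ⊤ := by
    have h1 : ∀ x, lipa u x ≤ (tsupport u).indicator (fun _ => (L : ℝ≥0∞)) x := by
      intro x
      by_cases hx : x ∈ tsupport u
      · rw [indicator_of_mem hx]
        exact h.lip x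
      · rw [lipa_const_near (c := 0)]
        · exact zero_le
        · filter_upwards [(isClosed_tsupport u).isOpen_compl.mem_nhds hx] with y hy
          exact image_eq_zero_of_notMem_tsupport hy
    calc J ≤ ∫⁻ x in Ω, (tsupport u).indicator (fun _ => (L : ℝ≥0∞)) x ∂m := lintegral_mono h1
      _ ≤ ∫⁻ x, (tsupport u).indicator (fun _ => (L : ℝ≥0∞)) x ∂m := setLIntegral_le_lintegral _ _
      _ = L * m (tsupport u) := by
        rw [lintegral_indicator (isClosed_tsupport u).measurableSet, setLIntegral_const]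
      _ < ⊤ := ENNReal.mul_lt_top ENNReal.coe_lt_top h.comp.measure_lt_top
  have hη4 : 0 < η / 4 := ENNReal.div_pos hη.ne' (by simp)
  have hη4t : η / 4 ≠ ⊤ := ENNReal.div_ne_top hηt (by simp)
  have hη4e : η / 4 + η / 4 + η / 4 + η / 4 = η := by
    have : η / 4 + η / 4 + η / 4 + η / 4 = η * (4 / 4) := by
      rw [ENNReal.div_eq_inv_mul, ENNReal.div_eq_inv_mul]
      ring
    rw [this, ENNReal.div_self (by simp) (by simp), mul_one]
  have hlt : c * ENNReal.ofReal δ + (∫⁻ t in Ioi (0 : ℝ), per m Ω u t) + e * ENNReal.ofReal T <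
      η / 4 + K * J + η / 4 := by
    have h1 : (K : ℝ≥0∞) * J ≠ ⊤ := ENNReal.mul_ne_top ENNReal.coe_ne_top hJfin.ne
    exact ENNReal.add_lt_add (ENNReal.add_lt_add_of_lt_of_le
      (ne_top_of_le_ne_top h1 hco) hδ' hco) heT'
  have hev1 : ∀ᶠ n in atTop, ∫⁻ x in V, lipa (g n) x * ENNReal.ofReal (u x) ∂m <
      η / 4 + K * J + η / 4 :=
    eventually_lt_of_limsup_lt (hlim.trans_lt hlt) (by isBoundedDefault)
  have hcomp := hgc.compact h.comp h.sub
  have hev2 : ∀ᶠ n in atTop, L * ∫⁻ x in tsupport u, ‖g n x - Ω.indicator (1 : X → ℝ) x‖ₑ ∂m <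
      η / 4 := by
    have h1 := ENNReal.Tendsto.const_mul hcomp (Or.inr (ENNReal.coe_ne_top (r := L)))
    rw [mul_zero] at h1
    exact h1.eventually_lt_const hη4
  have hev3 : ∀ᶠ n in atTop, ENNReal.ofReal T * ∫⁻ x in tsupport u,
      ‖g n x - Ω.indicator (1 : X → ℝ) x‖ₑ ∂m < η := by
    have h1 := ENNReal.Tendsto.const_mul hcomp (Or.inr (ENNReal.ofReal_ne_top (r := T)))
    rw [mul_zero] at h1
    exact h1.eventually_lt_const hη
  obtain ⟨n, ⟨hn1, hn2⟩, hn3⟩ := ((hev1.and hev2).and hev3).exists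
  have hu0 : ∀ x, x ∉ tsupport u → ∀ᶠ y in 𝓝 x, u y = 0 := by
    intro x hx
    filter_upwards [(isClosed_tsupport u).isOpen_compl.mem_nhds hx] with y hy
    exact image_eq_zero_of_notMem_tsupport hy
  have hlu0 : ∀ x, x ∉ tsupport u → lipa u x = 0 := fun x hx => lipa_const_near (hu0 x hx)
  have hlw0 : ∀ x, x ∉ tsupport u → lipa (fun y => g n y * u y) x = 0 := by
    intro x hx
    refine lipa_const_near (c := 0) ?_
    filter_upwards [hu0 x hx] with y hy
    rw [hy, mul_zero]
  have hSm : MeasurableSet (tsupport u) := (isClosed_tsupport u).measurableSet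
  refine ⟨fun y => g n y * u y, fun x => ?_, ?_, ?_⟩
  · by_cases hx : x ∈ tsupport u
    · exact (lipa_mul_le (hg n x (h.sub hx)) (h.fin x)).trans_lt
        (ENNReal.add_lt_top.2 ⟨ENNReal.mul_lt_top enorm_lt_top (h.fin x),
        ENNReal.mul_lt_top enorm_lt_top (hg n x (h.sub hx))⟩)
    · rw [hlw0 x hx]
      exact ENNReal.zero_lt_top
  · refine le_trans ?_ hn3.le
    calc ∫⁻ x, ‖g n x * u x - Ω.indicator u x‖ₑ ∂m
        ≤ ∫⁻ x, (tsupport u).indicator (fun x => ENNReal.ofReal T *
          ‖g n x - Ω.indicator (1 : X → ℝ) x‖ₑ) x ∂m := by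
          refine lintegral_mono fun x => ?_
          by_cases hx : x ∈ tsupport u
          · rw [indicator_of_mem hx]
            have h1 : g n x * u x - Ω.indicator u x = u x * (g n x - Ω.indicator (1 : X → ℝ) x) := by
              by_cases h2 : x ∈ Ω
              · rw [indicator_of_mem h2, indicator_of_mem h2]
                simp only [Pi.one_apply]
                ring
              · rw [indicator_of_notMem h2, indicator_of_notMem h2]
                ring
            rw [h1, enorm_mul]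
            refine mul_le_mul' ?_ le_rfl
            rw [Real.enorm_eq_ofReal (h.nonneg x)]
            exact ENNReal.ofReal_le_ofReal (hT' x).le
          · have h1 := image_eq_zero_of_notMem_tsupport hx
            have h2 : Ω.indicator u x = 0 := by
              by_cases h2 : x ∈ Ω
              · rw [indicator_of_mem h2, h1]
              · rw [indicator_of_notMem h2]
            rw [h1, h2]
            simp
      _ = _ := by
          rw [lintegral_indicator hSm, lintegral_const_mul' _ _ ENNReal.ofReal_ne_top]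
  · have hpt : ∀ x, lipa (fun y => g n y * u y) x ≤
        V.indicator (fun x => lipa (g n) x * ENNReal.ofReal (u x)) x +
        (tsupport u).indicator (fun x => L * ‖g n x - Ω.indicator (1 : X → ℝ) x‖ₑ) x +
        Ω.indicator (lipa u) x := by
      intro x
      by_cases hx : x ∈ tsupport u
      · rw [indicator_of_mem (h.sub hx), indicator_of_mem hx]
        have h5 : Ω.indicator (lipa u) x = ‖Ω.indicator (1 : X → ℝ) x‖ₑ * lipa u x := by
          by_cases h6 : x ∈ Ω
          · rw [indicator_of_mem h6, indicator_of_mem h6]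
            simp
          · rw [indicator_of_notMem h6, indicator_of_notMem h6]
            simp
        rw [h5]
        have e1 : ‖g n x‖ₑ ≤ ‖g n x - Ω.indicator (1 : X → ℝ) x‖ₑ +
            ‖Ω.indicator (1 : X → ℝ) x‖ₑ := by
          refine le_trans (le_of_eq ?_) (enorm_add_le _ _)
          rw [sub_add_cancel]
        calc lipa (fun y => g n y * u y) x ≤ ‖g n x‖ₑ * lipa u x + ‖u x‖ₑ * lipa (g n) x :=
              lipa_mul_le (hg n x (h.sub hx)) (h.fin x)
          _ ≤ (‖g n x - Ω.indicator (1 : X → ℝ) x‖ₑ + ‖Ω.indicator (1 : X → ℝ) x‖ₑ) * lipa u x +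
              ‖u x‖ₑ * lipa (g n) x := by gcongr
          _ = lipa (g n) x * ENNReal.ofReal (u x) +
              lipa u x * ‖g n x - Ω.indicator (1 : X → ℝ) x‖ₑ +
              ‖Ω.indicator (1 : X → ℝ) x‖ₑ * lipa u x := by
              rw [Real.enorm_eq_ofReal (h.nonneg x)]
              ring
          _ ≤ _ := by
              gcongr
              exact h.lip x
      · rw [hlw0 x hx]
        exact zero_le
    have mm1 : Measurable (V.indicator (fun x => lipa (g n) x * ENNReal.ofReal (u x))) :=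
      ((measurable_lipa _).mul h.cont.measurable.ennreal_ofReal).indicator hV.measurableSet
    have mm2 : Measurable (Ω.indicator (lipa u)) := (measurable_lipa u).indicator hΩ
    calc ∫⁻ x, lipa (fun y => g n y * u y) x ∂m
        ≤ ∫⁻ x, (V.indicator (fun x => lipa (g n) x * ENNReal.ofReal (u x)) x +
        (tsupport u).indicator (fun x => L * ‖g n x - Ω.indicator (1 : X → ℝ) x‖ₑ) x +
        Ω.indicator (lipa u) x) ∂m := lintegral_mono hpt
      _ = ∫⁻ x in V, lipa (g n) x * ENNReal.ofReal (u x) ∂m +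
          L * ∫⁻ x in tsupport u, ‖g n x - Ω.indicator (1 : X → ℝ) x‖ₑ ∂m + J := by
          rw [lintegral_add_right _ mm2, lintegral_add_left mm1, lintegral_indicator hV.measurableSet,
            lintegral_indicator hSm, lintegral_indicator hΩ,
            lintegral_const_mul' _ _ ENNReal.coe_ne_top]
      _ ≤ (η / 4 + K * J + η / 4) + η / 4 + J := by gcongr
      _ ≤ (η / 4 + K * J + η / 4) + η / 4 + J + η / 4 := le_self_add
      _ = (K + 1) * J + (η / 4 + η / 4 + η / 4 + η / 4) := by ring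
      _ = _ := by rw [hη4e]

end Pool.Agent.H60.BV
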