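import Pool.Agent.H60.BV.Approx

set_option autoImplicit false
set_option linter.unusedSectionVars false

open MeasureTheory Metric Set Filter Topology
open scoped ENNReal NNReal

namespace Pool.Agent.H60.BV

variable {X : Type*} [MetricSpace X] [MeasurableSpace X] [BorelSpace X]

/-- `f χ_Ω` has locally Lipschitz approximants with energy at most `c` -/
def Appr (m : Measure X) (Ω : Set X) (f : X → ℝ) (c : ℝ≥0∞) : Prop :=
  ∀ η : ℝ≥0∞, 0 < η → ∃ w : X → ℝ, (∀ x, lipa w x < ⊤) ∧
    ∫⁻ x, ‖w x - Ω.indicator f x‖ₑ ∂m ≤ η ∧ ∫⁻ x, lipa w x ∂m ≤ c + η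

theorem Appr.mono {m : Measure X} {Ω : Set X} {f : X → ℝ} {c d : ℝ≥0∞} (h : Appr m Ω f c)
    (hcd : c ≤ d) : Appr m Ω f d := by
  intro η hη
  obtain ⟨w, hw, h1, h2⟩ := h η hη
  exact ⟨w, hw, h1, h2.trans (by gcongr)⟩

theorem continuous_of_lipa {f : X → ℝ} (h : ∀ x, lipa f x < ⊤) : Continuous f :=
  continuous_iff_continuousAt.2 fun x => continuousAt_of_lipa (h x)

theorem lipa_neg_le {f : X → ℝ} {x : X} : lipa (fun y => - f y) x ≤ lipa f x := by
  have h : LipschitzWith 1 (fun t : ℝ => - t) := by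
    refine LipschitzWith.of_dist_le_mul fun s t => ?_
    rw [Real.dist_eq, Real.dist_eq, NNReal.coe_one, one_mul]
    have : - s - (- t) = -(s - t) := by ring
    rw [this, abs_neg]
  simpa using lipa_comp_le (f := f) (x := x) h

theorem lipa_pos_le {f : X → ℝ} {x : X} : lipa (fun y => max (f y) 0) x ≤ lipa f x := by
  have h : LipschitzWith 1 (fun t : ℝ => max t 0) := LipschitzWith.id.max_const 0
  simpa using lipa_comp_le (f := f) (x := x) h

theorem Appr.add {m : Measure X} {Ω : Set X} (hΩ : MeasurableSet Ω) {f g : X → ℝ}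
    (hf : Measurable f) {c d : ℝ≥0∞} (h : Appr m Ω f c) (h' : Appr m Ω g d) :
    Appr m Ω (fun x => f x + g x) (c + d) := by
  intro η hη
  have hη2 : 0 < η / 2 := ENNReal.div_pos hη.ne' (by simp)
  obtain ⟨w, hw, h1, h2⟩ := h (η / 2) hη2
  obtain ⟨v, hv, h3, h4⟩ := h' (η / 2) hη2
  have hwc := continuous_of_lipa hw
  refine ⟨fun x => w x + v x, fun x => (lipa_add_le).trans_lt (ENNReal.add_lt_top.2 ⟨hw x, hv x⟩),
    ?_, ?_⟩
  · calc ∫⁻ x, ‖w x + v x - Ω.indicator (fun x => f x + g x) x‖ₑ ∂m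
        ≤ ∫⁻ x, (‖w x - Ω.indicator f x‖ₑ + ‖v x - Ω.indicator g x‖ₑ) ∂m := by
          refine lintegral_mono fun x => ?_
          have e : w x + v x - Ω.indicator (fun x => f x + g x) x =
              (w x - Ω.indicator f x) + (v x - Ω.indicator g x) := by
            by_cases hx : x ∈ Ω
            · simp only [indicator_of_mem hx]
              ring
            · simp only [indicator_of_notMem hx]
              ring
          rw [e]
          exact enorm_add_le _ _
      _ = ∫⁻ x, ‖w x - Ω.indicator f x‖ₑ ∂m + ∫⁻ x, ‖v x - Ω.indicator g x‖ₑ ∂m :=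
          lintegral_add_left (hwc.measurable.sub (hf.indicator hΩ)).enorm _
      _ ≤ η / 2 + η / 2 := add_le_add h1 h3
      _ = η := ENNReal.add_halves η
  · calc ∫⁻ x, lipa (fun x => w x + v x) x ∂m
        ≤ ∫⁻ x, (lipa w x + lipa v x) ∂m := lintegral_mono fun x => lipa_add_le
      _ = ∫⁻ x, lipa w x ∂m + ∫⁻ x, lipa v x ∂m := lintegral_add_left (measurable_lipa _) _
      _ ≤ (c + η / 2) + (d + η / 2) := add_le_add h2 h4
      _ = c + d + (η / 2 + η / 2) := by ring
      _ = c + d + η := by rw [ENNReal.add_halves]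

theorem Appr.neg {m : Measure X} {Ω : Set X} {f : X → ℝ} {c : ℝ≥0∞} (h : Appr m Ω f c) :
    Appr m Ω (fun x => - f x) c := by
  intro η hη
  obtain ⟨w, hw, h1, h2⟩ := h η hη
  refine ⟨fun x => - w x, fun x => lipa_neg_le.trans_lt (hw x), ?_,
    (lintegral_mono fun x => lipa_neg_le).trans h2⟩
  refine le_trans (le_of_eq (lintegral_congr fun x => ?_)) h1
  have e : - w x - Ω.indicator (fun x => - f x) x = -(w x - Ω.indicator f x) := by
    by_cases hx : x ∈ Ω
    · simp only [indicator_of_mem hx]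
      ring
    · simp only [indicator_of_notMem hx]
      ring
  rw [e, enorm_neg]

theorem Appr.congr {m : Measure X} {Ω : Set X} {f g : X → ℝ} {c : ℝ≥0∞} (h : Appr m Ω f c)
    (hfg : ∀ x, f x = g x) : Appr m Ω g c := by
  have : f = g := funext hfg
  rw [← this]
  exact h

/-- `lip_a f` is bounded when `f` has compact support -/
theorem exists_bound {f : X → ℝ} (hf : ∀ x, lipa f x < ⊤) (hc : IsCompact (tsupport f)) :
    ∃ L : ℝ≥0, ∀ x, lipa f x ≤ L := by
  obtain ⟨n, hn⟩ := hc.elim_directed_cover (fun n : ℕ => {x | lipa f x < n})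
    (fun n => isOpen_lipa_lt f n) (fun x _ => by
      obtain ⟨n, hn⟩ := ENNReal.exists_nat_gt (hf x).ne
      exact mem_iUnion.2 ⟨n, hn⟩) (by
      intro a b
      refine ⟨max a b, ?_, ?_⟩
      · intro x (hx : lipa f x < a)
        exact lt_of_lt_of_le hx (by exact_mod_cast le_max_left a b)
      · intro x (hx : lipa f x < b)
        exact lt_of_lt_of_le hx (by exact_mod_cast le_max_right a b))
  refine ⟨n, fun x => ?_⟩
  by_cases hx : x ∈ tsupport f
  · have : lipa f x < n := hn hx
    exact_mod_cast this.le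
  · rw [lipa_const_near (c := 0)]
    · exact zero_le
    · filter_upwards [(isClosed_tsupport f).isOpen_compl.mem_nhds hx] with y hy
      exact image_eq_zero_of_notMem_tsupport hy

theorem appr_local {m : Measure X} [IsFiniteMeasureOnCompacts m] [SFinite m] {V Ω : Set X}
    {K : ℝ≥0} (hV : IsOpen V) (hΩ : MeasurableSet Ω)
    (hq : QuasiIn m K Ω V) (hfin : tvOpen m (Ω.indicator 1) V < ⊤) {f : X → ℝ}
    (hf : ∀ x, lipa f x < ⊤) (hc : IsCompact (tsupport f)) (hs : tsupport f ⊆ V) :
    Appr m Ω f ((K + 1) * ∫⁻ x in Ω, lipa f x ∂m + (K + 1) * ∫⁻ x in Ω, lipa f x ∂m) := by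
  obtain ⟨L, hL⟩ := exists_bound hf hc
  have key : ∀ g : X → ℝ, (∀ x, lipa g x ≤ lipa f x) → (∀ x, f x = 0 → g x = 0) → (∀ x, 0 ≤ g x) →
      Appr m Ω g ((K + 1) * ∫⁻ x in Ω, lipa f x ∂m) := by
    intro g hg hg0 hgn
    have hsub : tsupport g ⊆ tsupport f := by
      refine closure_mono fun x hx => ?_
      rw [Function.mem_support] at hx ⊢
      exact fun h => hx (hg0 x h)
    have hcut : Cut V g L :=
      ⟨fun x => (hg x).trans (hL x), hc.of_isClosed_subset (isClosed_tsupport g) hsub,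
        hsub.trans hs, hgn⟩
    have h1 : Appr m Ω g ((K + 1) * ∫⁻ x in Ω, lipa g x ∂m) := fun η hη =>
      exists_approx hcut hV hΩ hq hfin hη
    refine h1.mono ?_
    gcongr
    exact hg _
  have h1 := key (fun x => max (f x) 0) (fun x => lipa_pos_le) (fun x hx => by simp [hx])
    (fun x => le_max_right _ _)
  have h2 := key (fun x => max (- f x) 0) (fun x => lipa_pos_le.trans lipa_neg_le)
    (fun x hx => by simp [hx]) (fun x => le_max_right _ _)
  have hfm : Measurable (fun x => max (f x) 0) :=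
    ((continuous_of_lipa hf).max continuous_const).measurable
  refine (h1.add hΩ hfm h2.neg).congr fun x => ?_
  rcases le_total 0 (f x) with h3 | h3
  · rw [max_eq_left h3, max_eq_right (by linarith)]
    ring
  · rw [max_eq_right h3, max_eq_left (by linarith)]
    ring

end Pool.Agent.H60.BV
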