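import Pool.Agent.H60.BV.Assemble

set_option autoImplicit false
set_option linter.unusedSectionVars false

open MeasureTheory Metric Set Filter Topology
open scoped ENNReal NNReal

namespace Pool.Agent.H60.BV

variable {X : Type*} [MetricSpace X] [MeasurableSpace X] [BorelSpace X]

/-- a Lipschitz bump -/
noncomputable def bump (a : X) (r : ℝ) (x : X) : ℝ := clamp (2 - 2 / r * dist x a)

theorem bump_nonneg (a : X) (r : ℝ) (x : X) : 0 ≤ bump a r x := clamp_nonneg _

theorem bump_le_one (a : X) (r : ℝ) (x : X) : bump a r x ≤ 1 := clamp_le_one _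

theorem lipa_of_lipschitz {f : X → ℝ} {c : ℝ≥0} (hf : LipschitzWith c f) (x : X) :
    lipa f x ≤ c := lipa_le_of one_pos fun y _ z _ => hf y z

theorem bump_lipschitz (a : X) {r : ℝ} (hr : 0 < r) :
    LipschitzWith (Real.toNNReal (2 / r)) (bump a r) := by
  have h1 : LipschitzWith (Real.toNNReal (2 / r)) (fun x : X => 2 - 2 / r * dist x a) := by
    refine LipschitzWith.of_dist_le_mul fun x y => ?_
    rw [Real.coe_toNNReal _ (by positivity), Real.dist_eq]
    have h3 : 2 - 2 / r * dist x a - (2 - 2 / r * dist y a) = (2 / r) * (dist y a - dist x a) := by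
      ring
    rw [h3, abs_mul, abs_of_pos (by positivity)]
    have h4 : |dist y a - dist x a| ≤ dist x y := by
      rw [abs_le]
      constructor
      · linarith [dist_triangle x y a]
      · linarith [dist_triangle y x a, dist_comm x y]
    gcongr
  have h4 := clamp_lipschitz.comp h1
  rw [one_mul] at h4
  exact h4

theorem bump_eq_one {a : X} {r : ℝ} (hr : 0 < r) {x : X} (hx : dist x a ≤ r / 2) :
    bump a r x = 1 := by
  unfold bump clamp
  have : 1 ≤ 2 - 2 / r * dist x a := by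
    have h1 : 2 / r * dist x a ≤ 2 / r * (r / 2) := by gcongr
    have h2 : 2 / r * (r / 2) = 1 := by field_simp
    linarith
  rw [min_eq_left this, max_eq_right zero_le_one]

theorem bump_eq_zero {a : X} {r : ℝ} (hr : 0 < r) {x : X} (hx : r ≤ dist x a) :
    bump a r x = 0 := by
  unfold bump clamp
  have : 2 - 2 / r * dist x a ≤ 0 := by
    have h1 : 2 / r * r ≤ 2 / r * dist x a := by gcongr
    have h2 : 2 / r * r = 2 := by field_simp
    linarith
  rw [max_eq_left ((min_le_right _ _).trans this)]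

theorem bump_support {a : X} {r : ℝ} (hr : 0 < r) : tsupport (bump a r) ⊆ closedBall a r := by
  refine closure_minimal (fun x hx => ?_) isClosed_closedBall
  rw [Function.mem_support] at hx
  by_contra h
  refine hx (bump_eq_zero hr ?_)
  rw [mem_closedBall, not_le] at h
  exact h.le

/-- the norm which controls the approximants -/
noncomputable def nrm (m : Measure X) (Ω : Set X) (f : X → ℝ) : ℝ≥0∞ :=
  ∫⁻ x in Ω, lipa f x ∂m + ∫⁻ x in Ω, ‖f x‖ₑ ∂m

theorem lipa_mul_bound {ψ f : X → ℝ} {R : ℝ≥0} {x : X} (h0 : 0 ≤ ψ x) (h1 : ψ x ≤ 1)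
    (hψ : lipa ψ x ≤ R) (hf : lipa f x < ⊤) :
    lipa (fun y => ψ y * f y) x ≤ lipa f x + R * ‖f x‖ₑ := by
  refine (lipa_mul_le (hψ.trans_lt ENNReal.coe_lt_top) hf).trans ?_
  calc ‖ψ x‖ₑ * lipa f x + ‖f x‖ₑ * lipa ψ x ≤ 1 * lipa f x + ‖f x‖ₑ * R := by
        gcongr
        exact enorm_le_one h0 h1
    _ = _ := by ring

theorem integral_mul_bound {m : Measure X} {Ω : Set X} {ψ f : X → ℝ} {R : ℝ≥0}
    (h0 : ∀ x, 0 ≤ ψ x) (h1 : ∀ x, ψ x ≤ 1)
    (hψ : ∀ x, lipa ψ x ≤ R) (hf : ∀ x, lipa f x < ⊤) :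
    ∫⁻ x in Ω, lipa (fun y => ψ y * f y) x ∂m ≤ (1 + R) * nrm m Ω f := by
  calc ∫⁻ x in Ω, lipa (fun y => ψ y * f y) x ∂m
      ≤ ∫⁻ x in Ω, (lipa f x + R * ‖f x‖ₑ) ∂m :=
        lintegral_mono fun x => lipa_mul_bound (h0 x) (h1 x) (hψ x) (hf x)
    _ = ∫⁻ x in Ω, lipa f x ∂m + R * ∫⁻ x in Ω, ‖f x‖ₑ ∂m := by
        rw [lintegral_add_left (measurable_lipa f), lintegral_const_mul' _ _ ENNReal.coe_ne_top]
    _ ≤ (1 + R) * ∫⁻ x in Ω, lipa f x ∂m + (1 + R) * ∫⁻ x in Ω, ‖f x‖ₑ ∂m := by
        gcongr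
        · exact le_mul_of_one_le_left zero_le le_self_add
        · exact le_add_self
    _ = _ := by
        unfold nrm
        ring

theorem nrm_mul_bound {m : Measure X} {Ω : Set X} {ψ f : X → ℝ} {R : ℝ≥0}
    (h0 : ∀ x, 0 ≤ ψ x) (h1 : ∀ x, ψ x ≤ 1)
    (hψ : ∀ x, lipa ψ x ≤ R) (hf : ∀ x, lipa f x < ⊤) :
    nrm m Ω (fun y => ψ y * f y) ≤ (2 + R) * nrm m Ω f := by
  have h2 : ∫⁻ x in Ω, ‖ψ x * f x‖ₑ ∂m ≤ nrm m Ω f := by
    refine le_trans (lintegral_mono fun x => ?_) le_add_self
    rw [enorm_mul]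
    exact mul_le_of_le_one_left zero_le (enorm_le_one (h0 x) (h1 x))
  calc nrm m Ω (fun y => ψ y * f y) ≤ (1 + R) * nrm m Ω f + nrm m Ω f :=
        add_le_add (integral_mul_bound h0 h1 hψ hf) h2
    _ = _ := by ring

theorem appr_finset {m : Measure X} [IsFiniteMeasureOnCompacts m] [SFinite m] {Ω : Set X}
    {K : ℝ≥0} (hΩ : MeasurableSet Ω) (r : X → ℝ) (S : Finset X) (hr : ∀ x ∈ S, 0 < r x)
    (good : ∀ x ∈ S, ∃ V, IsOpen V ∧ closedBall x (r x) ⊆ V ∧ QuasiIn m K Ω V ∧
      tvOpen m (Ω.indicator 1) V < ⊤) :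
    ∃ C : ℝ≥0, ∀ f : X → ℝ, (∀ x, lipa f x < ⊤) → IsCompact (tsupport f) →
      tsupport f ⊆ ⋃ x ∈ S, ball x (r x / 2) → Appr m Ω f (C * nrm m Ω f) := by
  classical
  induction S using Finset.induction_on with
  | empty =>
    refine ⟨0, fun f hf hc hs η hη => ?_⟩
    have h1 : tsupport f = ∅ := by
      rw [eq_empty_iff_forall_notMem]
      intro x hx
      simpa using hs hx
    have h2 : f = 0 := tsupport_eq_empty_iff.1 h1
    have h0 : ∀ x : X, lipa (0 : X → ℝ) x = 0 := fun x =>
        lipa_const_near (c := 0) (Eventually.of_forall fun _ => rfl)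
    refine ⟨0, fun x => ?_, ?_, ?_⟩
    · rw [h0]
      exact ENNReal.zero_lt_top
    · rw [h2]
      simp
    · simp [h0]
  | insert a S ha ih =>
    obtain ⟨C, hC⟩ := ih (fun x hx => hr x (Finset.mem_insert_of_mem hx))
      (fun x hx => good x (Finset.mem_insert_of_mem hx))
    obtain ⟨V, hV, hsub, hq, hfin⟩ := good a (Finset.mem_insert_self _ _)
    have hra := hr a (Finset.mem_insert_self _ _)
    set R := Real.toNNReal (2 / r a) with hR
    refine ⟨(K + 1) * (1 + R) + (K + 1) * (1 + R) + C * (2 + R), fun f hf hc hs => ?_⟩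
    set ψ := bump a (r a) with hψ
    have hψl : ∀ x, lipa ψ x ≤ R := lipa_of_lipschitz (bump_lipschitz a hra)
    have hψ0 : ∀ x, 0 ≤ ψ x := bump_nonneg a (r a)
    have hψ1 : ∀ x, ψ x ≤ 1 := bump_le_one a (r a)
    have hψl' : ∀ x, lipa (fun y => 1 - ψ y) x ≤ R := fun x => lipa_one_sub_le.trans (hψl x)
    have hψ0' : ∀ x, 0 ≤ 1 - ψ x := fun x => by linarith [hψ1 x]
    have hψ1' : ∀ x, 1 - ψ x ≤ 1 := fun x => by linarith [hψ0 x]
    have hf1 : ∀ x, lipa (fun y => ψ y * f y) x < ⊤ := fun x =>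
      (lipa_mul_bound (hψ0 x) (hψ1 x) (hψl x) (hf x)).trans_lt (ENNReal.add_lt_top.2 ⟨hf x,
        ENNReal.mul_lt_top ENNReal.coe_lt_top enorm_lt_top⟩)
    have hf2 : ∀ x, lipa (fun y => (1 - ψ y) * f y) x < ⊤ := fun x =>
      (lipa_mul_bound (ψ := fun y => 1 - ψ y) (hψ0' x) (hψ1' x) (hψl' x) (hf x)).trans_lt
        (ENNReal.add_lt_top.2 ⟨hf x, ENNReal.mul_lt_top ENNReal.coe_lt_top enorm_lt_top⟩)
    have hs1 : tsupport (fun y => ψ y * f y) ⊆ tsupport f :=
      closure_mono fun x hx => by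
        rw [Function.mem_support] at hx ⊢
        exact fun h => hx (by rw [h, mul_zero])
    have hs1' : tsupport (fun y => ψ y * f y) ⊆ V := by
      refine Subset.trans (closure_mono fun x hx => ?_) ((bump_support (a := a) hra).trans hsub)
      rw [Function.mem_support] at hx ⊢
      exact fun h => hx (by
        have h' : ψ x = 0 := h
        rw [h', zero_mul])
    have hs2 : tsupport (fun y => (1 - ψ y) * f y) ⊆ tsupport f :=
      closure_mono fun x hx => by
        rw [Function.mem_support] at hx ⊢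
        exact fun h => hx (by rw [h, mul_zero])
    have hs2' : tsupport (fun y => (1 - ψ y) * f y) ⊆ (ball a (r a / 2))ᶜ := by
      refine closure_minimal (fun x hx => ?_) isOpen_ball.isClosed_compl
      rw [Function.mem_support] at hx
      intro h
      refine hx ?_
      have h' : ψ x = 1 := bump_eq_one hra (le_of_lt h)
      rw [h']
      ring
    have hs2'' : tsupport (fun y => (1 - ψ y) * f y) ⊆ ⋃ x ∈ S, ball x (r x / 2) := by
      intro x hx
      have h1 := hs (hs2 hx)
      simp only [Finset.mem_insert, iUnion_iUnion_eq_or_left, mem_union] at h1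
      rcases h1 with h1 | h1
      · exact absurd h1 (hs2' hx)
      · exact h1
    have a1 := appr_local hV hΩ hq hfin hf1 (hc.of_isClosed_subset (isClosed_tsupport _) hs1) hs1'
    have a2 := hC (fun y => (1 - ψ y) * f y) hf2
      (hc.of_isClosed_subset (isClosed_tsupport _) hs2) hs2''
    have hm1 : Measurable (fun y => ψ y * f y) := (continuous_of_lipa hf1).measurable
    refine ((a1.add hΩ hm1 a2).congr fun x => by ring).mono ?_
    have b1 := integral_mul_bound (m := m) (Ω := Ω) hψ0 hψ1 hψl hf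
    have b2 := nrm_mul_bound (m := m) (Ω := Ω) (ψ := fun y => 1 - ψ y) hψ0' hψ1' hψl' hf
    calc (K + 1) * ∫⁻ x in Ω, lipa (fun y => ψ y * f y) x ∂m +
          (K + 1) * ∫⁻ x in Ω, lipa (fun y => ψ y * f y) x ∂m +
          C * nrm m Ω (fun y => (1 - ψ y) * f y)
        ≤ (K + 1) * ((1 + R) * nrm m Ω f) + (K + 1) * ((1 + R) * nrm m Ω f) +
          C * ((2 + R) * nrm m Ω f) := by gcongr
      _ = _ := by
        push_cast
        ring

/-- the extension by zero, when the boundary has measure zero -/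
theorem extension_of_null {m : Measure X} [IsFiniteMeasureOnCompacts m] [SFinite m]
    [ProperSpace X] {Ω : Set X} {K : ℝ≥0} (hΩo : IsOpen Ω) (hcomp : IsCompact (closure Ω))
    (hq : LocallyQuasiminimal m K Ω) (hf : LocallyFinitePerimeter m Ω) (hnull : m (closure Ω \ Ω) = 0) :
    IsBVExtensionSet m (closure Ω) := by
  classical
  have hΩ : MeasurableSet Ω := hΩo.measurableSet
  set E := closure Ω with hE
  have hEm : MeasurableSet E := isClosed_closure.measurableSet
  have hΩE : Ω ⊆ E := subset_closure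
  -- the balls
  have hball : ∀ x : X, ∃ r : ℝ, 0 < r ∧ ∃ V, IsOpen V ∧ closedBall x r ⊆ V ∧ QuasiIn m K Ω V ∧
      tvOpen m (Ω.indicator 1) V < ⊤ := by
    intro x
    obtain ⟨V, hV, hxV, hfin, hqV⟩ := exists_good hq hf x
    obtain ⟨r, hr, hrV⟩ := Metric.isOpen_iff.1 hV x hxV
    exact ⟨r / 2, by positivity, V, hV, (closedBall_subset_ball (by linarith)).trans hrV, hqV, hfin⟩
  choose r hr good using hball
  obtain ⟨S, -, hS⟩ := hcomp.elim_nhds_subcover (fun x => ball x (r x / 2))
    (fun x _ => ball_mem_nhds x (by have := hr x; positivity))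
  obtain ⟨C, hC⟩ := appr_finset (m := m) hΩ r S (fun x _ => hr x) (fun x _ => good x)
  refine ⟨hEm, 1 + C, fun f hf => ⟨Ω.indicator f, ?_⟩⟩
  have hfm : AEMeasurable f (m.restrict E) := hf.1.aemeasurable
  have hfΩ : ∫⁻ x in Ω, ‖f x‖ₑ ∂m ≤ ∫⁻ x in E, ‖f x‖ₑ ∂m := lintegral_mono_set hΩE
  have hfEfin : ∫⁻ x in E, ‖f x‖ₑ ∂m < ⊤ := hf.1.2
  have key : ∀ c : ℝ≥0∞, tv (m.restrict E) f E < c →
      tvOpen m (Ω.indicator f) univ ≤ C * (c + ∫⁻ x in E, ‖f x‖ₑ ∂m) := by
    intro c hc
    unfold tv at hc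
    simp only [iInf_lt_iff] at hc
    obtain ⟨A, hA, hEA, hlt⟩ := hc
    obtain ⟨g, hg, hgc, hgi⟩ := exists_seq hlt
    have hgl : ∀ n, ∀ x ∈ A, lipa (g n) x < ⊤ := fun n => (locallyLipschitzOn_iff hA).1 (hg n)
    -- the cutoff
    set O := A ∩ ⋃ x ∈ S, ball x (r x / 2) with hO
    have hOo : IsOpen O := hA.inter (isOpen_biUnion fun x _ => isOpen_ball)
    obtain ⟨δ, hδ, hδO⟩ := hcomp.exists_cthickening_subset_open hOo (subset_inter hEA hS)
    set θ : X → ℝ := fun x => clamp (2 - 2 / δ * infDist x E) with hθ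
    have hθl : ∀ x, lipa θ x ≤ Real.toNNReal (2 / δ) := by
      refine lipa_of_lipschitz ?_
      have h1 : LipschitzWith (Real.toNNReal (2 / δ)) (fun x : X => 2 - 2 / δ * infDist x E) := by
        refine LipschitzWith.of_dist_le_mul fun x y => ?_
        rw [Real.coe_toNNReal _ (by positivity), Real.dist_eq]
        have h3 : 2 - 2 / δ * infDist x E - (2 - 2 / δ * infDist y E) =
            (2 / δ) * (infDist y E - infDist x E) := by ring
        rw [h3, abs_mul, abs_of_pos (by positivity)]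
        have h4 := (lipschitz_infDist_pt E).dist_le_mul y x
        rw [NNReal.coe_one, one_mul, Real.dist_eq, dist_comm] at h4
        gcongr
      have h4 := clamp_lipschitz.comp h1
      rw [one_mul] at h4
      exact h4
    rcases E.eq_empty_or_nonempty with hEe | hEne
    · have h1 : Ω.indicator f = 0 := by
        have h2 : Ω = ∅ := subset_empty_iff.1 (hEe ▸ hΩE)
        rw [h2]
        funext x
        simp
      rw [h1]
      refine (tvOpen_le_liminf (u := fun _ => 0) (fun n => ?_) (fun x hx => ⟨univ, univ_mem, ?_⟩)).trans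
        ?_
      · exact (LocallyLipschitz.const (0 : ℝ)).locallyLipschitzOn
      · simp
      · have h0 : ∀ x : X, lipa (0 : X → ℝ) x = 0 := fun x =>
          lipa_const_near (c := 0) (Eventually.of_forall fun _ => rfl)
        simp [h0]
    have hθ0 : ∀ x, 0 ≤ θ x := fun x => clamp_nonneg _
    have hθ1 : ∀ x, θ x ≤ 1 := fun x => clamp_le_one _
    have hθE : ∀ x ∈ E, ∀ᶠ y in 𝓝 x, θ y = 1 := by
      intro x hx
      filter_upwards [ball_mem_nhds x (show 0 < δ / 2 by positivity)] with y hy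
      have h1 : infDist y E ≤ δ / 2 := (infDist_le_dist_of_mem hx).trans (le_of_lt hy)
      have h2 : 1 ≤ 2 - 2 / δ * infDist y E := by
        have h3 : 2 / δ * infDist y E ≤ 2 / δ * (δ / 2) := by gcongr
        have h4 : 2 / δ * (δ / 2) = 1 := by field_simp
        linarith
      simp only [hθ, clamp]
      rw [min_eq_left h2, max_eq_right zero_le_one]
    have hθs : tsupport θ ⊆ cthickening δ E := by
      refine closure_minimal (fun x hx => ?_) isClosed_cthickening
      rw [Function.mem_support] at hx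
      by_contra h
      refine hx ?_
      have h1 : δ ≤ infDist x E := by
        by_contra h2
        rw [not_le] at h2
        exact h (thickening_subset_cthickening δ E ((mem_thickening_iff_infDist_lt hEne).2 h2))
      have h2 : 2 - 2 / δ * infDist x E ≤ 0 := by
        have h3 : 2 / δ * δ ≤ 2 / δ * infDist x E := by gcongr
        have h4 : 2 / δ * δ = 2 := by field_simp
        linarith
      simp only [hθ, clamp]
      rw [max_eq_left ((min_le_right _ _).trans h2)]
    have hcth : IsCompact (cthickening δ E) := hcomp.cthickening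
    have hθc : IsCompact (tsupport θ) := hcth.of_isClosed_subset (isClosed_tsupport _) hθs
    set h : ℕ → X → ℝ := fun n x => θ x * g n x with hh
    have hhs : ∀ n, tsupport (h n) ⊆ tsupport θ := fun n =>
      closure_mono fun x hx => by
        rw [Function.mem_support] at hx ⊢
        exact fun h => hx (by
          simp only [hh]
          rw [h, zero_mul])
    have hhl : ∀ n x, lipa (h n) x < ⊤ := by
      intro n x
      by_cases hx : x ∈ tsupport θ
      · have hxA : x ∈ A := (hδO (hθs hx)).1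
        exact (lipa_mul_bound (hθ0 x) (hθ1 x) (hθl x) (hgl n x hxA)).trans_lt
          (ENNReal.add_lt_top.2 ⟨hgl n x hxA, ENNReal.mul_lt_top ENNReal.coe_lt_top enorm_lt_top⟩)
      · rw [lipa_const_near (c := 0)]
        · exact ENNReal.zero_lt_top
        · filter_upwards [(isClosed_tsupport θ).isOpen_compl.mem_nhds hx] with y hy
          simp only [hh]
          rw [image_eq_zero_of_notMem_tsupport hy, zero_mul]
    have happ : ∀ n, Appr m Ω (h n) (C * nrm m Ω (h n)) := fun n =>
      hC (h n) (hhl n) (hθc.of_isClosed_subset (isClosed_tsupport _) (hhs n))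
        ((hhs n).trans (hθs.trans (hδO.trans inter_subset_right)))
    have hconv := hgc.compact hcomp hEA
    rw [Measure.restrict_restrict_of_subset Subset.rfl] at hconv
    have hhg : ∀ n, ∀ x ∈ Ω, h n x = g n x := fun n x hx => by
      simp only [hh]
      rw [(hθE x (hΩE hx)).self_of_nhds, one_mul]
    have hgm : ∀ n, AEMeasurable (g n) (m.restrict E) := fun n =>
      ContinuousOn.aemeasurable (fun x hx => (continuousAt_of_lipa
        (hgl n x (hEA hx))).continuousWithinAt) hEm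
    have hgmΩ : ∀ n, AEMeasurable (g n) (m.restrict Ω) := fun n =>
      (hgm n).mono_measure (Measure.restrict_mono_set m hΩE)
    have hfmΩ : AEMeasurable f (m.restrict Ω) :=
      hfm.mono_measure (Measure.restrict_mono_set m hΩE)
    set d : ℕ → ℝ≥0∞ := fun n => ∫⁻ x in E, ‖g n x - f x‖ₑ ∂m with hd
    have hnrm : ∀ n, nrm m Ω (h n) ≤ c + (d n + ∫⁻ x in E, ‖f x‖ₑ ∂m) := by
      intro n
      refine add_le_add ?_ ?_
      · calc ∫⁻ x in Ω, lipa (h n) x ∂m = ∫⁻ x in Ω, lipa (g n) x ∂m := by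
              refine setLIntegral_congr_fun hΩ fun x hx => ?_
              refine lipa_congr ?_
              filter_upwards [hθE x (hΩE hx)] with y hy
              simp only [hh]
              rw [hy, one_mul]
          _ = ∫⁻ x in Ω, lipa (g n) x ∂(m.restrict E) := by
              rw [Measure.restrict_restrict_of_subset hΩE]
          _ ≤ ∫⁻ x in A, lipa (g n) x ∂(m.restrict E) := lintegral_mono_set (hΩE.trans hEA)
          _ ≤ c := hgi n
      · calc ∫⁻ x in Ω, ‖h n x‖ₑ ∂m = ∫⁻ x in Ω, ‖g n x‖ₑ ∂m := by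
              refine setLIntegral_congr_fun hΩ fun x hx => ?_
              simp only [hhg n x hx]
          _ ≤ ∫⁻ x in Ω, (‖g n x - f x‖ₑ + ‖f x‖ₑ) ∂m := by
              refine lintegral_mono fun x => ?_
              refine le_trans (le_of_eq ?_) (enorm_add_le _ _)
              rw [sub_add_cancel]
          _ = ∫⁻ x in Ω, ‖g n x - f x‖ₑ ∂m + ∫⁻ x in Ω, ‖f x‖ₑ ∂m :=
              lintegral_add_left' ((hgmΩ n).sub hfmΩ).enorm _
          _ ≤ _ := add_le_add (lintegral_mono_set hΩE) hfΩ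
    have hη : ∀ n : ℕ, (0 : ℝ≥0∞) < ((n : ℝ≥0∞) + 1)⁻¹ := fun n => by
      rw [ENNReal.inv_pos]
      exact ENNReal.add_ne_top.2 ⟨ENNReal.natCast_ne_top n, ENNReal.one_ne_top⟩
    have hη0 : Tendsto (fun k : ℕ => ((k : ℝ≥0∞) + 1)⁻¹) atTop (𝓝 0) := by
      have h4 : Tendsto (fun k : ℕ => (((k + 1 : ℕ) : ℝ≥0∞))⁻¹) atTop (𝓝 0) :=
        ENNReal.tendsto_inv_nat_nhds_zero.comp (tendsto_add_atTop_nat 1)
      simpa using h4
    choose w hw hw1 hw2 using fun n : ℕ => happ n _ (hη n)
    have hwconv : ConvLoc m univ w (Ω.indicator f) := by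
      intro x _
      refine ⟨univ, univ_mem, ?_⟩
      have h1 := hη0.add hconv
      rw [add_zero] at h1
      refine tendsto_of_tendsto_of_tendsto_of_le_of_le tendsto_const_nhds h1
        (fun n => zero_le) fun n => ?_
      simp only [inter_self, Measure.restrict_univ]
      have hwm : Measurable (fun x => ‖w n x - Ω.indicator (h n) x‖ₑ) :=
        ((continuous_of_lipa (hw n)).measurable.sub
          ((continuous_of_lipa (hhl n)).measurable.indicator hΩ)).enorm
      calc ∫⁻ x, ‖w n x - Ω.indicator f x‖ₑ ∂m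
          ≤ ∫⁻ x, (‖w n x - Ω.indicator (h n) x‖ₑ + E.indicator (fun x => ‖g n x - f x‖ₑ) x) ∂m := by
            refine lintegral_mono fun x => ?_
            by_cases hx : x ∈ Ω
            · rw [indicator_of_mem (hΩE hx), indicator_of_mem hx, indicator_of_mem hx, hhg n x hx]
              refine le_trans (le_of_eq ?_) (enorm_add_le _ _)
              congr 1
              ring
            · rw [indicator_of_notMem hx, indicator_of_notMem hx]
              exact le_self_add
        _ = ∫⁻ x, ‖w n x - Ω.indicator (h n) x‖ₑ ∂m + ∫⁻ x in E, ‖g n x - f x‖ₑ ∂m := by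
            rw [lintegral_add_left hwm, lintegral_indicator hEm]
        _ ≤ _ := add_le_add (hw1 n) le_rfl
    refine (tvOpen_le_liminf (fun n => (locallyLipschitzOn_iff isOpen_univ).2 fun x _ => hw n x)
      hwconv).trans ?_
    have h2 : Tendsto (fun n : ℕ => (C : ℝ≥0∞) * (c + (d n + ∫⁻ x in E, ‖f x‖ₑ ∂m)) +
        ((n : ℝ≥0∞) + 1)⁻¹) atTop (𝓝 (C * (c + (0 + ∫⁻ x in E, ‖f x‖ₑ ∂m)) + 0)) := by
      refine Tendsto.add ?_ hη0
      refine ENNReal.Tendsto.const_mul ?_ (Or.inr ENNReal.coe_ne_top)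
      exact tendsto_const_nhds.add (hconv.add tendsto_const_nhds)
    rw [add_zero, zero_add] at h2
    refine (liminf_le_liminf (Eventually.of_forall fun n => ?_)).trans h2.liminf_eq.le
    rw [Measure.restrict_univ]
    refine (hw2 n).trans ?_
    gcongr
    exact hnrm n
  have hle : tvOpen m (Ω.indicator f) univ ≤ C * (tv (m.restrict E) f E + ∫⁻ x in E, ‖f x‖ₑ ∂m) := by
    have h1 : Tendsto (fun k : ℕ => ((k : ℝ≥0∞) + 1)⁻¹) atTop (𝓝 0) := by
      have h4 : Tendsto (fun k : ℕ => (((k + 1 : ℕ) : ℝ≥0∞))⁻¹) atTop (𝓝 0) :=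
        ENNReal.tendsto_inv_nat_nhds_zero.comp (tendsto_add_atTop_nat 1)
      simpa using h4
    have h2 : Tendsto (fun k : ℕ => (C : ℝ≥0∞) * (tv (m.restrict E) f E + ((k : ℝ≥0∞) + 1)⁻¹ +
        ∫⁻ x in E, ‖f x‖ₑ ∂m)) atTop
        (𝓝 (C * (tv (m.restrict E) f E + 0 + ∫⁻ x in E, ‖f x‖ₑ ∂m))) := by
      refine ENNReal.Tendsto.const_mul ?_ (Or.inr ENNReal.coe_ne_top)
      exact (tendsto_const_nhds.add h1).add tendsto_const_nhds
    rw [add_zero] at h2
    refine ge_of_tendsto' h2 fun k => key _ (ENNReal.lt_add_right hf.2.ne ?_)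
    simp
  have hFn : ∫⁻ x, ‖Ω.indicator f x‖ₑ ∂m ≤ ∫⁻ x in E, ‖f x‖ₑ ∂m := by
    refine le_trans (le_of_eq ?_) hfΩ
    rw [← lintegral_indicator hΩ]
    refine lintegral_congr fun x => ?_
    by_cases hx : x ∈ Ω
    · rw [indicator_of_mem hx, indicator_of_mem hx]
    · rw [indicator_of_notMem hx, indicator_of_notMem hx, enorm_zero]
  have htop : tvOpen m (Ω.indicator f) univ < ⊤ :=
    hle.trans_lt (ENNReal.mul_lt_top ENNReal.coe_lt_top (ENNReal.add_lt_top.2 ⟨hf.2, hfEfin⟩))
  refine ⟨⟨?_, ?_⟩, ?_, ?_⟩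
  · rw [Measure.restrict_univ]
    exact IntegrableOn.integrable_indicator
      (hf.1.mono_measure (Measure.restrict_mono_set m hΩE)) hΩ
  · rw [Measure.restrict_univ, tv_eq isOpen_univ]
    exact htop
  · have h1 : m.restrict E (Ωᶜ) = 0 := by
      rw [Measure.restrict_apply hΩ.compl, inter_comm, ← sdiff_eq]
      exact hnull
    have h2 : ∀ᵐ x ∂(m.restrict E), x ∈ Ω := by
      rw [ae_iff]
      exact h1
    filter_upwards [h2] with x hx
    rw [indicator_of_mem hx]
  · unfold normBV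
    rw [Measure.restrict_univ, tv_eq isOpen_univ]
    calc ∫⁻ x, ‖Ω.indicator f x‖ₑ ∂m + tvOpen m (Ω.indicator f) univ
        ≤ (∫⁻ x in E, ‖f x‖ₑ ∂m + tv (m.restrict E) f E) +
          C * (tv (m.restrict E) f E + ∫⁻ x in E, ‖f x‖ₑ ∂m) :=
          add_le_add (hFn.trans le_self_add) hle
      _ = _ := by
        push_cast
        ring

end Pool.Agent.H60.BV
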