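import Pool.Agent.H60.BV.Defs

set_option autoImplicit false
set_option linter.unusedSectionVars false

open MeasureTheory Metric Set Filter Topology
open scoped ENNReal NNReal

namespace Pool.Agent.H60.BV

variable {X : Type*} [MetricSpace X] [MeasurableSpace X]

section lip

theorem lipOn_mono {f : X → ℝ} {S T : Set X} (h : S ⊆ T) : lipOn f S ≤ lipOn f T :=
  iSup₂_mono' fun y hy => ⟨y, h hy, iSup₂_mono' fun z hz => ⟨z, h hz, le_rfl⟩⟩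

theorem edist_le_lipOn {f : X → ℝ} {S : Set X} {y z : X} (hy : y ∈ S) (hz : z ∈ S) :
    edist (f y) (f z) ≤ lipOn f S * edist y z := by
  rcases eq_or_ne y z with rfl | h
  · simp
  · rw [← ENNReal.div_le_iff (by simpa [edist_eq_zero] using h) (edist_ne_top _ _)]
    exact le_iSup₂_of_le y hy (le_iSup₂_of_le z hz le_rfl)

theorem lipOn_le {f : X → ℝ} {S : Set X} {c : ℝ≥0∞}
    (h : ∀ y ∈ S, ∀ z ∈ S, edist (f y) (f z) ≤ c * edist y z) : lipOn f S ≤ c :=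
  iSup₂_le fun y hy => iSup₂_le fun z hz => ENNReal.div_le_of_le_mul (h y hy z hz)

theorem lipa_le_of {f : X → ℝ} {x : X} {c : ℝ≥0∞} {r : ℝ} (hr : 0 < r)
    (h : ∀ y ∈ ball x r, ∀ z ∈ ball x r, edist (f y) (f z) ≤ c * edist y z) : lipa f x ≤ c :=
  (iInf₂_le r hr).trans (lipOn_le h)

theorem exists_of_lipa_lt {f : X → ℝ} {x : X} {c : ℝ≥0∞} (h : lipa f x < c) :
    ∃ r : ℝ, 0 < r ∧ lipOn f (ball x r) < c := by
  unfold lipa at h
  simp only [iInf_lt_iff] at h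
  obtain ⟨r, hr, h⟩ := h
  exact ⟨r, hr, h⟩

theorem isOpen_lipa_lt (f : X → ℝ) (c : ℝ≥0∞) : IsOpen {x | lipa f x < c} := by
  rw [Metric.isOpen_iff]
  intro x hx
  obtain ⟨r, hr, h⟩ := exists_of_lipa_lt hx
  refine ⟨r / 2, by positivity, fun y hy => ?_⟩
  refine lt_of_le_of_lt ((iInf₂_le (r / 2) (by positivity)).trans (lipOn_mono ?_)) h
  intro z hz
  rw [mem_ball] at hy hz ⊢
  linarith [dist_triangle z y x]

theorem measurable_lipa [BorelSpace X] (f : X → ℝ) : Measurable (lipa f) :=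
  measurable_of_Iio fun c => (isOpen_lipa_lt f c).measurableSet

theorem lipa_congr {f g : X → ℝ} {x : X} (h : f =ᶠ[𝓝 x] g) : lipa f x = lipa g x := by
  have key : ∀ f g : X → ℝ, f =ᶠ[𝓝 x] g → lipa f x ≤ lipa g x := by
    intro f g h
    refine le_of_forall_gt fun c hc => ?_
    obtain ⟨r, hr, h1⟩ := exists_of_lipa_lt hc
    obtain ⟨s, hs, h2⟩ := Metric.eventually_nhds_iff_ball.1 h
    refine lt_of_le_of_lt (lipa_le_of (r := min r s) (lt_min hr hs) fun y hy z hz => ?_) h1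
    rw [h2 y (ball_subset_ball (min_le_right _ _) hy), h2 z (ball_subset_ball (min_le_right _ _) hz)]
    exact edist_le_lipOn (ball_subset_ball (min_le_left _ _) hy)
      (ball_subset_ball (min_le_left _ _) hz)
  exact le_antisymm (key f g h) (key g f h.symm)

theorem lipa_const_near {f : X → ℝ} {x : X} {c : ℝ} (h : ∀ᶠ y in 𝓝 x, f y = c) :
    lipa f x = 0 := by
  obtain ⟨s, hs, h2⟩ := Metric.eventually_nhds_iff_ball.1 h
  refine le_antisymm (lipa_le_of hs fun y hy z hz => ?_) zero_le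
  rw [h2 y hy, h2 z hz]
  simp

theorem continuousAt_of_lipa {f : X → ℝ} {x : X} (h : lipa f x < ⊤) : ContinuousAt f x := by
  obtain ⟨r, hr, h1⟩ := exists_of_lipa_lt h
  have : LipschitzOnWith (lipOn f (ball x r)).toNNReal f (ball x r) := by
    intro y hy z hz
    rw [ENNReal.coe_toNNReal h1.ne]
    exact edist_le_lipOn hy hz
  exact this.continuousOn.continuousAt (ball_mem_nhds x hr)

theorem locallyLipschitzOn_iff {f : X → ℝ} {A : Set X} (hA : IsOpen A) :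
    LocallyLipschitzOn A f ↔ ∀ x ∈ A, lipa f x < ⊤ := by
  constructor
  · intro h x hx
    obtain ⟨K, t, ht, hK⟩ := h hx
    rw [hA.nhdsWithin_eq hx] at ht
    obtain ⟨r, hr, hrt⟩ := Metric.mem_nhds_iff.1 ht
    refine lt_of_le_of_lt (lipa_le_of (c := K) hr fun y hy z hz => hK (hrt hy) (hrt hz)) ?_
    exact ENNReal.coe_lt_top
  · intro h x hx
    obtain ⟨r, hr, h1⟩ := exists_of_lipa_lt (h x hx)
    refine ⟨(lipOn f (ball x r)).toNNReal, ball x r, mem_nhdsWithin_of_mem_nhds (ball_mem_nhds x hr), ?_⟩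
    intro y hy z hz
    rw [ENNReal.coe_toNNReal h1.ne]
    exact edist_le_lipOn hy hz

/-- the general estimate from which the rules of calculus follow -/
theorem lipa_le3 {k f₁ f₂ f₃ : X → ℝ} {x : X} {w₁ w₂ w₃ : X × X → ℝ≥0∞} {W₁ W₂ W₃ : ℝ≥0∞}
    (t₁ : Tendsto w₁ (𝓝 (x, x)) (𝓝 W₁)) (t₂ : Tendsto w₂ (𝓝 (x, x)) (𝓝 W₂))
    (t₃ : Tendsto w₃ (𝓝 (x, x)) (𝓝 W₃)) (hW₁ : W₁ ≠ ⊤) (hW₂ : W₂ ≠ ⊤) (hW₃ : W₃ ≠ ⊤)
    (h₁ : lipa f₁ x < ⊤) (h₂ : lipa f₂ x < ⊤) (h₃ : lipa f₃ x < ⊤)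
    (h : ∀ᶠ p in 𝓝 (x, x), edist (k p.1) (k p.2) ≤ w₁ p * edist (f₁ p.1) (f₁ p.2) +
      w₂ p * edist (f₂ p.1) (f₂ p.2) + w₃ p * edist (f₃ p.1) (f₃ p.2)) :
    lipa k x ≤ W₁ * lipa f₁ x + W₂ * lipa f₂ x + W₃ * lipa f₃ x := by
  refine le_of_forall_gt fun c hc => ?_
  have tt : ∀ W L : ℝ≥0∞, W ≠ ⊤ → L ≠ ⊤ →
      Tendsto (fun δ : ℝ≥0∞ => (W + δ) * (L + δ)) (𝓝 0) (𝓝 (W * L)) := by
    intro W L hW hL
    have h1 : Tendsto (fun δ : ℝ≥0∞ => W + δ) (𝓝 0) (𝓝 (W + 0)) :=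
      (continuous_const.add continuous_id).tendsto 0
    have h2 : Tendsto (fun δ : ℝ≥0∞ => L + δ) (𝓝 0) (𝓝 (L + 0)) :=
      (continuous_const.add continuous_id).tendsto 0
    rw [add_zero] at h1 h2
    exact ENNReal.Tendsto.mul h1 (Or.inr hL) h2 (Or.inr hW)
  have h4 := ((tt W₁ _ hW₁ h₁.ne).add (tt W₂ _ hW₂ h₂.ne)).add (tt W₃ _ hW₃ h₃.ne)
  have h5 := h4.eventually_lt_const hc
  have h6 : ∃ δ : ℝ≥0∞, 0 < δ ∧ (W₁ + δ) * (lipa f₁ x + δ) + (W₂ + δ) * (lipa f₂ x + δ) +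
      (W₃ + δ) * (lipa f₃ x + δ) < c := by
    have h7 : ∃ᶠ δ : ℝ≥0∞ in 𝓝 0, 0 < δ := by
      have h8 : (𝓝[>] (0 : ℝ≥0∞)).NeBot := inferInstance
      exact (eventually_mem_nhdsWithin (a := (0 : ℝ≥0∞)) (s := Ioi 0)).frequently.filter_mono
        nhdsWithin_le_nhds
    obtain ⟨δ, h8, h9⟩ := (h7.and_eventually h5).exists
    exact ⟨δ, h8, h9⟩
  obtain ⟨δ, hδ, h6⟩ := h6
  have hb : ∀ f : X → ℝ, lipa f x < ⊤ → ∀ᶠ p : X × X in 𝓝 (x, x),
      edist (f p.1) (f p.2) ≤ (lipa f x + δ) * edist p.1 p.2 := by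
    intro f hf
    obtain ⟨r, hr, h1⟩ := exists_of_lipa_lt (ENNReal.lt_add_right hf.ne hδ.ne')
    rw [nhds_prod_eq]
    filter_upwards [prod_mem_prod (ball_mem_nhds x hr) (ball_mem_nhds x hr)] with p hp
    refine (edist_le_lipOn hp.1 hp.2).trans ?_
    gcongr
  have hw : ∀ (w : X × X → ℝ≥0∞) (W : ℝ≥0∞), Tendsto w (𝓝 (x, x)) (𝓝 W) → W ≠ ⊤ →
      ∀ᶠ p : X × X in 𝓝 (x, x), w p ≤ W + δ := by
    intro w W hw hW
    filter_upwards [hw.eventually_lt_const (ENNReal.lt_add_right hW hδ.ne')] with p hp using hp.le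
  have hall := ((((((hb f₁ h₁).and (hb f₂ h₂)).and (hb f₃ h₃)).and (hw w₁ W₁ t₁ hW₁)).and
    (hw w₂ W₂ t₂ hW₂)).and (hw w₃ W₃ t₃ hW₃)).and h
  obtain ⟨r, hr, hall⟩ := Metric.eventually_nhds_iff_ball.1 hall
  refine lt_of_le_of_lt (lipa_le_of hr fun y hy z hz => ?_) h6
  obtain ⟨⟨⟨⟨⟨⟨b1, b2⟩, b3⟩, v1⟩, v2⟩, v3⟩, b⟩ := hall (y, z) (by
    rw [← ball_prod_same]
    exact ⟨hy, hz⟩)
  refine b.trans ?_
  calc w₁ (y, z) * edist (f₁ y) (f₁ z) + w₂ (y, z) * edist (f₂ y) (f₂ z) +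
        w₃ (y, z) * edist (f₃ y) (f₃ z)
      ≤ (W₁ + δ) * ((lipa f₁ x + δ) * edist y z) + (W₂ + δ) * ((lipa f₂ x + δ) * edist y z) +
        (W₃ + δ) * ((lipa f₃ x + δ) * edist y z) := by gcongr
    _ = _ := by ring

theorem lipa_le2 {k f₁ f₂ : X → ℝ} {x : X} {w₁ w₂ : X × X → ℝ≥0∞} {W₁ W₂ : ℝ≥0∞}
    (t₁ : Tendsto w₁ (𝓝 (x, x)) (𝓝 W₁)) (t₂ : Tendsto w₂ (𝓝 (x, x)) (𝓝 W₂))
    (hW₁ : W₁ ≠ ⊤) (hW₂ : W₂ ≠ ⊤)
    (h₁ : lipa f₁ x < ⊤) (h₂ : lipa f₂ x < ⊤)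
    (h : ∀ᶠ p in 𝓝 (x, x), edist (k p.1) (k p.2) ≤ w₁ p * edist (f₁ p.1) (f₁ p.2) +
      w₂ p * edist (f₂ p.1) (f₂ p.2)) :
    lipa k x ≤ W₁ * lipa f₁ x + W₂ * lipa f₂ x := by
  have := lipa_le3 (k := k) (f₁ := f₁) (f₂ := f₂) (f₃ := f₁) (x := x) (w₃ := fun _ => 0) (W₃ := 0)
    t₁ t₂ tendsto_const_nhds hW₁ hW₂ (by simp) h₁ h₂ h₁ (by simpa using h)
  simpa using this

theorem lipa_add_le {f g : X → ℝ} {x : X} : lipa (fun y => f y + g y) x ≤ lipa f x + lipa g x := by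
  rcases eq_or_ne (lipa f x) ⊤ with hf | hf
  · simp [hf]
  rcases eq_or_ne (lipa g x) ⊤ with hg | hg
  · simp [hg]
  have := lipa_le2 (k := fun y => f y + g y) (f₁ := f) (f₂ := g) (x := x) (w₁ := fun _ => 1)
    (w₂ := fun _ => 1) (W₁ := 1) (W₂ := 1) tendsto_const_nhds tendsto_const_nhds
    (by simp) (by simp) hf.lt_top hg.lt_top (Eventually.of_forall fun p => by
      simp only [one_mul]
      exact edist_add_add_le _ _ _ _)
  simpa using this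

theorem enorm_tendsto {f : X → ℝ} {x : X} (h : lipa f x < ⊤) :
    Tendsto (fun p : X × X => ‖f p.1‖ₑ) (𝓝 (x, x)) (𝓝 ‖f x‖ₑ) ∧
    Tendsto (fun p : X × X => ‖f p.2‖ₑ) (𝓝 (x, x)) (𝓝 ‖f x‖ₑ) := by
  have h1 := (continuousAt_of_lipa h).enorm
  have e : (𝓝 (x, x) : Filter (X × X)) = 𝓝 x ×ˢ 𝓝 x := nhds_prod_eq
  rw [e]
  exact ⟨h1.tendsto.comp tendsto_fst, h1.tendsto.comp tendsto_snd⟩

theorem lipa_mul_le {f g : X → ℝ} {x : X} (hf : lipa f x < ⊤) (hg : lipa g x < ⊤) :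
    lipa (fun y => f y * g y) x ≤ ‖f x‖ₑ * lipa g x + ‖g x‖ₑ * lipa f x := by
  refine lipa_le2 (k := fun y => f y * g y) (f₁ := g) (f₂ := f) (x := x)
    (w₁ := fun p => ‖f p.1‖ₑ) (w₂ := fun p => ‖g p.2‖ₑ) (enorm_tendsto hf).1 (enorm_tendsto hg).2
    (by simp) (by simp) hg hf (Eventually.of_forall fun p => ?_)
  simp only [edist_eq_enorm_sub]
  rw [← enorm_mul, ← enorm_mul]
  refine le_trans (le_of_eq ?_) (enorm_add_le _ _)
  congr 1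
  ring

theorem lipa_glue_le {φ a b : X → ℝ} {x : X} (hφ : lipa φ x < ⊤) (ha : lipa a x < ⊤)
    (hb : lipa b x < ⊤) :
    lipa (fun y => (1 - φ y) * a y + φ y * b y) x ≤
      ‖1 - φ x‖ₑ * lipa a x + ‖φ x‖ₑ * lipa b x + ‖b x - a x‖ₑ * lipa φ x := by
  have hc : ContinuousAt (fun p : X × X => b p.2 - a p.2) (x, x) :=
    ((continuousAt_of_lipa hb).comp_of_eq continuousAt_snd rfl).sub
      ((continuousAt_of_lipa ha).comp_of_eq continuousAt_snd rfl)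
  have hc' : ContinuousAt (fun p : X × X => 1 - φ p.1) (x, x) :=
    continuousAt_const.sub ((continuousAt_of_lipa hφ).comp_of_eq continuousAt_fst rfl)
  refine lipa_le3 (k := fun y => (1 - φ y) * a y + φ y * b y) (f₁ := a) (f₂ := b) (f₃ := φ) (x := x)
    (w₁ := fun p => ‖1 - φ p.1‖ₑ) (w₂ := fun p => ‖φ p.1‖ₑ) (w₃ := fun p => ‖b p.2 - a p.2‖ₑ)
    hc'.enorm.tendsto (enorm_tendsto hφ).1 hc.enorm.tendsto
    (by simp) (by simp) (by simp) ha hb hφ (Eventually.of_forall fun p => ?_)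
  simp only [edist_eq_enorm_sub]
  rw [← enorm_mul, ← enorm_mul, ← enorm_mul]
  refine le_trans (le_of_eq ?_) (enorm_add₃_le)
  congr 1
  ring

/-- composition with a Lipschitz function of the line -/
theorem lipa_comp_le {f : X → ℝ} {η : ℝ → ℝ} {c : ℝ≥0} (hη : LipschitzWith c η) {x : X} :
    lipa (fun y => η (f y)) x ≤ c * lipa f x := by
  refine le_of_forall_gt fun d hd => ?_
  rcases eq_or_ne c 0 with rfl | hc
  · refine lt_of_le_of_lt (lipa_le_of (r := 1) one_pos fun y hy z hz => ?_) hd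
    refine (hη _ _).trans ?_
    simp
  · have hc' : (c : ℝ≥0∞) ≠ 0 := by exact_mod_cast hc
    have h1 : lipa f x < d / c := by
      rw [ENNReal.lt_div_iff_mul_lt (Or.inl hc') (Or.inl ENNReal.coe_ne_top), mul_comm]
      exact hd
    obtain ⟨r, hr, h2⟩ := exists_of_lipa_lt h1
    refine lt_of_le_of_lt (lipa_le_of (c := c * lipOn f (ball x r)) hr fun y hy z hz => ?_) ?_
    · rw [mul_assoc]
      exact (hη _ _).trans (by gcongr; exact edist_le_lipOn hy hz)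
    · rw [ENNReal.lt_div_iff_mul_lt (Or.inl hc') (Or.inl ENNReal.coe_ne_top), mul_comm] at h2
      exact h2

end lip

end Pool.Agent.H60.BV
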