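import Pool.Agent.H60.BV.Slice

set_option autoImplicit false
set_option linter.unusedSectionVars false

open MeasureTheory Metric Set Filter Topology
open scoped ENNReal NNReal

namespace Pool.Agent.H60.BV

variable {X : Type*} [MetricSpace X] [MeasurableSpace X] [BorelSpace X]

theorem QuasiIn.mono {m : Measure X} {K : ℝ≥0} {Ω V W : Set X} (h : QuasiIn m K Ω W)
    (hVW : V ⊆ W) : QuasiIn m K Ω V := fun U hU hUV =>
  h U hU ⟨hUV.1, hUV.2.trans hVW⟩

/-- quasiminimality and finite perimeter near a point -/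
theorem exists_good {m : Measure X} {K : ℝ≥0} {Ω : Set X} (hq : LocallyQuasiminimal m K Ω)
    (hf : LocallyFinitePerimeter m Ω) (x : X) :
    ∃ V : Set X, IsOpen V ∧ x ∈ V ∧ tvOpen m (Ω.indicator 1) V < ⊤ ∧ QuasiIn m K Ω V := by
  obtain ⟨V, hV, hxV, hqV⟩ := hq x
  obtain ⟨W, hW, hxW, hfW⟩ := hf x
  unfold perimeter at hfW
  rw [tv_eq hW] at hfW
  exact ⟨V ∩ W, hV.inter hW, ⟨hxV, hxW⟩, (tvOpen_mono inter_subset_right).trans_lt hfW,
    hqV.mono inter_subset_left⟩

/-- the mass of a thin layer -/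
noncomputable def layer (m : Measure X) (Ω : Set X) (u : X → ℝ) (ε t : ℝ) : ℝ≥0∞ :=
  ENNReal.ofReal (1 / ε) * ∫⁻ x in Ω ∩ {x | t - ε ≤ u x ∧ u x ≤ t}, lipa u x ∂m

theorem slice {m : Measure X} [IsFiniteMeasureOnCompacts m] {V Ω : Set X} {u : X → ℝ} {L : ℝ≥0}
    (h : Cut V u L) (hΩ : MeasurableSet Ω) {s t : ℝ} (hs : 0 < s) {ε : ℕ → ℝ}
    (hε : ∀ k, 0 < ε k) (hεs : ∀ k, ε k < t - s) (hεa : Antitone ε)
    (hε0 : Tendsto ε atTop (𝓝 0)) :
    tvOpen m ((Ω ∩ {x | u x < t}).indicator 1) {x | s < u x} + per m Ω u t ≤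
      per m Ω u s + liminf (fun k => layer m Ω u (ε k) t) atTop := by
  refine ENNReal.le_of_forall_pos_le_add fun e he hfin => ?_
  have h1 : per m Ω u s ≠ ⊤ := fun h1 => by simp [h1] at hfin
  have h2 := slice_aux (m := m) h hΩ hs hε hεs hεa hε0 (c := per m Ω u s + e)
    (ENNReal.lt_add_right h1 (by exact_mod_cast he.ne'))
  refine h2.trans (le_of_eq ?_)
  rw [liminf_const_add atTop _ (per m Ω u s + (e : ℝ≥0∞)) (by isBoundedDefault)
    (by isBoundedDefault)]
  have h3 : Tendsto (fun k : ℕ => ((k : ℝ≥0∞) + 1)⁻¹) atTop (𝓝 0) := by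
    have h4 : Tendsto (fun k : ℕ => (((k + 1 : ℕ) : ℝ≥0∞))⁻¹) atTop (𝓝 0) :=
      ENNReal.tendsto_inv_nat_nhds_zero.comp (tendsto_add_atTop_nat 1)
    simpa using h4
  have h5 := ENNReal.liminf_add_of_left_tendsto_zero h3 (fun k => layer m Ω u (ε k) t)
  have h6 : liminf (fun k : ℕ => ((k : ℝ≥0∞) + 1)⁻¹ + ENNReal.ofReal (1 / ε k) *
        ∫⁻ x in Ω ∩ {x | t - ε k ≤ u x ∧ u x ≤ t}, lipa u x ∂m) atTop =
      liminf (fun k => layer m Ω u (ε k) t) atTop := h5
  rw [h6]
  ring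

theorem quasi_step {m : Measure X} [IsFiniteMeasureOnCompacts m] {V Ω : Set X} {u : X → ℝ}
    {L K : ℝ≥0} (h : Cut V u L) (hΩ : MeasurableSet Ω) (hq : QuasiIn m K Ω V)
    {s t : ℝ} (hs : 0 < s) {ε : ℕ → ℝ}
    (hε : ∀ k, 0 < ε k) (hεs : ∀ k, ε k < t - s) (hεa : Antitone ε)
    (hε0 : Tendsto ε atTop (𝓝 0)) :
    per m Ω u s + K * per m Ω u t ≤
      K * per m Ω u s + K * liminf (fun k => layer m Ω u (ε k) t) atTop := by
  have hst : s < t := by
    have h1 := hε 0
    have h2 := hεs 0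
    linarith
  have hU : IsOpen {x | s < u x} := h.isOpen_gt s
  have hcl : closure {x | s < u x} ⊆ {x | s ≤ u x} :=
    closure_minimal (fun x (hx : s < u x) => hx.le) (isClosed_le continuous_const h.cont)
  have hUV : CompactlyIn {x | s < u x} V :=
    ⟨(h.compact_ge hs).of_isClosed_subset isClosed_closure hcl, hcl.trans (h.ge_sub hs)⟩
  have hGc : IsClosed {x | t ≤ u x} := isClosed_le continuous_const h.cont
  have h1 := hq {x | s < u x} hU hUV ∅ {x | t ≤ u x} MeasurableSet.empty hGc.measurableSet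
    (by simp [CompactlyIn]) (by
      refine ⟨?_, ?_⟩
      · rw [hGc.closure_eq]
        exact h.compact_ge (hs.trans hst)
      · rw [hGc.closure_eq]
        intro x hx
        exact lt_of_lt_of_le hst hx)
  have h2 : (Ω ∪ ∅) \ {x | t ≤ u x} = Ω ∩ {x | u x < t} := by
    ext x
    simp
  unfold perimeter at h1
  rw [h2, tv_eq hU, tv_eq hU] at h1
  calc per m Ω u s + K * per m Ω u t
      ≤ K * tvOpen m ((Ω ∩ {x | u x < t}).indicator 1) {x | s < u x} + K * per m Ω u t := by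
        gcongr
        exact h1
    _ = K * (tvOpen m ((Ω ∩ {x | u x < t}).indicator 1) {x | s < u x} + per m Ω u t) := by ring
    _ ≤ K * (per m Ω u s + liminf (fun k => layer m Ω u (ε k) t) atTop) :=
        mul_le_mul' le_rfl (slice (m := m) h hΩ hs hε hεs hεa hε0)
    _ = _ := by ring

theorem layer_eq {m : Measure X} {Ω : Set X} {u : X → ℝ}
    (hu : Continuous u) (ε t : ℝ) : layer m Ω u ε t = ENNReal.ofReal (1 / ε) *
      ∫⁻ x in Ω, {p : ℝ × X | p.1 - ε ≤ u p.2 ∧ u p.2 ≤ p.1}.indicator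
      (fun p => lipa u p.2) (t, x) ∂m := by
  have hS : MeasurableSet {x | t - ε ≤ u x ∧ u x ≤ t} :=
    ((isClosed_le continuous_const hu).inter (isClosed_le hu continuous_const)).measurableSet
  unfold layer
  rw [inter_comm, ← Measure.restrict_restrict hS, ← lintegral_indicator hS]
  rfl

theorem measurable_layer {m : Measure X} [SFinite m] {Ω : Set X} {u : X → ℝ}
    (hu : Continuous u) (ε : ℝ) : Measurable (layer m Ω u ε) := by
  have hS : MeasurableSet {p : ℝ × X | p.1 - ε ≤ u p.2 ∧ u p.2 ≤ p.1} := by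
    have h1 : Measurable (fun p : ℝ × X => p.1 - ε) := measurable_fst.sub_const ε
    have h2 : Measurable (fun p : ℝ × X => u p.2) := hu.measurable.comp measurable_snd
    exact (measurableSet_le h1 h2).inter (measurableSet_le h2 measurable_fst)
  have h3 : Measurable ({p : ℝ × X | p.1 - ε ≤ u p.2 ∧ u p.2 ≤ p.1}.indicator
      (fun p => lipa u p.2)) := ((measurable_lipa u).comp measurable_snd).indicator hS
  have h4 := h3.lintegral_prod_right' (ν := m.restrict Ω)
  have h5 : layer m Ω u ε = fun t => ENNReal.ofReal (1 / ε) *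
      ∫⁻ x in Ω, {p : ℝ × X | p.1 - ε ≤ u p.2 ∧ u p.2 ≤ p.1}.indicator
      (fun p => lipa u p.2) (t, x) ∂m := funext fun t => layer_eq hu ε t
  rw [h5]
  exact h4.const_mul (ENNReal.ofReal (1 / ε))

theorem integral_layer_le {m : Measure X} [SFinite m] {Ω : Set X} {u : X → ℝ}
    (hu : Continuous u) {ε : ℝ} (hε : 0 < ε) :
    ∫⁻ t, layer m Ω u ε t ≤ ∫⁻ x in Ω, lipa u x ∂m := by
  have hS : MeasurableSet {p : ℝ × X | p.1 - ε ≤ u p.2 ∧ u p.2 ≤ p.1} := by
    have h1 : Measurable (fun p : ℝ × X => p.1 - ε) := measurable_fst.sub_const ε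
    have h2 : Measurable (fun p : ℝ × X => u p.2) := hu.measurable.comp measurable_snd
    exact (measurableSet_le h1 h2).inter (measurableSet_le h2 measurable_fst)
  have h3 : Measurable ({p : ℝ × X | p.1 - ε ≤ u p.2 ∧ u p.2 ≤ p.1}.indicator
      (fun p => lipa u p.2)) := ((measurable_lipa u).comp measurable_snd).indicator hS
  simp only [layer_eq hu]
  rw [lintegral_const_mul' _ _ ENNReal.ofReal_ne_top,
    lintegral_lintegral_swap (f := fun t x => {p : ℝ × X | p.1 - ε ≤ u p.2 ∧ u p.2 ≤ p.1}.indicator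
      (fun p => lipa u p.2) (t, x)) h3.aemeasurable]
  have h4 : ∀ x, ∫⁻ t : ℝ, {p : ℝ × X | p.1 - ε ≤ u p.2 ∧ u p.2 ≤ p.1}.indicator
      (fun p => lipa u p.2) (t, x) = lipa u x * ENNReal.ofReal ε := by
    intro x
    have h5 : ∀ t : ℝ, {p : ℝ × X | p.1 - ε ≤ u p.2 ∧ u p.2 ≤ p.1}.indicator
      (fun p => lipa u p.2) (t, x) = (Icc (u x) (u x + ε)).indicator (fun _ => lipa u x) t := by
      intro t
      by_cases h6 : t ∈ Icc (u x) (u x + ε)
      · rw [indicator_of_mem h6, indicator_of_mem]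
        exact ⟨by
          have := h6.2
          simp only
          linarith, h6.1⟩
      · rw [indicator_of_notMem h6, indicator_of_notMem]
        rintro ⟨h7, h8⟩
        simp only at h7 h8
        exact h6 ⟨h8, by linarith⟩
    simp only [h5]
    rw [lintegral_indicator measurableSet_Icc, setLIntegral_const, Real.volume_Icc]
    congr 2
    ring
  simp only [h4]
  rw [lintegral_mul_const' _ _ ENNReal.ofReal_ne_top, mul_comm, mul_assoc,
    ← ENNReal.ofReal_mul hε.le, mul_one_div_cancel hε.ne', ENNReal.ofReal_one, mul_one]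

theorem Cut.exists_lt {V : Set X} {u : X → ℝ} {L : ℝ≥0} (h : Cut V u L) :
    ∃ T : ℝ, 0 < T ∧ ∀ x, u x < T := by
  obtain ⟨C, hC⟩ := h.comp.exists_bound_of_continuousOn h.cont.continuousOn
  refine ⟨|C| + 1, by positivity, fun x => ?_⟩
  by_cases hx : x ∈ tsupport u
  · have h1 := hC x hx
    rw [Real.norm_eq_abs] at h1
    linarith [le_abs_self (u x), le_abs_self C]
  · rw [image_eq_zero_of_notMem_tsupport hx]
    positivity

theorem per_le {m : Measure X} {V Ω : Set X} {u : X → ℝ} {L : ℝ≥0} (h : Cut V u L) {t : ℝ}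
    (ht : 0 ≤ t) : per m Ω u t ≤ tvOpen m (Ω.indicator 1) V :=
  tvOpen_mono (h.gt_sub ht)

theorem per_eq_zero {m : Measure X} {Ω : Set X} {u : X → ℝ} {t : ℝ} (ht : ∀ x, u x < t) :
    per m Ω u t = 0 := by
  unfold per
  have : {x | t < u x} = ∅ := by
    rw [eq_empty_iff_forall_notMem]
    intro x hx
    exact absurd (ht x) (not_lt.2 (le_of_lt hx))
  rw [this, tvOpen_empty]

/-- the integral of the perimeters in the superlevel sets -/
theorem coarea_fin {m : Measure X} {V Ω : Set X} {u : X → ℝ} {L : ℝ≥0} (h : Cut V u L)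
    (hfin : tvOpen m (Ω.indicator 1) V < ⊤) : ∫⁻ t in Ioi (0 : ℝ), per m Ω u t < ⊤ := by
  obtain ⟨T, hT, hT'⟩ := h.exists_lt
  calc ∫⁻ t in Ioi (0 : ℝ), per m Ω u t
      ≤ ∫⁻ t in Ioi (0 : ℝ), (Iic T).indicator (fun _ => tvOpen m (Ω.indicator 1) V) t := by
        refine setLIntegral_mono' measurableSet_Ioi fun t ht => ?_
        rcases le_or_gt t T with h1 | h1
        · rw [indicator_of_mem (show t ∈ Iic T from h1)]
          exact per_le h (le_of_lt ht)
        · rw [per_eq_zero fun x => (hT' x).trans h1]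
          exact zero_le
    _ = tvOpen m (Ω.indicator 1) V * volume (Iic T ∩ Ioi 0) := by
        rw [lintegral_indicator measurableSet_Iic, setLIntegral_const,
          Measure.restrict_apply measurableSet_Iic]
    _ < ⊤ := by
        rw [inter_comm, Ioi_inter_Iic, Real.volume_Ioc]
        exact ENNReal.mul_lt_top hfin ENNReal.ofReal_lt_top

theorem coarea_aux {m : Measure X} [IsFiniteMeasureOnCompacts m] [SFinite m] {V Ω : Set X}
    {u : X → ℝ} {L K : ℝ≥0} (h : Cut V u L) (hΩ : MeasurableSet Ω) (hq : QuasiIn m K Ω V)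
    (hfin : tvOpen m (Ω.indicator 1) V < ⊤) {δ : ℝ} (hδ : 0 < δ) :
    ∫⁻ t in Ioi (0 : ℝ), per m Ω u t ≤
      K * (ENNReal.ofReal δ * tvOpen m (Ω.indicator 1) V + ∫⁻ x in Ω, lipa u x ∂m) := by
  set P := tvOpen m (Ω.indicator 1) V with hP
  set I := ∫⁻ t in Ioi (0 : ℝ), per m Ω u t with hI
  have hIfin : I < ⊤ := coarea_fin h hfin
  set ε : ℕ → ℝ := fun k => δ / ((k : ℝ) + 2) with hε
  have hε1 : ∀ k, 0 < ε k := fun k => by positivity
  have hε2 : ∀ k, ε k < δ := fun k => by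
    have : (0 : ℝ) ≤ k := Nat.cast_nonneg k
    rw [hε]
    simp only
    rw [div_lt_iff₀ (by positivity)]
    nlinarith
  have hε3 : Antitone ε := fun i j hij => by
    have : (i : ℝ) ≤ j := Nat.cast_le.2 hij
    simp only [hε]
    gcongr
  have hε4 : Tendsto ε atTop (𝓝 0) := by
    have h1 : Tendsto (fun k : ℕ => (k : ℝ) + 2) atTop atTop :=
      tendsto_natCast_atTop_atTop.atTop_add tendsto_const_nhds
    exact h1.const_div_atTop δ
  set D : ℝ → ℝ≥0∞ := fun t => liminf (fun k => layer m Ω u (ε k) t) atTop with hD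
  have hDm : Measurable D := Measurable.liminf fun k => measurable_layer h.cont (ε k)
  have hpm : Measurable (per m Ω u) := (per_antitone m Ω u).measurable
  have hDi : ∫⁻ t in Ioi δ, D t ≤ ∫⁻ x in Ω, lipa u x ∂m := by
    calc ∫⁻ t in Ioi δ, D t ≤ ∫⁻ t, D t := setLIntegral_le_lintegral _ _
      _ ≤ liminf (fun k => ∫⁻ t, layer m Ω u (ε k) t) atTop :=
        lintegral_liminf_le fun k => measurable_layer h.cont (ε k)
      _ ≤ liminf (fun _ : ℕ => ∫⁻ x in Ω, lipa u x ∂m) atTop :=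
        liminf_le_liminf (Eventually.of_forall fun k => integral_layer_le h.cont (hε1 k))
      _ = _ := by simp
  have hstep : ∀ t ∈ Ioi δ, per m Ω u (t - δ) + K * per m Ω u t ≤ K * per m Ω u (t - δ) + K * D t := by
    intro t ht
    have ht' : δ < t := ht
    refine quasi_step h hΩ hq (by linarith) hε1 (fun k => ?_) hε3 hε4
    have := hε2 k
    linarith
  have hshift : ∫⁻ t in Ioi δ, per m Ω u (t - δ) = I := by
    rw [hI, ← lintegral_indicator measurableSet_Ioi, ← lintegral_indicator measurableSet_Ioi,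
      ← lintegral_sub_right_eq_self (μ := volume) ((Ioi (0 : ℝ)).indicator (per m Ω u)) δ]
    refine lintegral_congr fun t => ?_
    by_cases h1 : t ∈ Ioi δ
    · have h2 : t - δ ∈ Ioi (0 : ℝ) := by
        have : δ < t := h1
        simp only [mem_Ioi]
        linarith
      rw [indicator_of_mem h1, indicator_of_mem h2]
    · have h2 : t - δ ∉ Ioi (0 : ℝ) := fun h2 => h1 (by
        simp only [mem_Ioi] at h2 ⊢
        linarith)
      rw [indicator_of_notMem h1, indicator_of_notMem h2]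
  have hps : Measurable (fun t => per m Ω u (t - δ)) := hpm.comp (measurable_id.sub_const δ)
  set J := ∫⁻ t in Ioi δ, per m Ω u t with hJ
  have hIJ : I ≤ ENNReal.ofReal δ * P + J := by
    have h1 : Ioi (0 : ℝ) = Ioc 0 δ ∪ Ioi δ := (Ioc_union_Ioi_eq_Ioi hδ.le).symm
    calc I ≤ (∫⁻ t in Ioc 0 δ, per m Ω u t) + ∫⁻ t in Ioi δ, per m Ω u t := by
          rw [hI, h1]
          exact lintegral_union_le _ _ _
      _ ≤ (∫⁻ t in Ioc 0 δ, P) + J := by
          refine add_le_add ?_ le_rfl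
          exact setLIntegral_mono' measurableSet_Ioc fun t ht => per_le h ht.1.le
      _ = _ := by
          rw [setLIntegral_const, Real.volume_Ioc, sub_zero, mul_comm]
  have hJfin : J < ⊤ := (lintegral_mono_set (Ioi_subset_Ioi hδ.le)).trans_lt hIfin
  have h1 : I + K * J ≤ K * I + K * ∫⁻ x in Ω, lipa u x ∂m := by
    calc I + K * J = ∫⁻ t in Ioi δ, (per m Ω u (t - δ) + K * per m Ω u t) := by
          rw [lintegral_add_left hps, hshift, lintegral_const_mul' _ _ ENNReal.coe_ne_top]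
      _ ≤ ∫⁻ t in Ioi δ, (K * per m Ω u (t - δ) + K * D t) :=
          setLIntegral_mono' measurableSet_Ioi hstep
      _ = K * I + K * ∫⁻ t in Ioi δ, D t := by
          rw [lintegral_add_left (hps.const_mul _), lintegral_const_mul' _ _ ENNReal.coe_ne_top,
            lintegral_const_mul' _ _ ENNReal.coe_ne_top, hshift]
      _ ≤ _ := by gcongr
  have hKJ : (K : ℝ≥0∞) * J ≠ ⊤ := ENNReal.mul_ne_top ENNReal.coe_ne_top hJfin.ne
  have h2 : I + K * J ≤ K * (ENNReal.ofReal δ * P + ∫⁻ x in Ω, lipa u x ∂m) + K * J := by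
    refine h1.trans ?_
    calc K * I + K * ∫⁻ x in Ω, lipa u x ∂m
        ≤ K * (ENNReal.ofReal δ * P + J) + K * ∫⁻ x in Ω, lipa u x ∂m := by gcongr
      _ = _ := by ring
  exact ENNReal.le_of_add_le_add_right hKJ h2

/-- the perimeters in the superlevel sets, integrated -/
theorem coarea_le {m : Measure X} [IsFiniteMeasureOnCompacts m] [SFinite m] {V Ω : Set X}
    {u : X → ℝ} {L K : ℝ≥0} (h : Cut V u L) (hΩ : MeasurableSet Ω) (hq : QuasiIn m K Ω V)
    (hfin : tvOpen m (Ω.indicator 1) V < ⊤) :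
    ∫⁻ t in Ioi (0 : ℝ), per m Ω u t ≤ K * ∫⁻ x in Ω, lipa u x ∂m := by
  have h1 : Tendsto (fun n : ℕ => (K : ℝ≥0∞) * (ENNReal.ofReal (1 / ((n : ℝ) + 1)) *
      tvOpen m (Ω.indicator 1) V + ∫⁻ x in Ω, lipa u x ∂m)) atTop
      (𝓝 (K * (ENNReal.ofReal 0 * tvOpen m (Ω.indicator 1) V + ∫⁻ x in Ω, lipa u x ∂m))) := by
    refine ENNReal.Tendsto.const_mul ?_ (Or.inr ENNReal.coe_ne_top)
    refine Tendsto.add ?_ tendsto_const_nhds
    refine ENNReal.Tendsto.mul_const ?_ (Or.inr hfin.ne)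
    exact (ENNReal.continuous_ofReal.tendsto 0).comp tendsto_one_div_add_atTop_nhds_zero_nat
  rw [ENNReal.ofReal_zero, zero_mul, zero_add] at h1
  exact ge_of_tendsto' h1 fun n => coarea_aux h hΩ hq hfin (by positivity)

end Pool.Agent.H60.BV
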