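import Mathlib

/-!
# BV functions, perimeter and quasiminimal sets in metric measure spaces: definitions

For MP_2a341d_an.
-/

set_option autoImplicit false

open MeasureTheory Metric Set Filter Topology
open scoped ENNReal NNReal

namespace Pool.Agent.H60.BV

variable {X : Type*} [MetricSpace X] [MeasurableSpace X]

/-- The Lipschitz constant of `f` on `S`, with values in `[0, ∞]` (here `0 / 0 = 0`). -/
noncomputable def lipOn (f : X → ℝ) (S : Set X) : ℝ≥0∞ :=
  ⨆ y ∈ S, ⨆ z ∈ S, edist (f y) (f z) / edist y z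

/-- The asymptotic Lipschitz constant `lip_a f(x) = inf_{r > 0} Lip(f|_{B_r(x)})`. -/
noncomputable def lipa (f : X → ℝ) (x : X) : ℝ≥0∞ :=
  ⨅ (r : ℝ) (_ : 0 < r), lipOn f (ball x r)

/-- `u n → f` in `L¹_loc(m|_A)`: every point of `A` has a neighbourhood `U` with
`∫_{U ∩ A} |u n - f| dm → 0`. -/
def ConvLoc (m : Measure X) (A : Set X) (u : ℕ → X → ℝ) (f : X → ℝ) : Prop :=
  ∀ x ∈ A, ∃ U ∈ 𝓝 x, Tendsto (fun n => ∫⁻ y in U ∩ A, ‖u n y - f y‖ₑ ∂m) atTop (𝓝 0)

/-- The total variation `|Df|(A)` for an open set `A`, relative to the measure `m`: the infimum of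
`liminf ∫_A lip_a(u n) dm` over all sequences of locally Lipschitz functions on `A` with
`u n → f` in `L¹_loc(m|_A)`. -/
noncomputable def tvOpen (m : Measure X) (f : X → ℝ) (A : Set X) : ℝ≥0∞ :=
  ⨅ (u : ℕ → X → ℝ) (_ : ∀ n, LocallyLipschitzOn A (u n)) (_ : ConvLoc m A u f),
    liminf (fun n => ∫⁻ x in A, lipa (u n) x ∂m) atTop

/-- The total variation `|Df|(B)` for an arbitrary set `B`: the infimum over the open sets which
contain `B`. -/
noncomputable def tv (m : Measure X) (f : X → ℝ) (B : Set X) : ℝ≥0∞ :=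
  ⨅ (A : Set X) (_ : IsOpen A) (_ : B ⊆ A), tvOpen m f A

/-- `f ∈ BV(B)`: `f ∈ L¹(m|_B)` and `|Df|_B(B) < ∞`, where `|Df|_B` is the total variation of `f`
in `(X, d, m|_B)`. -/
def MemBV (m : Measure X) (B : Set X) (f : X → ℝ) : Prop :=
  Integrable f (m.restrict B) ∧ tv (m.restrict B) f B < ⊤

/-- The norm `‖f‖_{L¹(m|_B)} + |Df|_B(B)` of `BV(B)`. -/
noncomputable def normBV (m : Measure X) (B : Set X) (f : X → ℝ) : ℝ≥0∞ :=
  (∫⁻ x in B, ‖f x‖ₑ ∂m) + tv (m.restrict B) f B

/-- The Borel set `E` is a `BV`-extension set: for some constant `C` every `f ∈ BV(E)` has an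
extension `F ∈ BV(X)`, `F = f` almost everywhere on `E`, with `‖F‖_{BV(X)} ≤ C ‖f‖_{BV(E)}`. -/
def IsBVExtensionSet (m : Measure X) (E : Set X) : Prop :=
  MeasurableSet E ∧ ∃ C : ℝ≥0, ∀ f : X → ℝ, MemBV m E f →
    ∃ F : X → ℝ, MemBV m univ F ∧ F =ᵐ[m.restrict E] f ∧ normBV m univ F ≤ C * normBV m E f

/-- The perimeter `Per(E, U) = |Dχ_E|_X(U)`. -/
noncomputable def perimeter (m : Measure X) (E U : Set X) : ℝ≥0∞ :=
  tv m (E.indicator 1) U

/-- `A` is compactly contained in `B`: the closure of `A` is compact and contained in `B`. -/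
def CompactlyIn (A B : Set X) : Prop := IsCompact (closure A) ∧ closure A ⊆ B

/-- `E` is `K`-quasiminimal in `W`: `Per(E, U) ≤ K Per((E ∪ F) \ G, U)` for all open sets `U`
compactly contained in `W` and all Borel sets `F` and `G` compactly contained in `U`. -/
def QuasiIn (m : Measure X) (K : ℝ≥0) (E W : Set X) : Prop :=
  ∀ U : Set X, IsOpen U → CompactlyIn U W →
    ∀ F G : Set X, MeasurableSet F → MeasurableSet G → CompactlyIn F U → CompactlyIn G U →
      perimeter m E U ≤ K * perimeter m ((E ∪ F) \ G) U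

/-- `E` is locally `K`-quasiminimal in the space: every point has an open neighbourhood `V` in
which `E` is `K`-quasiminimal. -/
def LocallyQuasiminimal (m : Measure X) (K : ℝ≥0) (E : Set X) : Prop :=
  ∀ x : X, ∃ V : Set X, IsOpen V ∧ x ∈ V ∧ QuasiIn m K E V

/-- `E` has locally finite perimeter: every point has an open neighbourhood `V` with
`Per(E, V) < ∞`. -/
def LocallyFinitePerimeter (m : Measure X) (E : Set X) : Prop :=
  ∀ x : X, ∃ V : Set X, IsOpen V ∧ x ∈ V ∧ perimeter m E V < ⊤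

/-- `g` is an upper gradient of `f`: `|f(γ(0)) - f(γ(L))| ≤ ∫_γ g ds` for every rectifiable curve
`γ`, parametrised by arc length on `[0, L]`. -/
def IsUpperGradient (f : X → ℝ) (g : X → ℝ≥0∞) : Prop :=
  Measurable g ∧ ∀ (L : ℝ) (γ : ℝ → X), 0 ≤ L → HasUnitSpeedOn γ (Icc 0 L) →
    ‖f (γ 0) - f (γ L)‖ₑ ≤ ∫⁻ s in Icc 0 L, g (γ s)

/-- `(X, d, m)` is a PI-space: a complete separable metric space with a Borel measure `m` which is
finite on bounded sets and doubling, and which satisfies a `(1,1)`-Poincaré inequality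
`∫_{B_r(x)} |f - f_{B_r(x)}| dm ≤ C r ∫_{B_{λr}(x)} g dm`
for all `f` (integrable on balls), all upper gradients `g` of `f`, all `x` and `r > 0`. -/
structure IsPISpace (m : Measure X) : Prop where
  complete : CompleteSpace X
  separable : TopologicalSpace.SeparableSpace X
  finite : ∀ s : Set X, Bornology.IsBounded s → m s < ⊤
  doubling : ∃ C : ℝ≥0, ∀ (x : X) (r : ℝ), 0 < r → m (ball x (2 * r)) ≤ C * m (ball x r)
  poincare : ∃ C lam : ℝ, 0 < C ∧ 1 ≤ lam ∧ ∀ (f : X → ℝ) (g : X → ℝ≥0∞),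
    (∀ (x : X) (r : ℝ), IntegrableOn f (ball x r) m) → IsUpperGradient f g →
    ∀ (x : X) (r : ℝ), 0 < r →
      ∫⁻ y in ball x r, ‖f y - ⨍ z in ball x r, f z ∂m‖ₑ ∂m ≤
        ENNReal.ofReal (C * r) * ∫⁻ y in ball x (lam * r), g y ∂m

end Pool.Agent.H60.BV
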