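import Pool.Agent.H60.BV.TV

set_option autoImplicit false
set_option linter.unusedSectionVars false

open MeasureTheory Metric Set Filter Topology
open scoped ENNReal NNReal

namespace Pool.Agent.H60.BV

variable {X : Type*} [MetricSpace X] [MeasurableSpace X] [BorelSpace X]

/-- a nonnegative function with compact support in `V` and bounded asymptotic Lipschitz constant -/
structure Cut (V : Set X) (u : X → ℝ) (L : ℝ≥0) : Prop where
  lip : ∀ x, lipa u x ≤ L
  comp : IsCompact (tsupport u)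
  sub : tsupport u ⊆ V
  nonneg : ∀ x, 0 ≤ u x

namespace Cut

variable {V : Set X} {u : X → ℝ} {L : ℝ≥0}

theorem fin (h : Cut V u L) (x : X) : lipa u x < ⊤ := (h.lip x).trans_lt ENNReal.coe_lt_top

theorem cont (h : Cut V u L) : Continuous u :=
  continuous_iff_continuousAt.2 fun x => continuousAt_of_lipa (h.fin x)

theorem subset_supp {t : ℝ} (ht : 0 < t) : {x | t ≤ u x} ⊆ tsupport u := fun x hx =>
  subset_tsupport u (by
    rw [Function.mem_support]
    have : t ≤ u x := hx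
    linarith)

theorem compact_ge (h : Cut V u L) {t : ℝ} (ht : 0 < t) : IsCompact {x | t ≤ u x} :=
  h.comp.of_isClosed_subset (isClosed_le continuous_const h.cont) (subset_supp ht)

theorem isOpen_gt (h : Cut V u L) (t : ℝ) : IsOpen {x | t < u x} :=
  isOpen_lt continuous_const h.cont

theorem isOpen_lt' (h : Cut V u L) (t : ℝ) : IsOpen {x | u x < t} :=
  isOpen_lt h.cont continuous_const

theorem gt_sub (h : Cut V u L) {t : ℝ} (ht : 0 ≤ t) : {x | t < u x} ⊆ V := fun x hx =>
  h.sub (subset_tsupport u (by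
    rw [Function.mem_support]
    have : t < u x := hx
    linarith))

theorem ge_sub (h : Cut V u L) {t : ℝ} (ht : 0 < t) : {x | t ≤ u x} ⊆ V :=
  (subset_supp ht).trans h.sub

end Cut

/-- the ramp `clamp ((u - a) / (b - a))` -/
noncomputable def ramp (u : X → ℝ) (a b : ℝ) (x : X) : ℝ := clamp ((u x - a) / (b - a))

theorem ramp_lip {u : X → ℝ} {a b : ℝ} (hab : a < b) (x : X) :
    lipa (ramp u a b) x ≤ ENNReal.ofReal (1 / (b - a)) * lipa u x := by
  have h1 : LipschitzWith (Real.toNNReal (1 / (b - a))) (fun t : ℝ => clamp ((t - a) / (b - a))) := by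
    have h2 : LipschitzWith (Real.toNNReal (1 / (b - a))) (fun t : ℝ => (t - a) / (b - a)) := by
      refine LipschitzWith.of_dist_le_mul fun s t => ?_
      rw [Real.coe_toNNReal _ (by
        have : 0 < b - a := by linarith
        positivity), Real.dist_eq, Real.dist_eq]
      have h3 : (s - a) / (b - a) - (t - a) / (b - a) = (1 / (b - a)) * (s - t) := by ring
      rw [h3, abs_mul, abs_of_pos (by
        have : 0 < b - a := by linarith
        positivity)]
    have h4 := clamp_lipschitz.comp h2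
    rw [one_mul] at h4
    exact h4
  exact lipa_comp_le (f := u) (x := x) h1

theorem ramp_nonneg (u : X → ℝ) (a b : ℝ) (x : X) : 0 ≤ ramp u a b x := clamp_nonneg _

theorem ramp_le_one (u : X → ℝ) (a b : ℝ) (x : X) : ramp u a b x ≤ 1 := clamp_le_one _

theorem ramp_eq_zero {u : X → ℝ} {a b : ℝ} (hab : a < b) {x : X} (h : u x ≤ a) :
    ramp u a b x = 0 := by
  unfold ramp clamp
  have : (u x - a) / (b - a) ≤ 0 := div_nonpos_of_nonpos_of_nonneg (by linarith) (by linarith)
  rw [max_eq_left ((min_le_right _ _).trans this)]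

theorem ramp_eq_one {u : X → ℝ} {a b : ℝ} (hab : a < b) {x : X} (h : b ≤ u x) :
    ramp u a b x = 1 := by
  unfold ramp clamp
  have : 1 ≤ (u x - a) / (b - a) := by
    rw [le_div_iff₀ (by linarith)]
    linarith
  rw [min_eq_left this, max_eq_right zero_le_one]

theorem enorm_le_one {t : ℝ} (h0 : 0 ≤ t) (h1 : t ≤ 1) : ‖t‖ₑ ≤ 1 := by
  rw [Real.enorm_eq_ofReal h0]
  exact ENNReal.ofReal_le_one.2 h1

theorem lintegral_add_cont {m : Measure X} {A S Ω : Set X} (hΩ : MeasurableSet Ω)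
    (hS : MeasurableSet S) (hSA : S ⊆ A) {a : X → ℝ} (ha : ∀ x ∈ A, lipa a x < ⊤) (g : X → ℝ≥0∞) :
    ∫⁻ x in S, (‖a x - Ω.indicator (1 : X → ℝ) x‖ₑ + g x) ∂m =
      ∫⁻ x in S, ‖a x - Ω.indicator (1 : X → ℝ) x‖ₑ ∂m + ∫⁻ x in S, g x ∂m := by
  have h1 : ContinuousOn a S := fun x hx =>
    (continuousAt_of_lipa (ha x (hSA hx))).continuousWithinAt
  have h2 : Measurable (Ω.indicator (1 : X → ℝ)) := measurable_one.indicator hΩ
  exact lintegral_add_left' ((h1.aemeasurable hS).sub h2.aemeasurable).enorm g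

theorem glue_aux {m : Measure X} {V Ω : Set X} {u : X → ℝ} {L : ℝ≥0} (h : Cut V u L)
    (hV : IsOpen V) (hΩ : MeasurableSet Ω) {t' t : ℝ} (ht' : 0 < t') (ht : t' < t) {c₁ c₂ : ℝ≥0∞}
    (h₁ : tvOpen m (Ω.indicator 1) (V ∩ {x | u x < t}) < c₁)
    (h₂ : tvOpen m (Ω.indicator 1) {x | t' < u x} < c₂) :
    tvOpen m (Ω.indicator 1) V ≤ c₁ + c₂ := by
  have hA1 : IsOpen (V ∩ {x | u x < t}) := hV.inter (h.isOpen_lt' t)
  have hA2 : IsOpen {x | t' < u x} := h.isOpen_gt t'
  obtain ⟨a, ha, hac, -, hai⟩ := exists_seq01 hA1 h₁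
  obtain ⟨b, hb, hbc, -, hbi⟩ := exists_seq01 hA2 h₂
  obtain ⟨t₁, ht1, ht1'⟩ := exists_between ht
  obtain ⟨t₂, ht2, ht2'⟩ := exists_between ht1'
  set φ : X → ℝ := ramp u t₁ t₂ with hφ
  set M : ℝ≥0∞ := ENNReal.ofReal (1 / (t₂ - t₁)) * L with hM
  have hMt : M ≠ ⊤ := ENNReal.mul_ne_top ENNReal.ofReal_ne_top ENNReal.coe_ne_top
  have hφM : ∀ x, lipa φ x ≤ M := fun x => (ramp_lip ht2 x).trans (mul_le_mul' le_rfl (h.lip x))
  have hφt : ∀ x, lipa φ x < ⊤ := fun x => (hφM x).trans_lt hMt.lt_top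
  set k : ℕ → X → ℝ := fun n y => (1 - φ y) * a n y + φ y * b n y with hk
  set C : Set X := {x | t₁ ≤ u x ∧ u x ≤ t₂} with hC
  have hCc : IsCompact C := (h.compact_ge (ht'.trans ht1)).inter_right
    (isClosed_le h.cont continuous_const)
  have hCA1 : C ⊆ V ∩ {x | u x < t} := fun x hx =>
    ⟨h.ge_sub (ht'.trans ht1) hx.1, lt_of_le_of_lt hx.2 ht2'⟩
  have hCA2 : C ⊆ {x | t' < u x} := fun x hx => lt_of_lt_of_le ht1 hx.1
  -- the asymptotic Lipschitz constants
  have hlow : ∀ n, ∀ x, u x < t₁ → lipa (k n) x = lipa (a n) x := by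
    intro n x hx
    refine lipa_congr ?_
    filter_upwards [(h.isOpen_lt' t₁).mem_nhds hx] with y hy
    simp only [hk, hφ, ramp_eq_zero ht2 (le_of_lt hy)]
    ring
  have hhigh : ∀ n, ∀ x, t₂ < u x → lipa (k n) x = lipa (b n) x := by
    intro n x hx
    refine lipa_congr ?_
    filter_upwards [(h.isOpen_gt t₂).mem_nhds hx] with y hy
    simp only [hk, hφ, ramp_eq_one ht2 (le_of_lt hy)]
    ring
  have hmid : ∀ n, ∀ x ∈ C, lipa (k n) x ≤ lipa (a n) x + lipa (b n) x + ‖b n x - a n x‖ₑ * M := by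
    intro n x hx
    refine (lipa_glue_le (hφt x) (ha n x (hCA1 hx)) (hb n x (hCA2 hx))).trans ?_
    have e1 : ‖1 - φ x‖ₑ ≤ 1 := enorm_le_one (by linarith [ramp_le_one u t₁ t₂ x])
      (by linarith [ramp_nonneg u t₁ t₂ x])
    have e2 : ‖φ x‖ₑ ≤ 1 := enorm_le_one (ramp_nonneg _ _ _ _) (ramp_le_one _ _ _ _)
    calc ‖1 - φ x‖ₑ * lipa (a n) x + ‖φ x‖ₑ * lipa (b n) x + ‖b n x - a n x‖ₑ * lipa φ x
        ≤ 1 * lipa (a n) x + 1 * lipa (b n) x + ‖b n x - a n x‖ₑ * M := by
          gcongr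
          exact hφM x
      _ = _ := by rw [one_mul, one_mul]
  have htop : ∀ n, ∀ x ∈ V, lipa (k n) x < ⊤ := by
    intro n x hx
    rcases lt_or_ge (u x) t₁ with h1 | h1
    · rw [hlow n x h1]
      exact ha n x ⟨hx, h1.trans (ht2.trans ht2')⟩
    rcases lt_or_ge t₂ (u x) with h2 | h2
    · rw [hhigh n x h2]
      exact hb n x (ht1.trans (ht2.trans h2))
    · refine (hmid n x ⟨h1, h2⟩).trans_lt ?_
      exact ENNReal.add_lt_top.2 ⟨ENNReal.add_lt_top.2 ⟨ha n x (hCA1 ⟨h1, h2⟩), hb n x (hCA2 ⟨h1, h2⟩)⟩,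
        ENNReal.mul_lt_top enorm_lt_top hMt.lt_top⟩
  -- the integrals
  have hint : ∀ n, ∫⁻ x in V, lipa (k n) x ∂m ≤ c₁ + c₂ + M * ∫⁻ x in C, ‖b n x - a n x‖ₑ ∂m := by
    intro n
    have e1 : ∀ x ∈ V, lipa (k n) x ≤ (V ∩ {x | u x < t}).indicator (lipa (a n)) x +
        {x | t' < u x}.indicator (lipa (b n)) x +
        C.indicator (fun x => M * ‖b n x - a n x‖ₑ) x := by
      intro x hx
      rcases lt_or_ge (u x) t₁ with h1 | h1
      · rw [hlow n x h1, indicator_of_mem (show x ∈ V ∩ {x | u x < t} from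
          ⟨hx, h1.trans (ht2.trans ht2')⟩), add_assoc]
        exact le_self_add
      rcases lt_or_ge t₂ (u x) with h2 | h2
      · rw [hhigh n x h2, indicator_of_mem (show x ∈ {x | t' < u x} from
          ht1.trans (ht2.trans h2))]
        exact le_add_right le_add_self
      · have h3 : x ∈ C := ⟨h1, h2⟩
        rw [indicator_of_mem (hCA1 h3), indicator_of_mem (hCA2 h3), indicator_of_mem h3]
        refine (hmid n x h3).trans (le_of_eq ?_)
        rw [mul_comm M]
    calc ∫⁻ x in V, lipa (k n) x ∂m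
        ≤ ∫⁻ x in V, ((V ∩ {x | u x < t}).indicator (lipa (a n)) x +
        {x | t' < u x}.indicator (lipa (b n)) x +
        C.indicator (fun x => M * ‖b n x - a n x‖ₑ) x) ∂m := setLIntegral_mono' hV.measurableSet e1
      _ ≤ ∫⁻ x, ((V ∩ {x | u x < t}).indicator (lipa (a n)) x +
        {x | t' < u x}.indicator (lipa (b n)) x +
        C.indicator (fun x => M * ‖b n x - a n x‖ₑ) x) ∂m := setLIntegral_le_lintegral _ _
      _ = ∫⁻ x in V ∩ {x | u x < t}, lipa (a n) x ∂m + ∫⁻ x in {x | t' < u x}, lipa (b n) x ∂m +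
        ∫⁻ x in C, M * ‖b n x - a n x‖ₑ ∂m := by
          have mm1 : Measurable (fun x => (V ∩ {x | u x < t}).indicator (lipa (a n)) x) :=
            (measurable_lipa _).indicator hA1.measurableSet
          have mm2 : Measurable (fun x => {x | t' < u x}.indicator (lipa (b n)) x) :=
            (measurable_lipa _).indicator hA2.measurableSet
          have mm3 : Measurable (fun x => (V ∩ {x | u x < t}).indicator (lipa (a n)) x +
            {x | t' < u x}.indicator (lipa (b n)) x) := mm1.add mm2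
          rw [lintegral_add_left mm3, lintegral_add_left mm1,
            lintegral_indicator hA1.measurableSet, lintegral_indicator hA2.measurableSet,
            lintegral_indicator hCc.isClosed.measurableSet]
      _ ≤ c₁ + c₂ + M * ∫⁻ x in C, ‖b n x - a n x‖ₑ ∂m := by
          rw [lintegral_const_mul' _ _ hMt]
          gcongr
          · exact hai n
          · exact hbi n
  have hlim : Tendsto (fun n => c₁ + c₂ + M * ∫⁻ x in C, ‖b n x - a n x‖ₑ ∂m) atTop
      (𝓝 (c₁ + c₂)) := by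
    have e1 := hac.compact hCc hCA1
    have e2 := hbc.compact hCc hCA2
    have e3 : Tendsto (fun n => ∫⁻ x in C, ‖b n x - a n x‖ₑ ∂m) atTop (𝓝 0) := by
      have e4 := e2.add e1
      rw [add_zero] at e4
      refine tendsto_of_tendsto_of_tendsto_of_le_of_le tendsto_const_nhds e4
        (fun n => zero_le) fun n => ?_
      calc ∫⁻ x in C, ‖b n x - a n x‖ₑ ∂m
          ≤ ∫⁻ x in C, (‖b n x - Ω.indicator (1 : X → ℝ) x‖ₑ +
            ‖a n x - Ω.indicator (1 : X → ℝ) x‖ₑ) ∂m := by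
            refine lintegral_mono fun x => ?_
            have : b n x - a n x = (b n x - Ω.indicator (1 : X → ℝ) x) -
              (a n x - Ω.indicator (1 : X → ℝ) x) := by ring
            rw [this]
            exact enorm_sub_le
        _ = _ := lintegral_add_cont hΩ hCc.isClosed.measurableSet hCA2 (hb n) _
    have e5 := ENNReal.Tendsto.const_mul e3 (Or.inr hMt)
    rw [mul_zero] at e5
    have e6 := (tendsto_const_nhds (x := c₁ + c₂) (f := atTop (α := ℕ))).add e5
    rwa [add_zero] at e6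
  -- convergence
  have hconv : ConvLoc m V k (Ω.indicator 1) := by
    intro x hx
    rcases lt_or_ge (u x) t₁ with h1 | h1
    · obtain ⟨U, hU, hlimU⟩ := hac x ⟨hx, h1.trans (ht2.trans ht2')⟩
      refine ⟨interior U ∩ {x | u x < t₁}, (((isOpen_interior).inter (h.isOpen_lt' t₁)).mem_nhds
        ⟨mem_interior_iff_mem_nhds.2 hU, h1⟩),
        tendsto_of_tendsto_of_tendsto_of_le_of_le tendsto_const_nhds hlimU
        (fun n => zero_le) fun n => ?_⟩
      calc ∫⁻ y in (interior U ∩ {x | u x < t₁}) ∩ V, ‖k n y - Ω.indicator (1 : X → ℝ) y‖ₑ ∂m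
          = ∫⁻ y in (interior U ∩ {x | u x < t₁}) ∩ V, ‖a n y - Ω.indicator (1 : X → ℝ) y‖ₑ ∂m := by
            refine setLIntegral_congr_fun ((isOpen_interior.inter (h.isOpen_lt' t₁)).inter
              hV).measurableSet fun y hy => ?_
            simp only [hk, hφ, ramp_eq_zero ht2 (le_of_lt hy.1.2)]
            ring_nf
        _ ≤ _ := by
            refine lintegral_mono_set ?_
            intro y hy
            exact ⟨interior_subset hy.1.1, hy.2, lt_trans hy.1.2 (ht2.trans ht2')⟩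
    rcases lt_or_ge t₂ (u x) with h2 | h2
    · obtain ⟨U, hU, hlimU⟩ := hbc x (ht1.trans (ht2.trans h2))
      refine ⟨interior U ∩ {x | t₂ < u x}, (((isOpen_interior).inter (h.isOpen_gt t₂)).mem_nhds
        ⟨mem_interior_iff_mem_nhds.2 hU, h2⟩),
        tendsto_of_tendsto_of_tendsto_of_le_of_le tendsto_const_nhds hlimU
        (fun n => zero_le) fun n => ?_⟩
      calc ∫⁻ y in (interior U ∩ {x | t₂ < u x}) ∩ V, ‖k n y - Ω.indicator (1 : X → ℝ) y‖ₑ ∂m
          = ∫⁻ y in (interior U ∩ {x | t₂ < u x}) ∩ V, ‖b n y - Ω.indicator (1 : X → ℝ) y‖ₑ ∂m := by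
            refine setLIntegral_congr_fun ((isOpen_interior.inter (h.isOpen_gt t₂)).inter
              hV).measurableSet fun y hy => ?_
            simp only [hk, hφ, ramp_eq_one ht2 (le_of_lt hy.1.2)]
            ring_nf
        _ ≤ _ := by
            refine lintegral_mono_set ?_
            intro y hy
            exact ⟨interior_subset hy.1.1, (ht1.trans ht2).trans hy.1.2⟩
    · obtain ⟨U, hU, hlimU⟩ := hac x (hCA1 ⟨h1, h2⟩)
      obtain ⟨U', hU', hlimU'⟩ := hbc x (hCA2 ⟨h1, h2⟩)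
      have hlim2 := hlimU.add hlimU'
      rw [add_zero] at hlim2
      set W : Set X := (interior U ∩ interior U' ∩ {x | t' < u x} ∩ {x | u x < t}) with hW
      have hWo : IsOpen W := ((isOpen_interior.inter isOpen_interior).inter
        (h.isOpen_gt t')).inter (h.isOpen_lt' t)
      refine ⟨W, hWo.mem_nhds
        ⟨⟨⟨mem_interior_iff_mem_nhds.2 hU, mem_interior_iff_mem_nhds.2 hU'⟩, hCA2 ⟨h1, h2⟩⟩,
          (hCA1 ⟨h1, h2⟩).2⟩,
        tendsto_of_tendsto_of_tendsto_of_le_of_le tendsto_const_nhds hlim2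
        (fun n => zero_le) fun n => ?_⟩
      calc ∫⁻ y in W ∩ V, ‖k n y - Ω.indicator (1 : X → ℝ) y‖ₑ ∂m
          ≤ ∫⁻ y in W ∩ V, (‖a n y - Ω.indicator (1 : X → ℝ) y‖ₑ +
              ‖b n y - Ω.indicator (1 : X → ℝ) y‖ₑ) ∂m := by
            refine lintegral_mono fun y => ?_
            have e0 : k n y - Ω.indicator (1 : X → ℝ) y =
              (1 - φ y) * (a n y - Ω.indicator (1 : X → ℝ) y) +
              φ y * (b n y - Ω.indicator (1 : X → ℝ) y) := by
              simp only [hk]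
              ring
            have e1 : ‖1 - φ y‖ₑ ≤ 1 := enorm_le_one (by linarith [ramp_le_one u t₁ t₂ y])
              (by linarith [ramp_nonneg u t₁ t₂ y])
            have e2 : ‖φ y‖ₑ ≤ 1 := enorm_le_one (ramp_nonneg _ _ _ _) (ramp_le_one _ _ _ _)
            rw [e0]
            refine (enorm_add_le _ _).trans ?_
            rw [enorm_mul, enorm_mul]
            calc ‖1 - φ y‖ₑ * ‖a n y - Ω.indicator (1 : X → ℝ) y‖ₑ +
                  ‖φ y‖ₑ * ‖b n y - Ω.indicator (1 : X → ℝ) y‖ₑ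
                ≤ 1 * ‖a n y - Ω.indicator (1 : X → ℝ) y‖ₑ +
                  1 * ‖b n y - Ω.indicator (1 : X → ℝ) y‖ₑ := by gcongr
              _ = _ := by rw [one_mul, one_mul]
        _ = ∫⁻ y in W ∩ V, ‖a n y - Ω.indicator (1 : X → ℝ) y‖ₑ ∂m +
            ∫⁻ y in W ∩ V, ‖b n y - Ω.indicator (1 : X → ℝ) y‖ₑ ∂m :=
            lintegral_add_cont hΩ (hWo.inter hV).measurableSet
              (A := V ∩ {x | u x < t}) (fun y hy => ⟨hy.2, hy.1.2⟩) (ha n) _
        _ ≤ _ := by
            refine add_le_add (lintegral_mono_set ?_) (lintegral_mono_set ?_)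
            · intro y hy
              exact ⟨interior_subset hy.1.1.1.1, hy.2, hy.1.2⟩
            · intro y hy
              exact ⟨interior_subset hy.1.1.1.2, hy.1.1.2⟩
  refine (tvOpen_le_liminf (fun n => (locallyLipschitzOn_iff hV).2 (htop n)) hconv).trans ?_
  exact (liminf_le_liminf (Eventually.of_forall hint)).trans hlim.liminf_eq.le

/-- the glueing inequality for perimeters -/
theorem glue {m : Measure X} {V Ω : Set X} {u : X → ℝ} {L : ℝ≥0} (h : Cut V u L)
    (hV : IsOpen V) (hΩ : MeasurableSet Ω) {t' t : ℝ} (ht' : 0 < t') (ht : t' < t) :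
    tvOpen m (Ω.indicator 1) V ≤ tvOpen m (Ω.indicator 1) (V ∩ {x | u x < t}) +
      tvOpen m (Ω.indicator 1) {x | t' < u x} := by
  rcases eq_or_ne (tvOpen m (Ω.indicator 1) (V ∩ {x | u x < t})) ⊤ with h1 | h1
  · simp [h1]
  rcases eq_or_ne (tvOpen m (Ω.indicator 1) {x | t' < u x}) ⊤ with h2 | h2
  · simp [h2]
  refine ENNReal.le_of_forall_pos_le_add fun ε hε _ => ?_
  have hε2 : ((ε / 2 : ℝ≥0) : ℝ≥0∞) ≠ 0 := by
    have : (0 : ℝ≥0) < ε / 2 := by positivity
    exact_mod_cast this.ne'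
  refine (glue_aux h hV hΩ ht' ht (ENNReal.lt_add_right h1 hε2) (ENNReal.lt_add_right h2 hε2)).trans
    (le_of_eq ?_)
  have : (ε : ℝ≥0∞) = ((ε / 2 : ℝ≥0) : ℝ≥0∞) + ((ε / 2 : ℝ≥0) : ℝ≥0∞) := by
    rw [← ENNReal.coe_add, add_halves]
  rw [this]
  ring

end Pool.Agent.H60.BV
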