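import Pool.Agent.H60.BV.Defs

set_option autoImplicit false
set_option linter.unusedSectionVars false

open MeasureTheory Metric Set Filter Topology
open scoped ENNReal NNReal

namespace Pool.Agent.H60.BV

variable {X : Type*} [MetricSpace X] [MeasurableSpace X] [BorelSpace X]

/-- the doubling condition with constant `C` -/
def Doubling (m : Measure X) (C : ℝ≥0) : Prop :=
  ∀ (x : X) (r : ℝ), 0 < r → 0 < m (ball x r) ∧ m (ball x (2 * r)) ≤ C * m (ball x r)

theorem Doubling.pow {m : Measure X} {C : ℝ≥0} (h : Doubling m C) (x : X) {r : ℝ} (hr : 0 < r)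
    (n : ℕ) : m (ball x (2 ^ n * r)) ≤ C ^ n * m (ball x r) := by
  induction n with
  | zero => simp
  | succ n ih =>
    have h1 := (h x (2 ^ n * r) (by positivity)).2
    calc m (ball x (2 ^ (n + 1) * r)) = m (ball x (2 * (2 ^ n * r))) := by
          congr 2
          ring
      _ ≤ C * m (ball x (2 ^ n * r)) := h1
      _ ≤ C * (C ^ n * m (ball x r)) := by gcongr
      _ = _ := by ring

theorem totallyBounded_closedBall {m : Measure X} {C : ℝ≥0} (h : Doubling m C)
    (hfin : ∀ s : Set X, Bornology.IsBounded s → m s < ⊤) (x : X) (R : ℝ) :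
    TotallyBounded (closedBall x R) := by
  rw [Metric.totallyBounded_iff]
  intro ε hε
  rcases lt_or_ge R 0 with hR | hR
  · exact ⟨∅, finite_empty, by rw [closedBall_eq_empty.2 hR]; exact empty_subset _⟩
  obtain ⟨u, hut, hud, hu⟩ := Vitali.exists_disjoint_subfamily_covering_enlargement_ball
    (closedBall x R) (fun y => y) (fun _ => ε / 5) (ε / 5) (fun _ _ => le_rfl) 5 (by norm_num)
  refine ⟨u, ?_, ?_⟩
  · -- finiteness
    obtain ⟨N, hN⟩ := pow_unbounded_of_one_lt ((2 * R + 1) / (ε / 5)) (one_lt_two (α := ℝ))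
    have hN' : 2 * R + 1 ≤ 2 ^ N * (ε / 5) := by
      rw [div_lt_iff₀ (by positivity)] at hN
      exact hN.le
    have hlow : ∀ y ∈ u, m (ball x (R + 1)) ≤ C ^ N * m (ball y (ε / 5)) := by
      intro y hy
      refine (measure_mono ?_).trans (h.pow y (by positivity) N)
      refine ball_subset_ball' ?_
      have h1 : dist y x ≤ R := hut hy
      rw [dist_comm] at h1
      linarith
    have hpos : 0 < m (ball x (R + 1)) := (h x (R + 1) (by linarith)).1
    rcases u.eq_empty_or_nonempty with hue | ⟨y0, hy0⟩
    · rw [hue]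
      exact finite_empty
    have hC : (C : ℝ≥0∞) ^ N ≠ 0 := by
      intro h0
      have := hlow y0 hy0
      rw [h0, zero_mul] at this
      exact hpos.ne' (le_antisymm this zero_le)
    have hCt : (C : ℝ≥0∞) ^ N ≠ ⊤ := ENNReal.pow_ne_top ENNReal.coe_ne_top
    set e := m (ball x (R + 1)) / C ^ N with he
    have hepos : 0 < e := ENNReal.div_pos hpos.ne' hCt
    have hge : ∀ y ∈ u, e ≤ m (ball y (ε / 5)) := fun y hy => by
      rw [he, ENNReal.div_le_iff hC hCt, mul_comm]
      exact hlow y hy
    have h1 := Measure.finite_const_le_meas_of_disjoint_iUnion (ι := u) m hepos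
      (As := fun y => ball (y : X) (ε / 5)) (fun _ => measurableSet_ball)
      (fun a b hab => hud a.2 b.2 (fun h => hab (Subtype.ext h))) (by
        refine ((measure_mono ?_).trans_lt (hfin (ball x (R + ε)) isBounded_ball)).ne
        refine iUnion_subset fun y => ball_subset_ball' ?_
        have h1 : dist (y : X) x ≤ R := hut y.2
        linarith)
    have h2 : {y : u | e ≤ m (ball (y : X) (ε / 5))} = univ := by
      rw [eq_univ_iff_forall]
      exact fun y => hge y y.2
    rw [h2] at h1
    exact (finite_univ_iff.1 h1)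
  · intro y hy
    obtain ⟨b, hb, hyb⟩ := hu y hy
    refine mem_iUnion₂.2 ⟨b, hb, ?_⟩
    have := hyb (mem_ball_self (by positivity))
    have h5 : 5 * (ε / 5) = ε := by ring
    rwa [h5] at this

theorem properSpace {m : Measure X} {C : ℝ≥0} [CompleteSpace X] (h : Doubling m C)
    (hfin : ∀ s : Set X, Bornology.IsBounded s → m s < ⊤) : ProperSpace X :=
  ⟨fun x R => isCompact_iff_totallyBounded_isComplete.2 ⟨totallyBounded_closedBall h hfin x R,
    isClosed_closedBall.isComplete⟩⟩

end Pool.Agent.H60.BV
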