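import Pool.Agent.H60.BV.UG
import Pool.Agent.H60.BV.Proper

set_option autoImplicit false
set_option linter.unusedSectionVars false

open MeasureTheory Metric Set Filter Topology
open scoped ENNReal NNReal

namespace Pool.Agent.H60.BV

variable {X : Type*} [MetricSpace X] [MeasurableSpace X] [BorelSpace X]

theorem caccioppoli {m : Measure X} [IsFiniteMeasureOnCompacts m] [SFinite m] [ProperSpace X]
    {V Ω : Set X} {K : ℝ≥0} (hΩ : MeasurableSet Ω) (hq : QuasiIn m K Ω V)
    (hfin : tvOpen m (Ω.indicator 1) V < ⊤) (x : X) {ρ₁ ρ₂ : ℝ}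
    (hV : closedBall x ρ₂ ⊆ V) :
    ENNReal.ofReal (ρ₂ - ρ₁) * tvOpen m (Ω.indicator 1) (ball x ρ₁) ≤
      K * m (Ω ∩ closedBall x ρ₂) := by
  set u : X → ℝ := fun y => max (ρ₂ - dist y x) 0 with hu
  have hlip : LipschitzWith 1 u := by
    have h1 : LipschitzWith 1 (fun y : X => ρ₂ - dist y x) := by
      refine LipschitzWith.of_dist_le_mul fun y z => ?_
      rw [Real.dist_eq, NNReal.coe_one, one_mul]
      have h3 : ρ₂ - dist y x - (ρ₂ - dist z x) = dist z x - dist y x := by ring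
      rw [h3, abs_le]
      constructor
      · linarith [dist_triangle y z x]
      · linarith [dist_triangle z y x, dist_comm y z]
    exact h1.max_const 0
  have hsupp : tsupport u ⊆ closedBall x ρ₂ := by
    refine closure_minimal (fun y hy => ?_) isClosed_closedBall
    rw [Function.mem_support] at hy
    by_contra h
    rw [mem_closedBall, not_le] at h
    exact hy (max_eq_right (by linarith))
  have hcut : Cut V u 1 := ⟨lipa_of_lipschitz hlip,
    (isCompact_closedBall x ρ₂).of_isClosed_subset (isClosed_tsupport _) hsupp, hsupp.trans hV,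
    fun y => le_max_right _ _⟩
  have h1 := coarea_le (m := m) hcut hΩ hq hfin
  have h2 : ∫⁻ y in Ω, lipa u y ∂m ≤ m (Ω ∩ closedBall x ρ₂) := by
    calc ∫⁻ y in Ω, lipa u y ∂m ≤ ∫⁻ y in Ω, (closedBall x ρ₂).indicator 1 y ∂m := by
          refine lintegral_mono fun y => ?_
          by_cases hy : y ∈ closedBall x ρ₂
          · rw [indicator_of_mem hy]
            simpa using hcut.lip y
          · rw [lipa_const_near (c := 0)]
            · exact zero_le
            · filter_upwards [isClosed_closedBall.isOpen_compl.mem_nhds hy] with z hz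
              exact image_eq_zero_of_notMem_tsupport fun h => hz (hsupp h)
      _ = m (Ω ∩ closedBall x ρ₂) := by
          rw [lintegral_indicator_one measurableSet_closedBall,
            Measure.restrict_apply measurableSet_closedBall, inter_comm]
  have h3 : ENNReal.ofReal (ρ₂ - ρ₁) * tvOpen m (Ω.indicator 1) (ball x ρ₁) ≤
      ∫⁻ t in Ioi (0 : ℝ), per m Ω u t := by
    calc ENNReal.ofReal (ρ₂ - ρ₁) * tvOpen m (Ω.indicator 1) (ball x ρ₁)
        = ∫⁻ t in Ioc 0 (ρ₂ - ρ₁), tvOpen m (Ω.indicator 1) (ball x ρ₁) := by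
          rw [setLIntegral_const, Real.volume_Ioc, sub_zero, mul_comm]
      _ ≤ ∫⁻ t in Ioc 0 (ρ₂ - ρ₁), per m Ω u t := by
          refine setLIntegral_mono' measurableSet_Ioc fun t ht => tvOpen_mono fun y hy => ?_
          have h4 : dist y x < ρ₁ := hy
          have h5 : t ≤ ρ₂ - ρ₁ := ht.2
          exact lt_of_lt_of_le (show t < ρ₂ - dist y x by linarith) (le_max_left _ _)
      _ ≤ _ := lintegral_mono_set fun t ht => ht.1
  exact h3.trans (h1.trans (by gcongr))

theorem good_radius {m : Measure X} [IsFiniteMeasureOnCompacts m] [ProperSpace X] {Ω : Set X}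
    (hΩ : IsOpen Ω) {CP lam : ℝ} (hCP : 0 < CP) (hlam : 1 ≤ lam)
    (hP : ∀ (f : X → ℝ) (g : X → ℝ≥0∞),
      (∀ (x : X) (r : ℝ), IntegrableOn f (ball x r) m) → IsUpperGradient f g →
      ∀ (x : X) (r : ℝ), 0 < r →
        ∫⁻ y in ball x r, ‖f y - ⨍ z in ball x r, f z ∂m‖ₑ ∂m ≤
          ENNReal.ofReal (CP * r) * ∫⁻ y in ball x (lam * r), g y ∂m)
    {C : ℝ≥0} (hC : 1 ≤ C) (hd : Doubling m C) {y : X} (hy : y ∈ Ω) {h : ℝ} (hh : 0 < h)
    (hsmall : m (Ω ∩ ball y h) ≤ 2⁻¹ * m (ball y h)) :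
    ∃ s : ℝ, 0 < s ∧ s ≤ h ∧ m (ball y s) ≤ 2 * C * (ENNReal.ofReal (CP * s) *
      tvOpen m (Ω.indicator 1) (ball y (3 * lam * s))) := by
  classical
  have hfinb : ∀ s : ℝ, m (ball y s) ≠ ⊤ := fun s =>
    ((measure_mono ball_subset_closedBall).trans_lt (isCompact_closedBall y s).measure_lt_top).ne
  have hex : ∃ k : ℕ, 2⁻¹ * m (ball y (h / 2 ^ k)) < m (Ω ∩ ball y (h / 2 ^ k)) := by
    obtain ⟨ε, hε, hεΩ⟩ := Metric.isOpen_iff.1 hΩ y hy
    obtain ⟨k, hk⟩ := pow_unbounded_of_one_lt (h / ε) (one_lt_two (α := ℝ))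
    refine ⟨k, ?_⟩
    have h1 : h / 2 ^ k ≤ ε := by
      rw [div_lt_iff₀ hε] at hk
      rw [div_le_iff₀ (by positivity)]
      linarith [mul_comm ε ((2 : ℝ) ^ k)]
    have h2 : Ω ∩ ball y (h / 2 ^ k) = ball y (h / 2 ^ k) :=
      inter_eq_self_of_subset_right ((ball_subset_ball h1).trans hεΩ)
    rw [h2]
    have h3 := (hd y (h / 2 ^ k) (by positivity)).1
    calc 2⁻¹ * m (ball y (h / 2 ^ k)) = m (ball y (h / 2 ^ k)) / 2 := by
          rw [ENNReal.div_eq_inv_mul]
      _ < m (ball y (h / 2 ^ k)) := ENNReal.half_lt_self h3.ne' (hfinb _)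
  obtain ⟨hk1, hk2⟩ : 2⁻¹ * m (ball y (h / 2 ^ (Nat.find hex))) <
      m (Ω ∩ ball y (h / 2 ^ (Nat.find hex))) ∧ Nat.find hex ≠ 0 := by
    refine ⟨Nat.find_spec hex, fun h0 => ?_⟩
    have := Nat.find_spec hex
    rw [h0, pow_zero, div_one] at this
    exact absurd this (not_lt.2 hsmall)
  obtain ⟨j, hj⟩ := Nat.exists_eq_succ_of_ne_zero hk2
  have hj' : ¬ (2⁻¹ * m (ball y (h / 2 ^ j)) < m (Ω ∩ ball y (h / 2 ^ j))) :=
    Nat.find_min hex (by rw [hj]; exact Nat.lt_succ_self j)
  rw [not_lt] at hj'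
  rw [hj] at hk1
  set s := h / 2 ^ j with hs
  have hs0 : 0 < s := by positivity
  have hs2 : h / 2 ^ (j.succ) = s / 2 := by
    rw [hs, pow_succ]
    field_simp
  rw [hs2] at hk1
  refine ⟨s, hs0, div_le_self hh.le (one_le_pow₀ one_le_two), ?_⟩
  have hiso := rel_iso (m := m) hΩ.measurableSet hCP hlam hP y hs0
  have hC' : (1 : ℝ≥0∞) ≤ C := by exact_mod_cast hC
  have h22 : (2 : ℝ≥0∞) * 2⁻¹ = 1 := ENNReal.mul_inv_cancel (by simp) (by simp)
  have hdbl : m (ball y s) ≤ C * m (ball y (s / 2)) := by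
    have := (hd y (s / 2) (by positivity)).2
    have h3 : 2 * (s / 2) = s := by ring
    rwa [h3] at this
  have h1 : m (ball y s) ≤ 2 * C * m (Ω ∩ ball y s) := by
    calc m (ball y s) ≤ C * m (ball y (s / 2)) := hdbl
      _ = 2 * C * (2⁻¹ * m (ball y (s / 2))) := by
          rw [show 2 * (C : ℝ≥0∞) * (2⁻¹ * m (ball y (s / 2))) = (2 * 2⁻¹) * (C * m (ball y (s / 2)))
            by ring, h22, one_mul]
      _ ≤ 2 * C * m (Ω ∩ ball y s) := by
          gcongr
          exact hk1.le.trans (measure_mono (inter_subset_inter_right _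
            (ball_subset_ball (by linarith))))
  have h2 : m (ball y s) ≤ 2 * C * m (ball y s \ Ω) := by
    have h3 : m (ball y s) ≤ 2⁻¹ * m (ball y s) + m (ball y s \ Ω) := by
      calc m (ball y s) = m (ball y s ∩ Ω) + m (ball y s \ Ω) :=
            (measure_inter_add_sdiff _ hΩ.measurableSet).symm
        _ ≤ _ := by
            rw [inter_comm]
            gcongr
    have h4 : m (ball y s) = 2⁻¹ * m (ball y s) + 2⁻¹ * m (ball y s) := by
      rw [← add_mul, ENNReal.inv_two_add_inv_two, one_mul]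
    have h5 : 2⁻¹ * m (ball y s) ≤ m (ball y s \ Ω) := by
      rw [h4] at h3
      have h6 : 2⁻¹ * (2⁻¹ * m (ball y s) + 2⁻¹ * m (ball y s)) = 2⁻¹ * m (ball y s) := by
        rw [← h4]
      rw [h6] at h3
      exact (ENNReal.add_le_add_iff_left
        (ENNReal.mul_ne_top (by simp) (hfinb s))).1 h3
    calc m (ball y s) = 2 * (2⁻¹ * m (ball y s)) := by rw [← mul_assoc, h22, one_mul]
      _ ≤ 2 * C * m (ball y s \ Ω) := by
          refine mul_le_mul' ?_ h5
          exact le_mul_of_one_le_right zero_le hC'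
  have h3 : m (ball y s) ≤ 2 * C * min (m (Ω ∩ ball y s)) (m (ball y s \ Ω)) := by
    rcases min_choice (m (Ω ∩ ball y s)) (m (ball y s \ Ω)) with h4 | h4
    · rw [h4]
      exact h1
    · rw [h4]
      exact h2
  exact h3.trans (mul_le_mul' le_rfl hiso)

theorem decay {m : Measure X} [IsFiniteMeasureOnCompacts m] [SFinite m] [ProperSpace X]
    [TopologicalSpace.SeparableSpace X] {V Ω : Set X} {K : ℝ≥0}
    (hΩ : IsOpen Ω) (hq : QuasiIn m K Ω V)
    (hfin : tvOpen m (Ω.indicator 1) V < ⊤) {CP lam : ℝ} (hCP : 0 < CP) (hlam : 1 ≤ lam)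
    (hP : ∀ (f : X → ℝ) (g : X → ℝ≥0∞),
      (∀ (x : X) (r : ℝ), IntegrableOn f (ball x r) m) → IsUpperGradient f g →
      ∀ (x : X) (r : ℝ), 0 < r →
        ∫⁻ y in ball x r, ‖f y - ⨍ z in ball x r, f z ∂m‖ₑ ∂m ≤
          ENNReal.ofReal (CP * r) * ∫⁻ y in ball x (lam * r), g y ∂m)
    {C : ℝ≥0} (hC : 1 ≤ C) (hd : Doubling m C) {N : ℕ} (hN : 15 * lam ≤ 2 ^ N)
    (x : X) {R' R'' h : ℝ} (hh : 0 < h)
    (hV : closedBall x R'' ⊆ V)
    (hsmall : ∀ y ∈ Ω ∩ closedBall x R', m (Ω ∩ ball y h) ≤ 2⁻¹ * m (ball y h)) :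
    ENNReal.ofReal (R'' - (R' + 3 * lam * h)) * m (Ω ∩ closedBall x R') ≤
      C ^ N * (2 * C * ENNReal.ofReal (CP * h)) * (K * m (Ω ∩ closedBall x R'')) := by
  classical
  have hs : ∀ y : X, ∃ s : ℝ, y ∈ Ω ∩ closedBall x R' → (0 < s ∧ s ≤ h ∧
      m (ball y s) ≤ 2 * C * (ENNReal.ofReal (CP * s) *
      tvOpen m (Ω.indicator 1) (ball y (3 * lam * s)))) := by
    intro y
    by_cases hy : y ∈ Ω ∩ closedBall x R'
    · obtain ⟨s, h1, h2, h3⟩ := good_radius hΩ hCP hlam hP hC hd hy.1 hh (hsmall y hy)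
      exact ⟨s, fun _ => ⟨h1, h2, h3⟩⟩
    · exact ⟨0, fun h => absurd h hy⟩
  choose s hs using hs
  set T := Ω ∩ closedBall x R' with hT
  obtain ⟨u, hut, hud, hu⟩ := Vitali.exists_disjoint_subfamily_covering_enlargement_ball
    T (fun y => y) (fun y => 3 * lam * s y) (3 * lam * h) (fun y hy => by
      have := (hs y hy).2.1
      gcongr) 5 (by norm_num)
  have hpos : ∀ y ∈ T, 0 < 3 * lam * s y := fun y hy => by
    have := (hs y hy).1
    positivity
  have huc : u.Countable := hud.countable_of_isOpen (fun _ _ => isOpen_ball)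
    (fun y hy => ⟨y, mem_ball_self (hpos y (hut hy))⟩)
  have hcover : T ⊆ ⋃ b ∈ u, ball b (2 ^ N * s b) := by
    intro y hy
    obtain ⟨b, hb, hyb⟩ := hu y hy
    refine mem_iUnion₂.2 ⟨b, hb, ?_⟩
    refine ball_subset_ball ?_ (hyb (mem_ball_self (hpos y hy)))
    have h1 := (hs b (hut hb)).1
    have h2 : 5 * (3 * lam * s b) = 15 * lam * s b := by ring
    rw [h2]
    gcongr
  set P := tvOpen m (Ω.indicator 1) (ball x (R' + 3 * lam * h)) with hPdef
  have hsum : ∑' b : u, tvOpen m (Ω.indicator 1) (ball (b : X) (3 * lam * s b)) ≤ P := by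
    rw [ENNReal.tsum_eq_iSup_sum]
    refine iSup_le fun F => ?_
    refine sum_tvOpen_le F (fun b : u => ball (b : X) (3 * lam * s b)) (fun _ _ => isOpen_ball)
      (fun b _ => ?_) (fun a _ b _ hab => hud a.2 b.2 (fun h => hab (Subtype.ext h)))
    refine ball_subset_ball' ?_
    have h1 := (hs b (hut b.2)).2.1
    have h2 : dist (b : X) x ≤ R' := (hut b.2).2
    have h3 : 3 * lam * s b ≤ 3 * lam * h := by gcongr
    linarith
  have hmT : m T ≤ C ^ N * (2 * C * ENNReal.ofReal (CP * h)) * P := by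
    calc m T ≤ m (⋃ b ∈ u, ball b (2 ^ N * s b)) := measure_mono hcover
      _ ≤ ∑' b : u, m (ball (b : X) (2 ^ N * s b)) := measure_biUnion_le m huc _
      _ ≤ ∑' b : u, C ^ N * (2 * C * ENNReal.ofReal (CP * h)) *
          tvOpen m (Ω.indicator 1) (ball (b : X) (3 * lam * s b)) := by
          refine ENNReal.tsum_le_tsum fun b => ?_
          obtain ⟨h1, h2, h3⟩ := hs b (hut b.2)
          calc m (ball (b : X) (2 ^ N * s b)) ≤ C ^ N * m (ball (b : X) (s b)) := hd.pow b h1 N
            _ ≤ C ^ N * (2 * C * (ENNReal.ofReal (CP * h) *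
                tvOpen m (Ω.indicator 1) (ball (b : X) (3 * lam * s b)))) := by
                refine mul_le_mul' le_rfl (h3.trans ?_)
                gcongr
            _ = _ := by ring
      _ = C ^ N * (2 * C * ENNReal.ofReal (CP * h)) *
          ∑' b : u, tvOpen m (Ω.indicator 1) (ball (b : X) (3 * lam * s b)) := ENNReal.tsum_mul_left
      _ ≤ _ := by gcongr
  have hcac := caccioppoli (m := m) hΩ.measurableSet hq hfin x (ρ₁ := R' + 3 * lam * h) hV
  calc ENNReal.ofReal (R'' - (R' + 3 * lam * h)) * m T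
      ≤ ENNReal.ofReal (R'' - (R' + 3 * lam * h)) *
        (C ^ N * (2 * C * ENNReal.ofReal (CP * h)) * P) := by gcongr
    _ = C ^ N * (2 * C * ENNReal.ofReal (CP * h)) *
        (ENNReal.ofReal (R'' - (R' + 3 * lam * h)) * P) := by ring
    _ ≤ _ := by gcongr

/-- the iteration -/
theorem iterate {m : Measure X} [IsFiniteMeasureOnCompacts m] [SFinite m] [ProperSpace X]
    [TopologicalSpace.SeparableSpace X] {Ω : Set X} {K : ℝ≥0}
    (hΩ : IsOpen Ω) {CP lam : ℝ} (hCP : 0 < CP) (hlam : 1 ≤ lam)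
    (hP : ∀ (f : X → ℝ) (g : X → ℝ≥0∞),
      (∀ (x : X) (r : ℝ), IntegrableOn f (ball x r) m) → IsUpperGradient f g →
      ∀ (x : X) (r : ℝ), 0 < r →
        ∫⁻ y in ball x r, ‖f y - ⨍ z in ball x r, f z ∂m‖ₑ ∂m ≤
          ENNReal.ofReal (CP * r) * ∫⁻ y in ball x (lam * r), g y ∂m)
    {C : ℝ≥0} (hC : 2 ≤ C) (hd : Doubling m C) :
    ∃ e : ℝ≥0∞, 0 < e ∧ ∀ V : Set X, QuasiIn m K Ω V → tvOpen m (Ω.indicator 1) V < ⊤ →
      ∀ x ∈ closure Ω, ∀ R : ℝ, 0 < R → closedBall x R ⊆ V →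
        e * m (ball x R) ≤ m (Ω ∩ closedBall x R) := by
  have hC1 : 1 ≤ C := one_le_two.trans hC
  obtain ⟨N, hN⟩ := pow_unbounded_of_one_lt (15 * lam) (one_lt_two (α := ℝ))
  obtain ⟨j₀, hj₀⟩ := pow_unbounded_of_one_lt
    (24 * lam + 16 * (C : ℝ) ^ (N + 2) * K * CP) (one_lt_two (α := ℝ))
  have hCr : (1 : ℝ) ≤ C := by exact_mod_cast hC1
  have hj1 : 24 * lam ≤ 2 ^ j₀ := by
    have : 0 ≤ 16 * (C : ℝ) ^ (N + 2) * K * CP := by positivity
    linarith
  have hj2 : 16 * (C : ℝ) ^ (N + 2) * K * CP ≤ 2 ^ j₀ := by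
    have : 0 ≤ 24 * lam := by positivity
    linarith
  have hCe : (C : ℝ≥0∞) ≠ 0 := by
    have : (0 : ℝ≥0) < C := lt_of_lt_of_le one_pos hC1
    exact_mod_cast this.ne'
  have hfinb : ∀ (y : X) (s : ℝ), m (ball y s) ≠ ⊤ := fun y s =>
    ((measure_mono ball_subset_closedBall).trans_lt (isCompact_closedBall y s).measure_lt_top).ne
  refine ⟨(2 * (C : ℝ≥0∞) ^ (j₀ + 1))⁻¹, ?_, ?_⟩
  · rw [ENNReal.inv_pos]
    exact ENNReal.mul_ne_top (by simp) (ENNReal.pow_ne_top ENNReal.coe_ne_top)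
  intro V hq hfin x hx R hR hRV
  by_contra hcon
  rw [not_le] at hcon
  set e : ℝ≥0∞ := (2 * (C : ℝ≥0∞) ^ (j₀ + 1))⁻¹ with he
  set B := e * m (ball x R) with hB
  set Rj : ℕ → ℝ := fun j => R / 2 + R / 2 / 2 ^ j with hRj
  have hRjle : ∀ j, Rj j ≤ R := fun j => by
    have : R / 2 / 2 ^ j ≤ R / 2 := div_le_self (by positivity) (one_le_pow₀ one_le_two)
    simp only [hRj]
    linarith
  have hclaim : ∀ j : ℕ, (C : ℝ≥0∞) ^ j * m (Ω ∩ closedBall x (Rj j)) ≤ B := by
    intro j
    induction j with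
    | zero =>
      have h1 : Rj 0 = R := by
        simp only [hRj, pow_zero, div_one]
        ring
      rw [h1, pow_zero, one_mul]
      exact hcon.le
    | succ j ih =>
      set h : ℝ := R / 2 ^ (j + j₀) with hh
      have hhpos : 0 < h := by positivity
      have hdiff : Rj j - Rj (j + 1) = R / 2 ^ (j + 2) := by
        simp only [hRj]
        rw [pow_succ, pow_add]
        field_simp
        ring
      have h3 : 3 * lam * h ≤ R / 2 ^ (j + 3) := by
        rw [hh, pow_add, pow_add]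
        rw [le_div_iff₀ (by positivity)]
        have e1 : 3 * lam * (R / (2 ^ j * 2 ^ j₀)) * (2 ^ j * 2 ^ 3) = 24 * lam / 2 ^ j₀ * R := by
          field_simp
          ring
        rw [e1]
        have e2 : 24 * lam / 2 ^ j₀ ≤ 1 := by
          rw [div_le_one (by positivity)]
          exact hj1
        nlinarith
      have h4 : R / 2 ^ (j + 2) = R / 2 ^ (j + 3) + R / 2 ^ (j + 3) := by
        rw [pow_succ (2 : ℝ) (j + 2)]
        field_simp
        ring
      have h5 : 0 < R / 2 ^ (j + 3) := by positivity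
      have hRR : Rj (j + 1) + 3 * lam * h < Rj j := by linarith
      have hhR : Rj (j + 1) + h ≤ Rj j := by nlinarith
      have hsmall : ∀ y ∈ Ω ∩ closedBall x (Rj (j + 1)), m (Ω ∩ ball y h) ≤ 2⁻¹ * m (ball y h) := by
        intro y hy
        have hyx : dist y x ≤ Rj (j + 1) := hy.2
        have e1 : m (Ω ∩ ball y h) ≤ m (Ω ∩ closedBall x (Rj j)) := by
          refine measure_mono (inter_subset_inter_right _ ?_)
          exact (ball_subset_closedBall).trans (closedBall_subset_closedBall' (by linarith))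
        have e2 : m (ball x R) ≤ C ^ (j + j₀ + 1) * m (ball y h) := by
          refine (measure_mono ?_).trans (hd.pow y hhpos (j + j₀ + 1))
          refine ball_subset_ball' ?_
          have e3 : 2 ^ (j + j₀ + 1) * h = 2 * R := by
            rw [hh, pow_succ]
            field_simp
          rw [e3, dist_comm]
          linarith [hRjle (j + 1)]
        have e4 : (C : ℝ≥0∞) ^ j * m (Ω ∩ ball y h) ≤ C ^ j * (2⁻¹ * m (ball y h)) := by
          calc (C : ℝ≥0∞) ^ j * m (Ω ∩ ball y h) ≤ C ^ j * m (Ω ∩ closedBall x (Rj j)) := by gcongr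
            _ ≤ B := ih
            _ ≤ e * (C ^ (j + j₀ + 1) * m (ball y h)) := by
                rw [hB]
                gcongr
            _ = C ^ j * ((e * C ^ (j₀ + 1)) * m (ball y h)) := by ring
            _ = _ := by
                have e5 : e * C ^ (j₀ + 1) = 2⁻¹ := by
                  rw [he, ENNReal.mul_inv (Or.inl (by simp)) (Or.inl (by simp)), mul_assoc,
                    ENNReal.inv_mul_cancel (pow_ne_zero _ hCe) (ENNReal.pow_ne_top ENNReal.coe_ne_top),
                    mul_one]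
                rw [e5]
        exact (ENNReal.mul_le_mul_iff_right (pow_ne_zero _ hCe)
          (ENNReal.pow_ne_top ENNReal.coe_ne_top)).1 e4
      have hdec := decay (m := m) (K := K) hΩ hq hfin hCP hlam hP hC1 hd hN.le x hhpos
        ((closedBall_subset_closedBall (hRjle j)).trans hRV) hsmall
      set a : ℝ := R / 2 ^ (j + 3) with ha
      set v' := m (Ω ∩ closedBall x (Rj (j + 1))) with hv'
      set v := m (Ω ∩ closedBall x (Rj j)) with hv
      have e1 : ENNReal.ofReal a * v' ≤ C ^ N * (2 * C * ENNReal.ofReal (CP * h)) * (K * v) := by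
        refine le_trans ?_ hdec
        gcongr
        linarith
      have e2 : (C : ℝ≥0∞) * (C ^ N * (2 * C * ENNReal.ofReal (CP * h)) * K) ≤ ENNReal.ofReal a := by
        have e3 : (C : ℝ≥0∞) * (C ^ N * (2 * C * ENNReal.ofReal (CP * h)) * K) =
            ENNReal.ofReal ((C : ℝ) * ((C : ℝ) ^ N * (2 * C * (CP * h)) * K)) := by
          have hCo : (C : ℝ≥0∞) = ENNReal.ofReal (C : ℝ) := (ENNReal.ofReal_coe_nnreal).symm
          have hKo : (K : ℝ≥0∞) = ENNReal.ofReal (K : ℝ) := (ENNReal.ofReal_coe_nnreal).symm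
          have h2o : (2 : ℝ≥0∞) = ENNReal.ofReal 2 := by simp
          rw [hCo, hKo, h2o, ← ENNReal.ofReal_pow (by positivity), ← ENNReal.ofReal_mul (by positivity),
            ← ENNReal.ofReal_mul (by positivity), ← ENNReal.ofReal_mul (by positivity),
            ← ENNReal.ofReal_mul (by positivity), ← ENNReal.ofReal_mul (by positivity)]
        rw [e3]
        refine ENNReal.ofReal_le_ofReal ?_
        have e4 : (C : ℝ) * ((C : ℝ) ^ N * (2 * C * (CP * h)) * K) =
            (16 * (C : ℝ) ^ (N + 2) * K * CP / 2 ^ j₀) * a := by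
          rw [ha, hh, pow_add (2 : ℝ) j j₀, pow_add (2 : ℝ) j 3]
          field_simp
          ring
        rw [e4]
        have e5 : 16 * (C : ℝ) ^ (N + 2) * K * CP / 2 ^ j₀ ≤ 1 := by
          rw [div_le_one (by positivity)]
          exact hj2
        nlinarith
      have e3 : ENNReal.ofReal a * (C * v') ≤ ENNReal.ofReal a * v := by
        calc ENNReal.ofReal a * (C * v') = C * (ENNReal.ofReal a * v') := by ring
          _ ≤ C * (C ^ N * (2 * C * ENNReal.ofReal (CP * h)) * (K * v)) := by gcongr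
          _ = (C * (C ^ N * (2 * C * ENNReal.ofReal (CP * h)) * K)) * v := by ring
          _ ≤ _ := by gcongr
      have e4 : C * v' ≤ v := by
        refine (ENNReal.mul_le_mul_iff_right ?_ ENNReal.ofReal_ne_top).1 e3
        rw [ne_eq, ENNReal.ofReal_eq_zero, not_le]
        exact h5
      calc (C : ℝ≥0∞) ^ (j + 1) * v' = C ^ j * (C * v') := by ring
        _ ≤ C ^ j * v := by gcongr
        _ ≤ B := ih
  -- the conclusion
  have hBfin : B ≠ ⊤ := ENNReal.mul_ne_top (by
    rw [he]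
    exact ENNReal.inv_ne_top.2 (mul_ne_zero (by simp) (pow_ne_zero _ hCe))) (hfinb _ _)
  have hzero : m (Ω ∩ closedBall x (R / 2)) = 0 := by
    by_contra hne
    have h1 : ∀ j : ℕ, (2 : ℝ≥0∞) ^ j * m (Ω ∩ closedBall x (R / 2)) ≤ B := by
      intro j
      refine le_trans ?_ (hclaim j)
      have h2 : (2 : ℝ≥0∞) ≤ C := by exact_mod_cast hC
      refine mul_le_mul' (pow_le_pow_left' h2 j) (measure_mono (inter_subset_inter_right _
        (closedBall_subset_closedBall ?_)))
      have : 0 ≤ R / 2 / 2 ^ j := by positivity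
      simp only [hRj]
      linarith
    have h2 : Tendsto (fun j : ℕ => (2 : ℝ≥0∞) ^ j * m (Ω ∩ closedBall x (R / 2))) atTop (𝓝 ⊤) := by
      have h3 : Tendsto (fun j : ℕ => (2 : ℝ≥0∞) ^ j) atTop (𝓝 ⊤) :=
        ENNReal.tendsto_pow_atTop_nhds_top_iff.2 (by norm_num)
      have h4 := ENNReal.Tendsto.mul_const (b := m (Ω ∩ closedBall x (R / 2))) h3 (Or.inl (by simp))
      rwa [ENNReal.top_mul hne] at h4
    exact hBfin (top_le_iff.1 (le_of_tendsto' h2 h1))
  obtain ⟨y, hyΩ, hyx⟩ := Metric.mem_closure_iff.1 hx (R / 2) (by positivity)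
  obtain ⟨ε, hε, hεs⟩ := Metric.isOpen_iff.1 (hΩ.inter isOpen_ball) y
    ⟨hyΩ, show y ∈ ball x (R / 2) by rw [mem_ball, dist_comm]; exact hyx⟩
  have h1 : m (ball y ε) ≤ m (Ω ∩ closedBall x (R / 2)) :=
    measure_mono (hεs.trans (inter_subset_inter_right _ ball_subset_closedBall))
  rw [hzero] at h1
  exact (hd y ε hε).1.ne' (le_antisymm h1 zero_le)

/-- the boundary has measure zero -/
theorem null_boundary {m : Measure X} [IsFiniteMeasureOnCompacts m] [SFinite m] [ProperSpace X]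
    [TopologicalSpace.SeparableSpace X] {Ω : Set X} {K : ℝ≥0}
    (hΩ : IsOpen Ω) {CP lam : ℝ} (hCP : 0 < CP) (hlam : 1 ≤ lam)
    (hP : ∀ (f : X → ℝ) (g : X → ℝ≥0∞),
      (∀ (x : X) (r : ℝ), IntegrableOn f (ball x r) m) → IsUpperGradient f g →
      ∀ (x : X) (r : ℝ), 0 < r →
        ∫⁻ y in ball x r, ‖f y - ⨍ z in ball x r, f z ∂m‖ₑ ∂m ≤
          ENNReal.ofReal (CP * r) * ∫⁻ y in ball x (lam * r), g y ∂m)
    {C : ℝ≥0} (hC : 2 ≤ C) (hd : Doubling m C) (hq : LocallyQuasiminimal m K Ω)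
    (hf : LocallyFinitePerimeter m Ω) :
    m (closure Ω \ Ω) = 0 := by
  have : SecondCountableTopology X := UniformSpace.secondCountable_of_separable X
  have : IsUnifLocDoublingMeasure m := by
    refine ⟨⟨C ^ 2, ?_⟩⟩
    filter_upwards [self_mem_nhdsWithin] with ε hε x
    have hε' : 0 < ε := hε
    calc m (closedBall x (2 * ε)) ≤ m (ball x (2 ^ 2 * ε)) :=
          measure_mono (closedBall_subset_ball (by linarith))
      _ ≤ C ^ 2 * m (ball x ε) := hd.pow x hε' 2
      _ ≤ ((C ^ 2 : ℝ≥0) : ℝ≥0∞) * m (closedBall x ε) := by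
          push_cast
          gcongr
          exact ball_subset_closedBall
  obtain ⟨e, he, hden⟩ := iterate (m := m) (K := K) hΩ hCP hlam hP hC hd
  have hCe : (C : ℝ≥0∞) ≠ 0 := by
    have : (0 : ℝ≥0) < C := lt_of_lt_of_le two_pos hC
    exact_mod_cast this.ne'
  set S := closure Ω \ Ω with hS
  have hSm : MeasurableSet S := isClosed_closure.measurableSet.diff hΩ.measurableSet
  have hae := IsUnifLocDoublingMeasure.ae_tendsto_measure_inter_div m S 1
  by_contra hne
  have hex : ∃ x ∈ S, Tendsto (fun j : ℕ => 1) atTop (𝓝 (1 : ℕ)) ∧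
      ∀ (w : ℕ → X) (δ : ℕ → ℝ), Tendsto δ atTop (𝓝[>] 0) →
      (∀ᶠ j in atTop, x ∈ closedBall (w j) (1 * δ j)) →
      Tendsto (fun j => m (S ∩ closedBall (w j) (δ j)) / m (closedBall (w j) (δ j))) atTop (𝓝 1) := by
    have h1 : (ae (m.restrict S)).NeBot := by
      rw [ae_neBot]
      intro h0
      exact hne (Measure.restrict_eq_zero.1 h0)
    obtain ⟨x, h2, h3⟩ := ((ae_restrict_mem hSm).and hae).exists
    exact ⟨x, h2, tendsto_const_nhds, fun w δ hδ hw => h3 w δ hδ hw⟩
  obtain ⟨x, hxS, -, hlim⟩ := hex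
  obtain ⟨V, hV, hxV, hfin, hqV⟩ := exists_good hq hf x
  obtain ⟨r, hr, hrV⟩ := Metric.isOpen_iff.1 hV x hxV
  set δ : ℕ → ℝ := fun j => r / 2 / ((j : ℝ) + 1) with hδ
  have hδpos : ∀ j, 0 < δ j := fun j => by positivity
  have hδlt : ∀ j, δ j < r := fun j => by
    have h1 : δ j ≤ r / 2 := div_le_self (by positivity) (by
      have : (0 : ℝ) ≤ j := Nat.cast_nonneg j
      linarith)
    linarith
  have hδ0 : Tendsto δ atTop (𝓝[>] 0) := by
    rw [tendsto_nhdsWithin_iff]
    refine ⟨?_, Eventually.of_forall hδpos⟩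
    have h1 : Tendsto (fun k : ℕ => (k : ℝ) + 1) atTop atTop :=
      tendsto_natCast_atTop_atTop.atTop_add tendsto_const_nhds
    exact h1.const_div_atTop (r / 2)
  have h1 := hlim (fun _ => x) δ hδ0 (Eventually.of_forall fun j => by
    rw [one_mul]
    exact mem_closedBall_self (hδpos j).le)
  have h2 : ∀ j, m (S ∩ closedBall x (δ j)) / m (closedBall x (δ j)) + e / C ≤ 1 := by
    intro j
    have hb := hden V hqV hfin x hxS.1 (δ j) (hδpos j)
      ((closedBall_subset_ball (hδlt j)).trans hrV)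
    set M := m (closedBall x (δ j)) with hM
    have hMt : M ≠ ⊤ := (isCompact_closedBall x (δ j)).measure_lt_top.ne
    have hM0 : M ≠ 0 := ((hd x (δ j) (hδpos j)).1.trans_le
      (measure_mono ball_subset_closedBall)).ne'
    have h3 : M ≤ C * m (ball x (δ j)) := by
      refine (measure_mono (closedBall_subset_ball ?_)).trans (hd x (δ j) (hδpos j)).2
      have := hδpos j
      linarith
    have h4 : e / C * M ≤ m (Ω ∩ closedBall x (δ j)) := by
      refine le_trans ?_ hb
      calc e / C * M ≤ e / C * (C * m (ball x (δ j))) := by gcongr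
        _ = (e / C * C) * m (ball x (δ j)) := by ring
        _ = _ := by rw [ENNReal.div_mul_cancel hCe ENNReal.coe_ne_top]
    have h5 : m (S ∩ closedBall x (δ j)) + m (Ω ∩ closedBall x (δ j)) ≤ M := by
      rw [← measure_union ?_ (hΩ.measurableSet.inter measurableSet_closedBall)]
      · exact measure_mono (union_subset inter_subset_right inter_subset_right)
      · rw [Set.disjoint_left]
        intro y hy hy'
        exact hy.1.2 hy'.1
    have h6 : (m (S ∩ closedBall x (δ j)) / M + e / C) * M ≤ 1 * M := by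
      rw [add_mul, ENNReal.div_mul_cancel hM0 hMt, one_mul]
      exact (add_le_add le_rfl h4).trans h5
    exact (ENNReal.mul_le_mul_iff_left hM0 hMt).1 h6
  have h3 : Tendsto (fun j => m (S ∩ closedBall x (δ j)) / m (closedBall x (δ j)) + e / C) atTop
      (𝓝 (1 + e / C)) := h1.add tendsto_const_nhds
  have h4 : 1 + e / C ≤ 1 := le_of_tendsto' h3 h2
  have h5 : 0 < e / C := ENNReal.div_pos he.ne' ENNReal.coe_ne_top
  exact absurd h4 (not_le.2 (ENNReal.lt_add_right ENNReal.one_ne_top h5.ne'))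

end Pool.Agent.H60.BV
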