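import Pool.Agent.H60.BV.Glue

set_option autoImplicit false
set_option linter.unusedSectionVars false

open MeasureTheory Metric Set Filter Topology
open scoped ENNReal NNReal

namespace Pool.Agent.H60.BV

variable {X : Type*} [MetricSpace X] [MeasurableSpace X] [BorelSpace X]

/-- the perimeter of `Ω` in the superlevel sets of `u` -/
noncomputable def per (m : Measure X) (Ω : Set X) (u : X → ℝ) (t : ℝ) : ℝ≥0∞ :=
  tvOpen m (Ω.indicator 1) {x | t < u x}

theorem per_antitone (m : Measure X) (Ω : Set X) (u : X → ℝ) : Antitone (per m Ω u) := by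
  intro a b hab
  refine tvOpen_mono fun x hx => ?_
  have : b < u x := hx
  exact lt_of_le_of_lt hab this

theorem lipa_one_sub_le {f : X → ℝ} {x : X} : lipa (fun y => 1 - f y) x ≤ lipa f x := by
  have h : LipschitzWith 1 (fun t : ℝ => 1 - t) := by
    refine LipschitzWith.of_dist_le_mul fun s t => ?_
    rw [Real.dist_eq, Real.dist_eq, NNReal.coe_one, one_mul]
    have : 1 - s - (1 - t) = -(s - t) := by ring
    rw [this, abs_neg]
  simpa using lipa_comp_le (f := f) (x := x) h

theorem slice_aux {m : Measure X} [IsFiniteMeasureOnCompacts m] {V Ω : Set X} {u : X → ℝ} {L : ℝ≥0}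
    (h : Cut V u L) (hΩ : MeasurableSet Ω) {s t : ℝ} (hs : 0 < s) {ε : ℕ → ℝ}
    (hε : ∀ k, 0 < ε k) (hεs : ∀ k, ε k < t - s) (hεa : Antitone ε)
    (hε0 : Tendsto ε atTop (𝓝 0)) {c : ℝ≥0∞} (hc : per m Ω u s < c) :
    tvOpen m ((Ω ∩ {x | u x < t}).indicator 1) {x | s < u x} + per m Ω u t ≤
      liminf (fun k : ℕ => c + (((k : ℝ≥0∞) + 1)⁻¹ + ENNReal.ofReal (1 / ε k) *
        ∫⁻ x in Ω ∩ {x | t - ε k ≤ u x ∧ u x ≤ t}, lipa u x ∂m)) atTop := by
  have hst : s < t := by
    have h1 := hε 0
    have h2 := hεs 0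
    linarith
  have hU : IsOpen {x | s < u x} := h.isOpen_gt s
  obtain ⟨g, hg, hgc, hg01, hgi⟩ := exists_seq01 hU hc
  set C : ℕ → Set X := fun k => {x | t - ε k ≤ u x ∧ u x ≤ t} with hC
  have hCpos : ∀ k, s < t - ε k := fun k => by
    have h2 := hεs k
    linarith
  have hCc : ∀ k, IsCompact (C k) := fun k =>
    (h.compact_ge (hs.trans (hCpos k))).inter_right (isClosed_le h.cont continuous_const)
  have hCU : ∀ k, C k ⊆ {x | s < u x} := fun k x hx => lt_of_lt_of_le (hCpos k) hx.1
  -- the diagonal choice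
  have hN : ∀ k : ℕ, ∃ n : ℕ, k ≤ n ∧ ENNReal.ofReal (1 / ε k) * (L *
      ∫⁻ x in C k, ‖g n x - Ω.indicator (1 : X → ℝ) x‖ₑ ∂m) ≤ ((k : ℝ≥0∞) + 1)⁻¹ := by
    intro k
    have h1 := hgc.compact (hCc k) (hCU k)
    have h2 := ENNReal.Tendsto.const_mul (ENNReal.Tendsto.const_mul h1
      (Or.inr (ENNReal.coe_ne_top (r := L)))) (Or.inr (ENNReal.ofReal_ne_top (r := 1 / ε k)))
    rw [mul_zero, mul_zero] at h2
    have h3 : (0 : ℝ≥0∞) < ((k : ℝ≥0∞) + 1)⁻¹ := by
      rw [ENNReal.inv_pos]
      exact ENNReal.add_ne_top.2 ⟨ENNReal.natCast_ne_top k, ENNReal.one_ne_top⟩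
    obtain ⟨n, hn1, hn2⟩ := ((h2.eventually_lt_const h3).and (eventually_ge_atTop k)).exists
    exact ⟨n, hn2, hn1.le⟩
  choose N hN1 hN2 using hN
  set φ : ℕ → X → ℝ := fun k x => 1 - ramp u (t - ε k) t x with hφ
  have hlt : ∀ k, t - ε k < t := fun k => by
    have := hε k
    linarith
  have hφl : ∀ k x, lipa (φ k) x ≤ ENNReal.ofReal (1 / ε k) * lipa u x := by
    intro k x
    refine lipa_one_sub_le.trans ((ramp_lip (hlt k) x).trans (le_of_eq ?_))
    congr 3
    ring
  have hφt : ∀ k x, lipa (φ k) x < ⊤ := fun k x =>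
    (hφl k x).trans_lt (ENNReal.mul_lt_top ENNReal.ofReal_lt_top (h.fin x))
  set v : ℕ → X → ℝ := fun k x => g (N k) x * φ k x with hv
  have hφ1 : ∀ k x, u x ≤ t - ε k → φ k x = 1 := fun k x hx => by
    simp only [hφ, ramp_eq_zero (hlt k) hx, sub_zero]
  have hφ0 : ∀ k x, t ≤ u x → φ k x = 0 := fun k x hx => by
    simp only [hφ, ramp_eq_one (hlt k) hx, sub_self]
  have hφn : ∀ k x, 0 ≤ φ k x := fun k x => by
    have := ramp_le_one u (t - ε k) t x
    simp only [hφ]
    linarith
  have hφle : ∀ k x, φ k x ≤ 1 := fun k x => by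
    have := ramp_nonneg u (t - ε k) t x
    simp only [hφ]
    linarith
  -- the pointwise bound
  have hpt : ∀ k, ∀ x ∈ {x | s < u x}, lipa (v k) x + {x | t < u x}.indicator (lipa (g (N k))) x ≤
      lipa (g (N k)) x +
      (C k).indicator (fun x => ENNReal.ofReal (1 / ε k) * (L *
        ‖g (N k) x - Ω.indicator (1 : X → ℝ) x‖ₑ)) x +
      (Ω ∩ C k).indicator (fun x => ENNReal.ofReal (1 / ε k) * lipa u x) x := by
    intro k x hx
    rcases lt_or_ge (u x) (t - ε k) with h1 | h1
    · have h2 : lipa (v k) x = lipa (g (N k)) x := by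
        refine lipa_congr ?_
        filter_upwards [(h.isOpen_lt' (t - ε k)).mem_nhds h1] with y hy
        simp only [hv]
        rw [hφ1 k y (le_of_lt hy), mul_one]
      have h3 : x ∉ {x | t < u x} := fun h3 => by
        have h4 : t < u x := h3
        have := hε k
        linarith
      rw [h2, indicator_of_notMem h3, add_zero, add_assoc]
      exact le_self_add
    rcases lt_or_ge t (u x) with h2 | h2
    · have h3 : lipa (v k) x = 0 := by
        refine lipa_const_near (c := 0) ?_
        filter_upwards [(h.isOpen_gt t).mem_nhds h2] with y hy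
        simp only [hv]
        rw [hφ0 k y (le_of_lt hy), mul_zero]
      rw [h3, zero_add, indicator_of_mem (show x ∈ {x | t < u x} from h2), add_assoc]
      exact le_self_add
    · have h3 : x ∈ C k := ⟨h1, h2⟩
      have h4 : x ∉ {x | t < u x} := fun h4 => by
        have h5 : t < u x := h4
        linarith
      rw [indicator_of_notMem h4, add_zero, indicator_of_mem h3]
      have h5 : (Ω ∩ C k).indicator (fun x => ENNReal.ofReal (1 / ε k) * lipa u x) x =
          ENNReal.ofReal (1 / ε k) * (‖Ω.indicator (1 : X → ℝ) x‖ₑ * lipa u x) := by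
        by_cases h6 : x ∈ Ω
        · rw [indicator_of_mem (show x ∈ Ω ∩ C k from ⟨h6, h3⟩), indicator_of_mem h6]
          simp
        · rw [indicator_of_notMem (fun h7 => h6 h7.1), indicator_of_notMem h6]
          simp
      rw [h5]
      have e1 : ‖g (N k) x‖ₑ ≤ ‖g (N k) x - Ω.indicator (1 : X → ℝ) x‖ₑ +
          ‖Ω.indicator (1 : X → ℝ) x‖ₑ := by
        refine le_trans (le_of_eq ?_) (enorm_add_le _ _)
        rw [sub_add_cancel]
      have e2 : ‖φ k x‖ₑ ≤ 1 := enorm_le_one (hφn k x) (hφle k x)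
      calc lipa (v k) x ≤ ‖g (N k) x‖ₑ * lipa (φ k) x + ‖φ k x‖ₑ * lipa (g (N k)) x :=
            lipa_mul_le (hg _ x hx) (hφt k x)
        _ ≤ (‖g (N k) x - Ω.indicator (1 : X → ℝ) x‖ₑ + ‖Ω.indicator (1 : X → ℝ) x‖ₑ) *
            (ENNReal.ofReal (1 / ε k) * lipa u x) + 1 * lipa (g (N k)) x := by
            gcongr
            exact hφl k x
        _ = lipa (g (N k)) x + ENNReal.ofReal (1 / ε k) * (lipa u x *
            ‖g (N k) x - Ω.indicator (1 : X → ℝ) x‖ₑ) +
            ENNReal.ofReal (1 / ε k) * (‖Ω.indicator (1 : X → ℝ) x‖ₑ * lipa u x) := by ring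
        _ ≤ _ := by
            gcongr
            exact h.lip x
  -- the integrals
  have hint : ∀ k, ∫⁻ x in {x | s < u x}, lipa (v k) x ∂m + ∫⁻ x in {x | t < u x}, lipa (g (N k)) x ∂m ≤
      c + (((k : ℝ≥0∞) + 1)⁻¹ + ENNReal.ofReal (1 / ε k) * ∫⁻ x in Ω ∩ C k, lipa u x ∂m) := by
    intro k
    have hCm : MeasurableSet (C k) := (hCc k).isClosed.measurableSet
    have htm : MeasurableSet {x | t < u x} := (h.isOpen_gt t).measurableSet
    have i1 : ∫⁻ x in {x | s < u x}, {x | t < u x}.indicator (lipa (g (N k))) x ∂m =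
        ∫⁻ x in {x | t < u x}, lipa (g (N k)) x ∂m := by
      rw [lintegral_indicator htm, Measure.restrict_restrict htm,
        inter_eq_self_of_subset_left]
      intro x hx
      have : t < u x := hx
      exact hst.trans this
    have i2 : ∫⁻ x in {x | s < u x}, (C k).indicator (fun x => ENNReal.ofReal (1 / ε k) * (L *
        ‖g (N k) x - Ω.indicator (1 : X → ℝ) x‖ₑ)) x ∂m ≤ ((k : ℝ≥0∞) + 1)⁻¹ := by
      rw [lintegral_indicator hCm, Measure.restrict_restrict hCm,
        inter_eq_self_of_subset_left (hCU k), lintegral_const_mul' _ _ ENNReal.ofReal_ne_top,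
        lintegral_const_mul' _ _ ENNReal.coe_ne_top]
      exact hN2 k
    have i3 : ∫⁻ x in {x | s < u x}, (Ω ∩ C k).indicator
        (fun x => ENNReal.ofReal (1 / ε k) * lipa u x) x ∂m =
        ENNReal.ofReal (1 / ε k) * ∫⁻ x in Ω ∩ C k, lipa u x ∂m := by
      rw [lintegral_indicator (hΩ.inter hCm), Measure.restrict_restrict (hΩ.inter hCm),
        inter_eq_self_of_subset_left (inter_subset_right.trans (hCU k)),
        lintegral_const_mul' _ _ ENNReal.ofReal_ne_top]
    have mm1 : Measurable (fun x => lipa (v k) x) := measurable_lipa _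
    have mm2 : Measurable (fun x => lipa (g (N k)) x) := measurable_lipa _
    have mm3 : Measurable (fun x => (Ω ∩ C k).indicator
        (fun x => ENNReal.ofReal (1 / ε k) * lipa u x) x) :=
      ((measurable_lipa u).const_mul _).indicator (hΩ.inter hCm)
    calc ∫⁻ x in {x | s < u x}, lipa (v k) x ∂m + ∫⁻ x in {x | t < u x}, lipa (g (N k)) x ∂m
        = ∫⁻ x in {x | s < u x}, (lipa (v k) x + {x | t < u x}.indicator (lipa (g (N k))) x) ∂m := by
          rw [lintegral_add_left mm1, i1]
      _ ≤ ∫⁻ x in {x | s < u x}, (lipa (g (N k)) x +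
          (C k).indicator (fun x => ENNReal.ofReal (1 / ε k) * (L *
          ‖g (N k) x - Ω.indicator (1 : X → ℝ) x‖ₑ)) x +
          (Ω ∩ C k).indicator (fun x => ENNReal.ofReal (1 / ε k) * lipa u x) x) ∂m :=
          setLIntegral_mono' hU.measurableSet (hpt k)
      _ = ∫⁻ x in {x | s < u x}, lipa (g (N k)) x ∂m + ∫⁻ x in {x | s < u x},
          (C k).indicator (fun x => ENNReal.ofReal (1 / ε k) * (L *
          ‖g (N k) x - Ω.indicator (1 : X → ℝ) x‖ₑ)) x ∂m +
          ENNReal.ofReal (1 / ε k) * ∫⁻ x in Ω ∩ C k, lipa u x ∂m := by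
          rw [lintegral_add_right _ mm3, lintegral_add_left mm2, i3]
      _ ≤ c + ((k : ℝ≥0∞) + 1)⁻¹ + ENNReal.ofReal (1 / ε k) * ∫⁻ x in Ω ∩ C k, lipa u x ∂m := by
          gcongr
          exact hgi _
      _ = _ := by rw [add_assoc]
  have hNt : Tendsto N atTop atTop := tendsto_atTop_mono hN1 tendsto_id
  -- convergence of `v`
  have hm0 : Tendsto (fun k => m {x | t - ε k < u x ∧ u x < t}) atTop (𝓝 0) := by
    have hmeas : ∀ k, MeasurableSet {x | t - ε k < u x ∧ u x < t} := fun k =>
      ((h.isOpen_gt _).inter (h.isOpen_lt' t)).measurableSet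
    have h1 := tendsto_measure_iInter_atTop (μ := m) (s := fun k => {x | t - ε k < u x ∧ u x < t})
      (fun k => (hmeas k).nullMeasurableSet) (by
        intro i j hij x hx
        exact ⟨lt_of_le_of_lt (by have := hεa hij; linarith) hx.1, hx.2⟩)
      ⟨0, by
        refine ((measure_mono ?_).trans_lt (hCc 0).measure_lt_top).ne
        intro x hx
        exact ⟨le_of_lt hx.1, le_of_lt hx.2⟩⟩
    have h2 : (⋂ k, {x | t - ε k < u x ∧ u x < t}) = ∅ := by
      rw [eq_empty_iff_forall_notMem]
      intro x hx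
      rw [mem_iInter] at hx
      have h3 : Tendsto (fun k => t - ε k) atTop (𝓝 (t - 0)) := hε0.const_sub t
      rw [sub_zero] at h3
      have h4 : t ≤ u x := le_of_tendsto' h3 fun k => (hx k).1.le
      exact absurd (hx 0).2 (not_lt.2 h4)
    rw [h2, measure_empty] at h1
    exact h1
  have hconv : ConvLoc m {x | s < u x} v ((Ω ∩ {x | u x < t}).indicator 1) := by
    intro x hx
    obtain ⟨W, hW, hlim⟩ := (hgc.comp hNt) x hx
    have hlim2 := hlim.add hm0
    rw [add_zero] at hlim2
    refine ⟨interior W, isOpen_interior.mem_nhds (mem_interior_iff_mem_nhds.2 hW),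
      tendsto_of_tendsto_of_tendsto_of_le_of_le tendsto_const_nhds hlim2
      (fun n => zero_le) fun k => ?_⟩
    have hWm : MeasurableSet (interior W ∩ {x | s < u x}) :=
      (isOpen_interior.inter hU).measurableSet
    calc ∫⁻ y in interior W ∩ {x | s < u x},
          ‖v k y - (Ω ∩ {x | u x < t}).indicator (1 : X → ℝ) y‖ₑ ∂m
        ≤ ∫⁻ y in interior W ∩ {x | s < u x}, (‖g (N k) y - Ω.indicator (1 : X → ℝ) y‖ₑ +
          {x | t - ε k < u x ∧ u x < t}.indicator 1 y) ∂m := by
          refine lintegral_mono fun y => ?_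
          have hgb := hg01 (N k) y
          rcases le_or_gt (u y) (t - ε k) with h1 | h1
          · have e1 : (Ω ∩ {x | u x < t}).indicator (1 : X → ℝ) y = Ω.indicator (1 : X → ℝ) y := by
              have h2 : u y < t := lt_of_le_of_lt h1 (hlt k)
              by_cases h3 : y ∈ Ω
              · rw [indicator_of_mem (show y ∈ Ω ∩ {x | u x < t} from ⟨h3, h2⟩),
                  indicator_of_mem h3]
              · rw [indicator_of_notMem (fun h4 => h3 h4.1), indicator_of_notMem h3]
            simp only [hv]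
            rw [e1, hφ1 k y h1, mul_one]
            exact le_self_add
          rcases le_or_gt t (u y) with h2 | h2
          · have e1 : y ∉ Ω ∩ {x | u x < t} := fun h3 => absurd h3.2 (not_lt.2 h2)
            simp only [hv]
            rw [indicator_of_notMem e1, hφ0 k y h2, mul_zero, sub_zero, enorm_zero]
            exact zero_le
          · rw [indicator_of_mem (show y ∈ {x | t - ε k < u x ∧ u x < t} from ⟨h1, h2⟩)]
            refine le_trans ?_ le_add_self
            have e1 := indicator_mem (Ω ∩ {x | u x < t}) y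
            have e2 : 0 ≤ v k y := mul_nonneg hgb.1 (hφn k y)
            have e3 : v k y ≤ 1 := mul_le_one₀ hgb.2 (hφn k y) (hφle k y)
            rw [← ofReal_norm]
            refine ENNReal.ofReal_le_one.2 ?_
            rw [Real.norm_eq_abs, abs_le]
            constructor <;> linarith [e1.1, e1.2]
      _ = ∫⁻ y in interior W ∩ {x | s < u x}, ‖g (N k) y - Ω.indicator (1 : X → ℝ) y‖ₑ ∂m +
          ∫⁻ y in interior W ∩ {x | s < u x}, {x | t - ε k < u x ∧ u x < t}.indicator 1 y ∂m :=
          lintegral_add_cont hΩ hWm (A := {x | s < u x}) inter_subset_right (hg (N k)) _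
      _ ≤ _ := by
          refine add_le_add (lintegral_mono_set (inter_subset_inter_left _ interior_subset)) ?_
          have hmk : MeasurableSet {x | t - ε k < u x ∧ u x < t} :=
            ((h.isOpen_gt (t - ε k)).inter (h.isOpen_lt' t)).measurableSet
          rw [lintegral_indicator_one hmk]
          exact Measure.restrict_apply_le _ _
  have hlv : ∀ k, LocallyLipschitzOn {x | s < u x} (v k) := fun k =>
    (locallyLipschitzOn_iff hU).2 fun x hx => (lipa_mul_le (hg _ x hx) (hφt k x)).trans_lt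
      (ENNReal.add_lt_top.2 ⟨ENNReal.mul_lt_top enorm_lt_top (hφt k x),
        ENNReal.mul_lt_top enorm_lt_top (hg _ x hx)⟩)
  have ht0 : IsOpen {x | t < u x} := h.isOpen_gt t
  have hsub : {x | t < u x} ⊆ {x | s < u x} := fun x hx => by
    have : t < u x := hx
    exact hst.trans this
  have l1 := tvOpen_le_liminf hlv hconv
  have l2 : per m Ω u t ≤ liminf (fun k => ∫⁻ x in {x | t < u x}, lipa (g (N k)) x ∂m) atTop :=
    tvOpen_le_liminf (fun k => (locallyLipschitzOn_iff ht0).2 fun x hx => hg _ x (hsub hx))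
      ((hgc.comp hNt).mono hsub)
  exact ((add_le_add l1 l2).trans (add_liminf_le _ _)).trans
    (liminf_le_liminf (Eventually.of_forall hint))

end Pool.Agent.H60.BV
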