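import Pool.Agent.H60.BV.Basic

set_option autoImplicit false
set_option linter.unusedSectionVars false

open MeasureTheory Metric Set Filter Topology
open scoped ENNReal NNReal

namespace Pool.Agent.H60.BV

variable {X : Type*} [MetricSpace X] [MeasurableSpace X] [BorelSpace X]

theorem ConvLoc.mono {m : Measure X} {A A' : Set X} {u : ℕ → X → ℝ} {f : X → ℝ}
    (h : ConvLoc m A u f) (hA : A' ⊆ A) : ConvLoc m A' u f := by
  intro x hx
  obtain ⟨U, hU, ht⟩ := h x (hA hx)
  refine ⟨U, hU, tendsto_of_tendsto_of_tendsto_of_le_of_le tendsto_const_nhds ht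
    (fun n => zero_le) fun n => ?_⟩
  exact lintegral_mono_set (inter_subset_inter_right U hA)

theorem ConvLoc.comp {m : Measure X} {A : Set X} {u : ℕ → X → ℝ} {f : X → ℝ}
    (h : ConvLoc m A u f) {φ : ℕ → ℕ} (hφ : Tendsto φ atTop atTop) :
    ConvLoc m A (fun n => u (φ n)) f := by
  intro x hx
  obtain ⟨U, hU, ht⟩ := h x hx
  exact ⟨U, hU, ht.comp hφ⟩

theorem ConvLoc.le {m : Measure X} {A : Set X} {u v : ℕ → X → ℝ} {f g : X → ℝ}
    (h : ConvLoc m A u f) (hA : MeasurableSet A)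
    (hle : ∀ n, ∀ x ∈ A, ‖v n x - g x‖ₑ ≤ ‖u n x - f x‖ₑ) : ConvLoc m A v g := by
  intro x hx
  obtain ⟨U, hU, ht⟩ := h x hx
  refine ⟨interior U, isOpen_interior.mem_nhds (mem_interior_iff_mem_nhds.2 hU),
    tendsto_of_tendsto_of_tendsto_of_le_of_le tendsto_const_nhds ht
    (fun n => zero_le) fun n => ?_⟩
  calc ∫⁻ y in interior U ∩ A, ‖v n y - g y‖ₑ ∂m
      ≤ ∫⁻ y in interior U ∩ A, ‖u n y - f y‖ₑ ∂m :=
        setLIntegral_mono' (isOpen_interior.measurableSet.inter hA) fun y hy => hle n y hy.2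
    _ ≤ _ := lintegral_mono_set (inter_subset_inter_left _ interior_subset)

theorem ConvLoc.compact {m : Measure X} {A K : Set X} {u : ℕ → X → ℝ} {f : X → ℝ}
    (h : ConvLoc m A u f) (hK : IsCompact K) (hKA : K ⊆ A) :
    Tendsto (fun n => ∫⁻ y in K, ‖u n y - f y‖ₑ ∂m) atTop (𝓝 0) := by
  have key : Tendsto (fun n => ∫⁻ y in K ∩ A, ‖u n y - f y‖ₑ ∂m) atTop (𝓝 0) := by
    refine hK.induction_on (p := fun s =>
      Tendsto (fun n => ∫⁻ y in s ∩ A, ‖u n y - f y‖ₑ ∂m) atTop (𝓝 0)) ?_ ?_ ?_ ?_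
    · simp
    · intro s t hst ht
      exact tendsto_of_tendsto_of_tendsto_of_le_of_le tendsto_const_nhds ht
        (fun n => zero_le) fun n => lintegral_mono_set (inter_subset_inter_left _ hst)
    · intro s t hs ht
      have := hs.add ht
      rw [add_zero] at this
      refine tendsto_of_tendsto_of_tendsto_of_le_of_le tendsto_const_nhds this
        (fun n => zero_le) fun n => ?_
      simp only
      rw [union_inter_distrib_right]
      exact lintegral_union_le _ _ _
    · intro x hx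
      obtain ⟨U, hU, ht⟩ := h x (hKA hx)
      exact ⟨U, mem_nhdsWithin_of_mem_nhds hU, ht⟩
  rwa [inter_eq_self_of_subset_left hKA] at key

theorem tvOpen_le_liminf {m : Measure X} {A : Set X} {f : X → ℝ} {u : ℕ → X → ℝ}
    (hu : ∀ n, LocallyLipschitzOn A (u n)) (h : ConvLoc m A u f) :
    tvOpen m f A ≤ liminf (fun n => ∫⁻ x in A, lipa (u n) x ∂m) atTop :=
  iInf₂_le_of_le u hu (iInf_le _ h)

theorem tvOpen_mono {m : Measure X} {A A' : Set X} {f : X → ℝ} (h : A' ⊆ A) :
    tvOpen m f A' ≤ tvOpen m f A := by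
  refine le_iInf fun u => le_iInf fun hu => le_iInf fun hc => ?_
  refine (tvOpen_le_liminf (fun n => (hu n).mono h) (hc.mono h)).trans ?_
  exact liminf_le_liminf (Eventually.of_forall fun n => lintegral_mono_set h)

theorem tv_eq {m : Measure X} {A : Set X} {f : X → ℝ} (hA : IsOpen A) :
    tv m f A = tvOpen m f A :=
  le_antisymm (iInf₂_le_of_le A hA (iInf_le _ Subset.rfl))
    (le_iInf fun _ => le_iInf fun _ => le_iInf fun hB => tvOpen_mono hB)

theorem tvOpen_empty {m : Measure X} {f : X → ℝ} : tvOpen m f ∅ = 0 := by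
  refine le_antisymm ?_ zero_le
  refine (tvOpen_le_liminf (u := fun _ => 0) (fun n => ?_) (fun x hx => hx.elim)).trans ?_
  · intro x hx
    exact hx.elim
  · simp

/-- a near-optimal sequence -/
theorem exists_seq {m : Measure X} {A : Set X} {f : X → ℝ} {c : ℝ≥0∞} (h : tvOpen m f A < c) :
    ∃ u : ℕ → X → ℝ, (∀ n, LocallyLipschitzOn A (u n)) ∧ ConvLoc m A u f ∧
      ∀ n, ∫⁻ x in A, lipa (u n) x ∂m ≤ c := by
  unfold tvOpen at h
  simp only [iInf_lt_iff] at h
  obtain ⟨u, hu, hc, hlt⟩ := h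
  have hf := frequently_lt_of_liminf_lt (by isBoundedDefault) hlt
  obtain ⟨φ, hφ, hφ'⟩ := extraction_of_frequently_atTop hf
  exact ⟨fun n => u (φ n), fun n => hu _, hc.comp hφ.tendsto_atTop, fun n => (hφ' n).le⟩

/-- truncation to `[0,1]` -/
noncomputable def clamp (t : ℝ) : ℝ := max 0 (min 1 t)

theorem clamp_nonneg (t : ℝ) : 0 ≤ clamp t := le_max_left _ _

theorem clamp_le_one (t : ℝ) : clamp t ≤ 1 := max_le zero_le_one (min_le_left _ _)

theorem clamp_lipschitz : LipschitzWith 1 clamp :=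
  (LipschitzWith.id.const_min 1).const_max 0

theorem clamp_of_mem {t : ℝ} (h0 : 0 ≤ t) (h1 : t ≤ 1) : clamp t = t := by
  unfold clamp
  rw [min_eq_right h1, max_eq_right h0]

theorem lipa_clamp_le {f : X → ℝ} {x : X} : lipa (fun y => clamp (f y)) x ≤ lipa f x := by
  simpa using lipa_comp_le (f := f) (x := x) clamp_lipschitz

theorem indicator_mem (Ω : Set X) (x : X) :
    0 ≤ Ω.indicator (1 : X → ℝ) x ∧ Ω.indicator (1 : X → ℝ) x ≤ 1 := by
  by_cases h : x ∈ Ω <;> simp [h]

/-- a near-optimal sequence for a perimeter, with values in `[0,1]` -/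
theorem exists_seq01 {m : Measure X} {A Ω : Set X} (hA : IsOpen A) {c : ℝ≥0∞}
    (h : tvOpen m (Ω.indicator 1) A < c) :
    ∃ u : ℕ → X → ℝ, (∀ n, ∀ x ∈ A, lipa (u n) x < ⊤) ∧ ConvLoc m A u (Ω.indicator 1) ∧
      (∀ n x, 0 ≤ u n x ∧ u n x ≤ 1) ∧ ∀ n, ∫⁻ x in A, lipa (u n) x ∂m ≤ c := by
  obtain ⟨u, hu, hc, hle⟩ := exists_seq h
  refine ⟨fun n x => clamp (u n x), fun n x hx => ?_, ?_, fun n x => ⟨clamp_nonneg _, clamp_le_one _⟩,
    fun n => ?_⟩
  · exact lipa_clamp_le.trans_lt ((locallyLipschitzOn_iff hA).1 (hu n) x hx)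
  · refine hc.le hA.measurableSet fun n x _ => ?_
    have h1 := indicator_mem Ω x
    have h2 := clamp_lipschitz (u n x) (Ω.indicator (1 : X → ℝ) x)
    rw [clamp_of_mem h1.1 h1.2, ENNReal.coe_one, one_mul, edist_eq_enorm_sub, edist_eq_enorm_sub] at h2
    exact h2
  · exact (lintegral_mono fun x => lipa_clamp_le).trans (hle n)

theorem add_liminf_le (a b : ℕ → ℝ≥0∞) :
    liminf a atTop + liminf b atTop ≤ liminf (fun n => a n + b n) atTop := by
  simp only [liminf_eq_iSup_iInf_of_nat]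
  rw [ENNReal.iSup_add_iSup_of_monotone]
  · refine iSup_mono fun n => ?_
    refine le_iInf₂ fun i hi => add_le_add (iInf₂_le i hi) (iInf₂_le i hi)
  · intro n m h
    exact biInf_mono fun i hi => h.trans hi
  · intro n m h
    exact biInf_mono fun i hi => h.trans hi

/-- superadditivity on finitely many disjoint open subsets -/
theorem sum_tvOpen_le {m : Measure X} {f : X → ℝ} {A : Set X} {ι : Type*} (s : Finset ι)
    (B : ι → Set X) (hB : ∀ i ∈ s, IsOpen (B i)) (hBA : ∀ i ∈ s, B i ⊆ A)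
    (hd : (s : Set ι).PairwiseDisjoint B) :
    ∑ i ∈ s, tvOpen m f (B i) ≤ tvOpen m f A := by
  refine le_iInf fun u => le_iInf fun hu => le_iInf fun hc => ?_
  have h1 : ∀ i ∈ s, tvOpen m f (B i) ≤ liminf (fun n => ∫⁻ x in B i, lipa (u n) x ∂m) atTop :=
    fun i hi => tvOpen_le_liminf (fun n => (hu n).mono (hBA i hi)) (hc.mono (hBA i hi))
  have h2 : ∀ t : Finset ι, ∑ i ∈ t, liminf (fun n => ∫⁻ x in B i, lipa (u n) x ∂m) atTop ≤
      liminf (fun n => ∑ i ∈ t, ∫⁻ x in B i, lipa (u n) x ∂m) atTop := by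
    classical
    intro t
    induction t using Finset.induction_on with
    | empty => simp
    | insert a t ha ih =>
      simp only [Finset.sum_insert ha]
      exact (add_le_add_right ih _).trans (add_liminf_le _ _)
  refine (Finset.sum_le_sum h1).trans ((h2 s).trans (liminf_le_liminf (Eventually.of_forall
    fun n => ?_)))
  rw [← lintegral_biUnion_finset hd (fun i hi => (hB i hi).measurableSet)]
  exact lintegral_mono_set (iUnion₂_subset hBA)

end Pool.Agent.H60.BV
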