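import Pool.Agent.H60.BV.Assemble2

set_option autoImplicit false
set_option linter.unusedSectionVars false

open MeasureTheory Metric Set Filter Topology
open scoped ENNReal NNReal

namespace Pool.Agent.H60.BV

variable {X : Type*} [MetricSpace X] [MeasurableSpace X] [BorelSpace X]

/-- the asymptotic Lipschitz constant is an upper gradient -/
theorem isUpperGradient_lipa {f : X → ℝ} (hf : ∀ x, lipa f x < ⊤) :
    IsUpperGradient f (lipa f) := by
  refine ⟨measurable_lipa f, fun L γ hL hγ => ?_⟩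
  have hγ1 : ∀ s ∈ Icc (0 : ℝ) L, ∀ t ∈ Icc (0 : ℝ) L, s ≤ t → edist (γ s) (γ t) ≤ edist s t := by
    intro s hs t ht hst
    have h1 := hγ hs ht
    have h2 : edist (γ s) (γ t) ≤ eVariationOn γ (Icc 0 L ∩ Icc s t) :=
      eVariationOn.edist_le γ ⟨hs, le_rfl, hst⟩ ⟨ht, hst, le_rfl⟩
    rw [h1] at h2
    refine h2.trans (le_of_eq ?_)
    rw [edist_comm, edist_dist, Real.dist_eq, abs_of_nonneg (by linarith)]
    simp
  have hγl : LipschitzOnWith 1 γ (Icc 0 L) := by
    intro s hs t ht
    rw [ENNReal.coe_one, one_mul]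
    rcases le_total s t with h1 | h1
    · exact hγ1 s hs t ht h1
    · rw [edist_comm, edist_comm s]
      exact hγ1 t ht s hs h1
  have hloc : LocallyLipschitzOn univ f := (locallyLipschitzOn_iff isOpen_univ).2 fun x _ => hf x
  obtain ⟨K, hK⟩ := LocallyLipschitzOn.exists_lipschitzOnWith_of_compact
    ((isCompact_Icc (a := (0 : ℝ)) (b := L)).image_of_continuousOn hγl.continuousOn)
    (hloc.mono (subset_univ _))
  set h : ℝ → ℝ := fun s => f (γ s) with hh
  have hl : LipschitzOnWith (K * 1) h (uIcc 0 L) := by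
    rw [uIcc_of_le hL]
    exact hK.comp hγl (mapsTo_image _ _)
  have hac := hl.absolutelyContinuousOnInterval
  have hint := hac.integral_deriv_eq_sub
  have hder : ∀ s ∈ Ioo (0 : ℝ) L, ‖deriv h s‖ₑ ≤ lipa f (γ s) := by
    intro s hs
    refine le_of_forall_gt_imp_ge_of_dense fun c hc => ?_
    rcases eq_or_ne c ⊤ with rfl | hct
    · exact le_top
    obtain ⟨r, hr, hlt⟩ := exists_of_lipa_lt hc
    have h1 : ‖deriv h s‖ ≤ c.toReal := by
      refine norm_deriv_le_of_lip' ENNReal.toReal_nonneg ?_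
      filter_upwards [isOpen_Ioo.mem_nhds hs, ball_mem_nhds s hr] with y hy1 hy2
      have h2 : edist (γ y) (γ s) ≤ edist y s := by
        have := hγl (Ioo_subset_Icc_self hy1) (Ioo_subset_Icc_self hs)
        rwa [ENNReal.coe_one, one_mul] at this
      have h3 : γ y ∈ ball (γ s) r := by
        rw [mem_ball, ← ENNReal.ofReal_lt_ofReal_iff hr, ← edist_dist]
        refine h2.trans_lt ?_
        rw [edist_dist]
        exact (ENNReal.ofReal_lt_ofReal_iff hr).2 hy2
      have h4 : edist (h y) (h s) ≤ c * edist y s :=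
        (edist_le_lipOn h3 (mem_ball_self hr)).trans (mul_le_mul' hlt.le h2)
      have h5 := ENNReal.toReal_mono (ENNReal.mul_ne_top hct (edist_ne_top _ _)) h4
      rw [ENNReal.toReal_mul, ← dist_edist, ← dist_edist, Real.dist_eq, Real.dist_eq] at h5
      exact h5
    rw [← ofReal_norm]
    exact (ENNReal.ofReal_le_ofReal h1).trans (ENNReal.ofReal_toReal hct).le
  calc ‖f (γ 0) - f (γ L)‖ₑ = ‖∫ x in (0 : ℝ)..L, deriv h x‖ₑ := by
        rw [hint, ← enorm_neg, neg_sub]
    _ ≤ ∫⁻ s in Ioc 0 L, ‖deriv h s‖ₑ := by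
        rw [intervalIntegral.integral_of_le hL]
        exact enorm_integral_le_lintegral_enorm _
    _ = ∫⁻ s in Ioo 0 L, ‖deriv h s‖ₑ := by
        rw [restrict_Ioo_eq_restrict_Ioc]
    _ ≤ ∫⁻ s in Ioo 0 L, lipa f (γ s) := setLIntegral_mono' measurableSet_Ioo hder
    _ ≤ _ := lintegral_mono_set Ioo_subset_Icc_self

/-- the relative isoperimetric inequality -/
theorem rel_iso {m : Measure X} [IsFiniteMeasureOnCompacts m] [ProperSpace X] {Ω : Set X}
    (hΩ : MeasurableSet Ω) {C lam : ℝ} (hC : 0 < C) (hlam : 1 ≤ lam)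
    (hP : ∀ (f : X → ℝ) (g : X → ℝ≥0∞),
      (∀ (x : X) (r : ℝ), IntegrableOn f (ball x r) m) → IsUpperGradient f g →
      ∀ (x : X) (r : ℝ), 0 < r →
        ∫⁻ y in ball x r, ‖f y - ⨍ z in ball x r, f z ∂m‖ₑ ∂m ≤
          ENNReal.ofReal (C * r) * ∫⁻ y in ball x (lam * r), g y ∂m)
    (x : X) {r : ℝ} (hr : 0 < r) :
    min (m (Ω ∩ ball x r)) (m (ball x r \ Ω)) ≤
      ENNReal.ofReal (C * r) * tvOpen m (Ω.indicator 1) (ball x (3 * lam * r)) := by
  have hCr : 0 < C * r := by positivity
  have hCr0 : ENNReal.ofReal (C * r) ≠ 0 := by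
    rw [ne_eq, ENNReal.ofReal_eq_zero, not_le]
    exact hCr
  rcases eq_or_ne (tvOpen m (Ω.indicator 1) (ball x (3 * lam * r))) ⊤ with htop | htop
  · rw [htop, ENNReal.mul_top hCr0]
    exact le_top
  have key : ∀ c : ℝ≥0∞, tvOpen m (Ω.indicator 1) (ball x (3 * lam * r)) < c →
      min (m (Ω ∩ ball x r)) (m (ball x r \ Ω)) ≤ ENNReal.ofReal (C * r) * c := by
    intro c hc
    obtain ⟨g, hg, hgc, hg01, hgi⟩ := exists_seq01 isOpen_ball hc
    have hlr : 0 < 2 * lam * r := by positivity
    set ζ := bump x (2 * lam * r) with hζ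
    have hζl : ∀ y, lipa ζ y ≤ Real.toNNReal (2 / (2 * lam * r)) :=
      lipa_of_lipschitz (bump_lipschitz x hlr)
    have hζ0 : ∀ y, 0 ≤ ζ y := bump_nonneg _ _
    have hζ1 : ∀ y, ζ y ≤ 1 := bump_le_one _ _
    have hζs : tsupport ζ ⊆ closedBall x (2 * lam * r) := bump_support hlr
    have hζc : IsCompact (tsupport ζ) :=
      (isCompact_closedBall x _).of_isClosed_subset (isClosed_tsupport _) hζs
    have hsub : closedBall x (2 * lam * r) ⊆ ball x (3 * lam * r) :=
      closedBall_subset_ball (by nlinarith)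
    set f : ℕ → X → ℝ := fun n y => ζ y * g n y with hf
    have hfl : ∀ n y, lipa (f n) y < ⊤ := by
      intro n y
      by_cases hy : y ∈ tsupport ζ
      · have hyB := hsub (hζs hy)
        exact (lipa_mul_bound (hζ0 y) (hζ1 y) (hζl y) (hg n y hyB)).trans_lt
          (ENNReal.add_lt_top.2 ⟨hg n y hyB, ENNReal.mul_lt_top ENNReal.coe_lt_top enorm_lt_top⟩)
      · rw [lipa_const_near (c := 0)]
        · exact ENNReal.zero_lt_top
        · filter_upwards [(isClosed_tsupport ζ).isOpen_compl.mem_nhds hy] with z hz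
          simp only [hf]
          rw [image_eq_zero_of_notMem_tsupport hz, zero_mul]
    have hfcont : ∀ n, Continuous (f n) := fun n => continuous_of_lipa (hfl n)
    have hfint : ∀ n (y : X) (s : ℝ), IntegrableOn (f n) (ball y s) m := fun n y s =>
      ((hfcont n).continuousOn.integrableOn_compact (isCompact_closedBall y s)).mono_set
        ball_subset_closedBall
    have hζeq : ∀ y ∈ ball x (lam * r), ζ y = 1 := fun y hy => bump_eq_one hlr (by
      have : dist y x < lam * r := hy
      linarith)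
    have hbB : ball x r ⊆ ball x (lam * r) := ball_subset_ball (by nlinarith)
    have h1 : ∀ n, ∫⁻ y in ball x r, ‖g n y - ⨍ z in ball x r, f n z ∂m‖ₑ ∂m ≤
        ENNReal.ofReal (C * r) * c := by
      intro n
      have h2 := hP (f n) (lipa (f n)) (hfint n) (isUpperGradient_lipa (hfl n)) x r hr
      calc ∫⁻ y in ball x r, ‖g n y - ⨍ z in ball x r, f n z ∂m‖ₑ ∂m
          = ∫⁻ y in ball x r, ‖f n y - ⨍ z in ball x r, f n z ∂m‖ₑ ∂m := by
            refine setLIntegral_congr_fun measurableSet_ball fun y hy => ?_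
            simp only [hf]
            rw [hζeq y (hbB hy), one_mul]
        _ ≤ _ := h2
        _ = ENNReal.ofReal (C * r) * ∫⁻ y in ball x (lam * r), lipa (g n) y ∂m := by
            congr 1
            refine setLIntegral_congr_fun measurableSet_ball fun y hy => ?_
            refine lipa_congr ?_
            filter_upwards [isOpen_ball.mem_nhds hy] with z hz
            simp only [hf]
            rw [hζeq z hz, one_mul]
        _ ≤ _ := by
            gcongr
            exact (lintegral_mono_set (ball_subset_ball (by nlinarith))).trans (hgi n)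
    have hBc : Tendsto (fun n => ∫⁻ y in closedBall x r, ‖g n y - Ω.indicator (1 : X → ℝ) y‖ₑ ∂m)
        atTop (𝓝 0) := hgc.compact (isCompact_closedBall x r)
          (closedBall_subset_ball (by nlinarith))
    have h2 : ∀ n, min (m (Ω ∩ ball x r)) (m (ball x r \ Ω)) ≤
        ∫⁻ y in closedBall x r, ‖g n y - Ω.indicator (1 : X → ℝ) y‖ₑ ∂m +
        ENNReal.ofReal (C * r) * c := by
      intro n
      set a := ⨍ z in ball x r, f n z ∂m with ha
      set μ := min (m (Ω ∩ ball x r)) (m (ball x r \ Ω)) with hμ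
      have hgx : ∀ y ∈ ball x (3 * lam * r), lipa (g n) y < ⊤ := hg n
      calc μ ≤ μ * (‖1 - a‖ₑ + ‖a‖ₑ) := by
            have h3 : (1 : ℝ≥0∞) ≤ ‖1 - a‖ₑ + ‖a‖ₑ := by
              have h4 := enorm_add_le (1 - a) a
              rw [sub_add_cancel] at h4
              simpa using h4
            exact le_mul_of_one_le_right zero_le h3
        _ = μ * ‖1 - a‖ₑ + μ * ‖a‖ₑ := by ring
        _ ≤ m (Ω ∩ ball x r) * ‖1 - a‖ₑ + m (ball x r \ Ω) * ‖a‖ₑ := by
            gcongr
            · exact min_le_left _ _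
            · exact min_le_right _ _
        _ = ∫⁻ y in Ω ∩ ball x r, ‖Ω.indicator (1 : X → ℝ) y - a‖ₑ ∂m +
            ∫⁻ y in ball x r \ Ω, ‖Ω.indicator (1 : X → ℝ) y - a‖ₑ ∂m := by
            congr 1
            · rw [mul_comm, ← setLIntegral_const]
              refine setLIntegral_congr_fun (hΩ.inter measurableSet_ball) fun y hy => ?_
              simp only [indicator_of_mem hy.1, Pi.one_apply]
            · rw [mul_comm, ← setLIntegral_const]
              refine setLIntegral_congr_fun (measurableSet_ball.diff hΩ) fun y hy => ?_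
              simp only [indicator_of_notMem hy.2, zero_sub, enorm_neg]
        _ = ∫⁻ y in ball x r, ‖Ω.indicator (1 : X → ℝ) y - a‖ₑ ∂m := by
            rw [inter_comm]
            exact lintegral_inter_add_sdiff _ _ hΩ
        _ ≤ ∫⁻ y in ball x r, (‖g n y - Ω.indicator (1 : X → ℝ) y‖ₑ + ‖g n y - a‖ₑ) ∂m := by
            refine lintegral_mono fun y => ?_
            have e : Ω.indicator (1 : X → ℝ) y - a =
              -(g n y - Ω.indicator (1 : X → ℝ) y) + (g n y - a) := by ring
            rw [e]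
            refine (enorm_add_le _ _).trans ?_
            rw [enorm_neg]
        _ = ∫⁻ y in ball x r, ‖g n y - Ω.indicator (1 : X → ℝ) y‖ₑ ∂m +
            ∫⁻ y in ball x r, ‖g n y - a‖ₑ ∂m :=
            lintegral_add_cont hΩ measurableSet_ball (A := ball x (3 * lam * r))
              (ball_subset_ball (by nlinarith)) hgx _
        _ ≤ _ := add_le_add (lintegral_mono_set ball_subset_closedBall) (h1 n)
    have h3 := hBc.add (tendsto_const_nhds (x := ENNReal.ofReal (C * r) * c))
    rw [zero_add] at h3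
    exact ge_of_tendsto' h3 h2
  have h1 : Tendsto (fun k : ℕ => ((k : ℝ≥0∞) + 1)⁻¹) atTop (𝓝 0) := by
    have h4 : Tendsto (fun k : ℕ => (((k + 1 : ℕ) : ℝ≥0∞))⁻¹) atTop (𝓝 0) :=
      ENNReal.tendsto_inv_nat_nhds_zero.comp (tendsto_add_atTop_nat 1)
    simpa using h4
  have h2 : Tendsto (fun k : ℕ => ENNReal.ofReal (C * r) *
      (tvOpen m (Ω.indicator 1) (ball x (3 * lam * r)) + ((k : ℝ≥0∞) + 1)⁻¹)) atTop
      (𝓝 (ENNReal.ofReal (C * r) * (tvOpen m (Ω.indicator 1) (ball x (3 * lam * r)) + 0))) := by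
    refine ENNReal.Tendsto.const_mul ?_ (Or.inr ENNReal.ofReal_ne_top)
    exact tendsto_const_nhds.add h1
  rw [add_zero] at h2
  refine ge_of_tendsto' h2 fun k => key _ (ENNReal.lt_add_right htop ?_)
  simp

end Pool.Agent.H60.BV
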